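import Mathlib

open scoped InnerProductSpace

namespace Pool.Agent.MP_86f3ed.Pin

variable {H : Type*} [NormedAddCommGroup H] [InnerProductSpace ℂ H] [CompleteSpace H]

/-- Every nonzero projection `p` of `N` dominates the ranges of two isometries `v`, `w` of `N`
with orthogonal ranges. For a von Neumann algebra `N` on a nonzero Hilbert space this means that
`N` is a countably decomposable factor of type III. -/
def PurelyInfinite (N : Set (H →L[ℂ] H)) : Prop :=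
  ∀ p ∈ N, star p = p → p * p = p → p ≠ 0 →
    ∃ v ∈ N, ∃ w ∈ N, star v * v = 1 ∧ star w * w = 1 ∧ star v * w = 0 ∧ p * v = v ∧ p * w = w

/-- The Connes-Størmer property of the pair `M`, `N`: for some vector `ξ₀` the vectors `b y ξ₀`
with contractions `b` in `M` and `y` in `N` are uniformly non-orthogonal to the unit vectors: for
some `κ > 0` every unit vector `ξ` has `b` and `y` with `κ ≤ |⟨ξ, b y ξ₀⟩|`. -/
def ConnesStormer (M N : Set (H →L[ℂ] H)) : Prop :=
  ∃ (ξ₀ : H) (κ : ℝ), 0 < κ ∧ ∀ ξ : H, ‖ξ‖ = 1 →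
    ∃ b ∈ M, ∃ y ∈ N, ‖b‖ ≤ 1 ∧ ‖y‖ ≤ 1 ∧ κ ≤ ‖⟪ξ, b (y ξ₀)⟫_ℂ‖

end Pool.Agent.MP_86f3ed.Pin
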