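import Pool.Agent.H.MP_86f3ed_an.Pin.Space
import Pool.Agent.H.MP_86f3ed_an.Pin.Defs

open scoped InnerProductSpace Topology

namespace Pool.Agent.MP_86f3ed.Pin

variable {H : Type*} [NormedAddCommGroup H] [InnerProductSpace ℂ H] [CompleteSpace H]

/-- The projection onto a closed subspace which is invariant under the star algebra `A` lies in
the commutant of `A`. -/
theorem proj_mem_Com (A : StarSubalgebra ℂ (H →L[ℂ] H)) (K : Submodule ℂ H)
    [K.HasOrthogonalProjection] (hK : ∀ a ∈ A, ∀ v ∈ K, a v ∈ K) :
    K.starProjection ∈ Com A := by
  have hs : star K.starProjection = K.starProjection := by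
    rw [ContinuousLinearMap.star_eq_adjoint]
    exact (ContinuousLinearMap.eq_adjoint_iff _ _).mpr
      (fun x y => (K.inner_starProjection_left_eq_right x y)) |>.symm
  have h1 : ∀ a ∈ A, K.starProjection * a * K.starProjection = a * K.starProjection := by
    intro a ha
    ext v
    show K.starProjection (a (K.starProjection v)) = a (K.starProjection v)
    rw [Submodule.starProjection_eq_self_iff]
    exact hK a ha _ (Submodule.starProjection_apply_mem K v)
  rw [mem_Com]
  intro a ha
  have h2 := h1 a ha
  have h3 := congrArg star (h1 (star a) (star_mem ha))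
  rw [star_mul, star_mul, star_mul, star_star, hs, ← mul_assoc, h2] at h3
  exact h3

end Pool.Agent.MP_86f3ed.Pin
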