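import Pool.Agent.H.MP_86f3ed_an.Trc.Approx
import Pool.Agent.H.MP_86f3ed_an.Pin.PI

open scoped InnerProductSpace Topology

namespace Pool.Agent.MP_86f3ed.Pin

variable {H : Type*} [NormedAddCommGroup H] [InnerProductSpace ℂ H] [CompleteSpace H]

/-- the cut-off function -/
noncomputable def Range_f (r t : ℝ) : ℝ := r / max r (Real.sqrt t)

theorem Range_cont {r : ℝ} (hr : 0 < r) : Continuous (Range_f r) := by
  unfold Range_f
  apply Continuous.div continuous_const
  · exact continuous_const.max Real.continuous_sqrt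
  · intro t
    exact ne_of_gt (lt_of_lt_of_le hr (le_max_left _ _))

theorem Range_sq {r t : ℝ} (hr : 0 < r) (ht : 0 ≤ t) :
    0 ≤ Range_f r t * t * Range_f r t ∧ Range_f r t * t * Range_f r t ≤ r ^ 2 := by
  have h1 : 0 < max r (Real.sqrt t) := lt_of_lt_of_le hr (le_max_left _ _)
  have h2 : Real.sqrt t ≤ max r (Real.sqrt t) := le_max_right _ _
  have h3 : t ≤ max r (Real.sqrt t) ^ 2 := by
    calc t = Real.sqrt t ^ 2 := (Real.sq_sqrt ht).symm
      _ ≤ _ := pow_le_pow_left₀ (Real.sqrt_nonneg t) h2 2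
  have h4 : Range_f r t * t * Range_f r t = r ^ 2 * (t / max r (Real.sqrt t) ^ 2) := by
    unfold Range_f
    field_simp
  rw [h4]
  constructor
  · positivity
  · have h5 : t / max r (Real.sqrt t) ^ 2 ≤ 1 := by
      rw [div_le_one (by positivity)]
      exact h3
    have h6 : 0 ≤ r ^ 2 := by positivity
    nlinarith

theorem Range_one {r t : ℝ} (hr : 0 < r) (h : t ≤ r ^ 2) : Range_f r t = 1 := by
  unfold Range_f
  have h1 : Real.sqrt t ≤ r := by
    rw [Real.sqrt_le_left hr.le]
    exact h
  rw [max_eq_left h1, div_self hr.ne']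

/-- Lifting of elements of the range with control of the norm. -/
theorem exists_lift {B : Type*} [CStarAlgebra B] (ρ : B →⋆ₐ[ℂ] (H →L[ℂ] H)) (b : B) {r : ℝ}
    (hr : 0 < r) (h : ‖ρ b‖ ≤ r) : ∃ b' : B, ρ b' = ρ b ∧ ‖b'‖ ≤ r := by
  have hsa : IsSelfAdjoint (star b * b) := IsSelfAdjoint.star_mul_self b
  have hsa' : IsSelfAdjoint (ρ (star b * b)) := hsa.map ρ
  have hcont : Continuous (Range_f r) := Range_cont hr
  have hρc : Continuous ρ := by
    apply AddMonoidHomClass.continuous_of_bound ρ 1
    intro v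
    rw [one_mul]
    exact NonUnitalStarAlgHom.norm_apply_le ρ v
  refine ⟨b * cfc (Range_f r) (star b * b), ?_, ?_⟩
  · rw [map_mul]
    have h1 : ρ (cfc (Range_f r) (star b * b)) = cfc (Range_f r) (ρ (star b * b)) :=
      StarAlgHomClass.map_cfc ρ (Range_f r) (star b * b) hcont.continuousOn
        hρc hsa hsa'
    have h2 : cfc (Range_f r) (ρ (star b * b)) = 1 := by
      rw [← cfc_const_one ℝ (ρ (star b * b)) hsa']
      apply cfc_congr
      intro x hx
      apply Range_one hr
      have h3 : ‖x‖ ≤ ‖ρ (star b * b)‖ := by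
        rcases subsingleton_or_nontrivial H with hs | hs
        · exfalso
          rw [spectrum.of_subsingleton] at hx
          exact hx
        · exact spectrum.norm_le_norm_of_mem hx
      rw [map_mul, map_star, CStarRing.norm_star_mul_self] at h3
      calc x ≤ ‖x‖ := Real.le_norm_self x
        _ ≤ ‖ρ b‖ * ‖ρ b‖ := h3
        _ ≤ r * r := mul_le_mul h h (norm_nonneg _) hr.le
        _ = r ^ 2 := (sq r).symm
    rw [h1, h2, mul_one]
  · have h1 : star (b * cfc (Range_f r) (star b * b)) * (b * cfc (Range_f r) (star b * b))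
        = cfc (fun t => Range_f r t * t * Range_f r t) (star b * b) := by
      have h2 : IsSelfAdjoint (cfc (Range_f r) (star b * b)) := cfc_predicate _ _
      rw [star_mul, h2.star_eq]
      rw [cfc_mul (fun t => Range_f r t * t) (Range_f r) (star b * b)
        (hcont.mul continuous_id).continuousOn hcont.continuousOn,
        cfc_mul (Range_f r) (fun t => t) (star b * b) hcont.continuousOn
        continuous_id.continuousOn, cfc_id' ℝ (star b * b)]
      simp only [mul_assoc]
    have h3 : ‖b * cfc (Range_f r) (star b * b)‖ * ‖b * cfc (Range_f r) (star b * b)‖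
        ≤ r ^ 2 := by
      rw [← CStarRing.norm_star_mul_self, h1]
      apply norm_cfc_le (by positivity)
      intro x hx
      have hx0 : 0 ≤ x := spectrum_star_mul_self_nonneg x hx
      have h4 := Range_sq hr hx0
      rw [Real.norm_eq_abs, abs_of_nonneg h4.1]
      exact h4.2
    exact abs_le_of_sq_le_sq' (by rw [sq]; exact h3) hr.le |>.2

/-- The range of a star homomorphism of C*-algebras is closed. -/
theorem isClosed_range {B : Type*} [CStarAlgebra B] (ρ : B →⋆ₐ[ℂ] (H →L[ℂ] H)) :
    IsClosed (ρ.range : Set (H →L[ℂ] H)) := by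
  let F : NormedAddGroupHom B (H →L[ℂ] H) :=
    { toFun := ρ
      map_add' := map_add ρ
      bound' := ⟨1, fun v => by
        rw [one_mul]
        exact NonUnitalStarAlgHom.norm_apply_le ρ v⟩ }
  have hF : ∀ b, F b = ρ b := fun _ => rfl
  have hyp : F.SurjectiveOnWith F.range 1 := by
    intro x hx
    obtain ⟨b, rfl⟩ := F.mem_range x |>.1 hx
    by_cases h0 : ρ b = 0
    · refine ⟨0, ?_, by simp⟩
      rw [map_zero, hF, h0]
    · obtain ⟨b', h1, h2⟩ := exists_lift ρ b (norm_pos_iff.2 h0) le_rfl
      exact ⟨b', by rw [hF, hF, h1], by rw [one_mul, hF]; exact h2⟩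
  have h2 := controlled_closure_of_complete (by norm_num : (0 : ℝ) < 1)
    (by norm_num : (0 : ℝ) < 1) hyp
  rw [← closure_subset_iff_isClosed]
  intro x hx
  have h3 : x ∈ F.range.topologicalClosure := by
    have h4 : ((F.range : AddSubgroup _) : Set (H →L[ℂ] H)) = (ρ.range : Set (H →L[ℂ] H)) := by
      ext y
      simp only [SetLike.mem_coe, F.mem_range, hF]
      exact Iff.rfl
    change x ∈ closure ((F.range : AddSubgroup _) : Set (H →L[ℂ] H))
    rw [h4]
    exact hx
  obtain ⟨g, hg, -⟩ := h2 x h3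
  exact ⟨g, hg⟩

end Pool.Agent.MP_86f3ed.Pin
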