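import Pool.Agent.H.MP_86f3ed_an.Pin.Main
import Pool.Agent.H.MP_86f3ed_an.Pin.Range
import Pool.Agent.H.MP_86f3ed_an.Trc.Bridge

open scoped InnerProductSpace Topology
open Filter ContinuousLinearMap

namespace Pool.Agent.MP_86f3ed.Pin

universe u v

variable {H : Type v} [NormedAddCommGroup H] [InnerProductSpace ℂ H] [CompleteSpace H]

/-- The unitized range of a representation. -/
noncomputable def rangeAlg {A : Type u} [NonUnitalCStarAlgebra A] (π : A →⋆ₙₐ[ℂ] (H →L[ℂ] H)) :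
    StarSubalgebra ℂ (H →L[ℂ] H) := (Unitization.starLift π).range

theorem mem_rangeAlg {A : Type u} [NonUnitalCStarAlgebra A] {π : A →⋆ₙₐ[ℂ] (H →L[ℂ] H)}
    {g : H →L[ℂ] H} : g ∈ rangeAlg π ↔ ∃ (c : ℂ) (a : A), g = c • 1 + π a := by
  constructor
  · rintro ⟨x, rfl⟩
    refine ⟨x.fst, x.snd, ?_⟩
    show algebraMap ℂ (H →L[ℂ] H) x.fst + π x.snd = _
    rw [Algebra.algebraMap_eq_smul_one]
  · rintro ⟨c, a, rfl⟩
    refine ⟨Unitization.inl c + Unitization.inr a, ?_⟩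
    show algebraMap ℂ (H →L[ℂ] H) (Unitization.inl c + Unitization.inr a : Unitization ℂ A).fst +
      π (Unitization.inl c + Unitization.inr a : Unitization ℂ A).snd = _
    rw [Algebra.algebraMap_eq_smul_one]
    simp

theorem Com_rangeAlg {A : Type u} [NonUnitalCStarAlgebra A] (π : A →⋆ₙₐ[ℂ] (H →L[ℂ] H)) :
    (Com (rangeAlg π) : Set (H →L[ℂ] H)) = (Set.range π).centralizer := by
  ext x
  rw [SetLike.mem_coe, mem_Com, Set.mem_centralizer_iff]
  constructor
  · rintro h _ ⟨a, rfl⟩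
    exact h _ (mem_rangeAlg.mpr ⟨0, a, by simp⟩)
  · intro h g hg
    obtain ⟨c, a, rfl⟩ := mem_rangeAlg.mp hg
    have := h _ ⟨a, rfl⟩
    rw [add_mul, mul_add, this, smul_mul_assoc, mul_smul_comm, one_mul, mul_one]

theorem Com_Com_rangeAlg {A : Type u} [NonUnitalCStarAlgebra A] (π : A →⋆ₙₐ[ℂ] (H →L[ℂ] H)) :
    (Com (Com (rangeAlg π)) : Set (H →L[ℂ] H)) = (Set.range π).centralizer.centralizer := by
  ext x
  rw [SetLike.mem_coe, mem_Com, Set.mem_centralizer_iff, ← Com_rangeAlg]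
  rfl

theorem main_theorem {A : Type u} [NonUnitalCStarAlgebra A] (hA : ApproximatelyAmenable.{u, v} A)
    (π : A →⋆ₙₐ[ℂ] (H →L[ℂ] H))
    (hN : PurelyInfinite (Set.range π).centralizer)
    (hM : PurelyInfinite (Set.range π).centralizer.centralizer)
    (hCS : ConnesStormer (Set.range π).centralizer.centralizer (Set.range π).centralizer) :
    IsInjective (Set.range π).centralizer := by
  classical
  rw [← Com_Com_rangeAlg π] at hM
  rw [← Com_Com_rangeAlg π, ← Com_rangeAlg π] at hCS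
  rw [← Com_rangeAlg π] at hN ⊢
  refine injCom_of_near_central (𝔄 := rangeAlg π) (isClosed_range _) hN hM hCS ?_
  intro G hG ε hε
  have hex : ∀ g : G, ∃ (c : ℂ) (a : A), (g : H →L[ℂ] H) = c • 1 + π a := fun g =>
    mem_rangeAlg.mp (hG g g.2)
  choose c a hca using hex
  obtain ⟨n, x, y, hx, hy, h1, h2⟩ := exists_near_central (approxAmenable_of_public hA) π
    (Finset.univ.image a) ε hε
  have hcx : ∀ k, ∀ m ∈ Com (rangeAlg π), m * x k = x k * m := fun k m hm =>
    (mem_Com.mp hm _ (hx k)).symm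
  have hcy : ∀ k, ∀ m ∈ Com (rangeAlg π), m * y k = y k * m := fun k m hm =>
    (mem_Com.mp hm _ (hy k)).symm
  let P₀ : (H →L[ℂ] H) →L[ℂ] (H →L[ℂ] H) := ∑ k, (Lm (x k)).comp (Rm (y k))
  have hP₀ : ∀ S, P₀ S = ∑ k, x k * S * y k := by
    intro S
    show (∑ k, (Lm (x k)).comp (Rm (y k))) S = _
    rw [sum_apply]
    refine Finset.sum_congr rfl fun k _ => ?_
    simp [mul_assoc]
  let P : X (Com (rangeAlg π)) := X.mk P₀ (by
    intro m hm T
    rw [hP₀, hP₀, hP₀, Finset.mul_sum, Finset.sum_mul]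
    constructor
    · refine Finset.sum_congr rfl fun k _ => ?_
      rw [← mul_assoc, ← hcx k m hm]
      simp only [mul_assoc]
    · refine Finset.sum_congr rfl fun k _ => ?_
      rw [mul_assoc, mul_assoc, hcy k m hm]
      simp only [mul_assoc])
  refine ⟨P, ?_, ?_⟩
  · show ‖P₀ 1 - 1‖ ≤ ε
    rw [hP₀]
    simpa using h1
  · intro g hg S
    show ‖g * P₀ S - P₀ S * g‖ ≤ ε * ‖S‖
    have h3 := h2 (a ⟨g, hg⟩) (Finset.mem_image_of_mem _ (Finset.mem_univ _)) S
    have h4 : g * P₀ S - P₀ S * g = π (a ⟨g, hg⟩) * P₀ S - P₀ S * π (a ⟨g, hg⟩) := by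
      have h5 := hca ⟨g, hg⟩
      simp only at h5
      nth_rewrite 1 2 [h5]
      rw [add_mul, mul_add, smul_mul_assoc, mul_smul_comm, one_mul, mul_one]
      abel
    rw [h4, hP₀]
    exact h3

end Pool.Agent.MP_86f3ed.Pin
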