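import Mathlib

open scoped Topology
open Filter

namespace Pool.Agent.MP_86f3ed.Pin

/-- A Banach space with two commuting contractive actions of the Banach algebra `M`; `L` is an
antihomomorphism and `R` is a homomorphism. -/
structure BM (M F : Type*) [NormedRing M] [NormedAlgebra ℂ M] [NormedAddCommGroup F]
    [NormedSpace ℂ F] where
  L : M →L[ℂ] F →L[ℂ] F
  R : M →L[ℂ] F →L[ℂ] F
  L_one : ∀ f, L 1 f = f
  L_mul : ∀ x y f, L (x * y) f = L y (L x f)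
  R_mul : ∀ x y f, R (x * y) f = R x (R y f)
  LR : ∀ x y f, L x (R y f) = R y (L x f)
  norm_L : ∀ x f, ‖L x f‖ ≤ ‖x‖ * ‖f‖
  norm_R : ∀ x f, ‖R x f‖ ≤ ‖x‖ * ‖f‖

namespace BM

variable {M F : Type*} [NormedRing M] [NormedAlgebra ℂ M] [NormedAddCommGroup F]
    [NormedSpace ℂ F] (B : BM M F)

/-- The commutator map. -/
noncomputable def D : M →L[ℂ] F →L[ℂ] F := B.L - B.R

theorem D_apply (x : M) (f : F) : B.D x f = B.L x f - B.R x f := by
  simp [D]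

theorem norm_D_le (x : M) (f : F) : ‖B.D x f‖ ≤ 2 * ‖x‖ * ‖f‖ := by
  rw [D_apply]
  refine (norm_sub_le _ _).trans ?_
  have h1 := B.norm_L x f
  have h2 := B.norm_R x f
  linarith

/-- The slot data. -/
structure Slots (S : Subalgebra ℂ M) where
  g : ℕ → M
  g' : ℕ → M
  U : ℕ → M
  V : ℕ → M
  g_mem : ∀ j, g j ∈ S
  g'_mem : ∀ j, g' j ∈ S
  norm_g : ∀ j, ‖g j‖ ≤ 1
  norm_g' : ∀ j, ‖g' j‖ ≤ 1
  gg' : ∀ j, g j * g' j = g' j
  g'g : ∀ j, g' j * g j = g' j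
  ort : ∀ j l, j ≠ l → g j * g l = 0
  norm_U : ∀ j, ‖U j‖ ≤ 1
  norm_V : ∀ j, ‖V j‖ ≤ 1
  UV : ∀ j, U j * V j = 1
  Ug' : ∀ j, U j * g' j = U j
  g'V : ∀ j, g' j * V j = V j

/-- The finite open mapping property with contraction constant `θ`. -/
def FT (S : Subalgebra ℂ M) (n : ℕ) (C θ : ℝ) : Prop :=
  ∀ f : F, ∃ (a : Fin n → M) (φ : Fin n → F), (∀ k, a k ∈ S ∧ ‖a k‖ ≤ 1) ∧
    (∀ k, ‖φ k‖ ≤ C * ‖f‖) ∧ ‖f - ∑ k, B.D (a k) (φ k)‖ ≤ θ * ‖f‖

/-- Elements of `S` approximate contractions of `M`. -/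
def Appr (S : Subalgebra ℂ M) : Prop :=
  ∀ x : M, ‖x‖ ≤ 1 → ∀ f₁ f₂ : F, ∀ δ : ℝ, 0 < δ →
    ∃ a ∈ S, ‖a‖ ≤ 1 ∧ ‖B.L (x - a) f₁‖ ≤ δ ∧ ‖B.R (x - a) f₂‖ ≤ δ

variable {B} {S : Subalgebra ℂ M}

namespace Slots

variable (s : Slots S)

theorem U_mul_g (j : ℕ) : s.U j * s.g j = s.U j := by
  rw [← s.Ug' j, mul_assoc, s.g'g]

theorem U_mul_g_ne {j l : ℕ} (h : j ≠ l) : s.U j * s.g l = 0 := by
  rw [← s.U_mul_g j, mul_assoc, s.ort j l h, mul_zero]

theorem g_mul_V (j : ℕ) : s.g j * s.V j = s.V j := by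
  rw [← s.g'V j, ← mul_assoc, s.gg']

theorem g_mul_V_ne {j l : ℕ} (h : l ≠ j) : s.g l * s.V j = 0 := by
  rw [← s.g_mul_V j, ← mul_assoc, s.ort l j h, zero_mul]

end Slots

/-- Transport of an inner commutator by a slot. -/
theorem transport (s : Slots S) (j : ℕ) (a : M) (f : F) :
    B.R (s.V j) (B.L (s.U j) (B.D a f)) =
      B.D (s.V j * a * s.U j) (B.R (s.V j) (B.L (s.U j) f)) := by
  rw [B.D_apply, B.D_apply, map_sub, map_sub]
  congr 1
  · rw [B.LR, ← B.L_mul (s.U j), ← mul_assoc, ← mul_assoc, s.UV, one_mul, B.L_mul]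
  · rw [← B.R_mul (s.V j * a * s.U j), mul_assoc (s.V j * a), s.UV, mul_one, B.R_mul, B.LR]

/-- Moving into the slot. -/
theorem move (s : Slots S) (j : ℕ) (e : F) :
    e = B.D (s.V j) (B.L (s.U j) e) + B.R (s.V j) (B.L (s.U j) e) := by
  rw [B.D_apply, ← B.L_mul, s.UV, B.L_one]
  abel

/-- One stage of the encoding. -/
theorem stage (hA : B.Appr S) (s : Slots S) {n : ℕ} {C : ℝ}
    (hFT : B.FT S n C (1/16)) (j : ℕ) (e : F) :
    ∃ (b : Fin n → M) (x : M) (φ : Fin n → F) (e' : F),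
      (∀ k, b k ∈ S ∧ ‖b k‖ ≤ 1 ∧ ∀ l, l ≠ j → s.U l * b k = 0 ∧ b k * s.V l = 0) ∧
      (x ∈ S ∧ ‖x‖ ≤ 1 ∧ s.g j * x = x) ∧ (∀ k, ‖φ k‖ ≤ C * ‖e‖) ∧ ‖e'‖ ≤ (1/8) * ‖e‖ ∧
      e = ∑ k, B.D (b k) (B.R (s.V j) (B.L (s.U j) (φ k))) + B.D x (B.L (s.U j) e) + e' := by
  by_cases he : e = 0
  · subst he
    refine ⟨fun _ => 0, 0, fun _ => 0, 0, fun k => ⟨S.zero_mem, by simp, fun l _ => by simp⟩,
      ⟨S.zero_mem, by simp, by simp⟩, fun k => by simp, by simp, by simp⟩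
  have he' : 0 < ‖e‖ := norm_pos_iff.mpr he
  set δ : ℝ := ‖e‖ / (32 * (n + 1)) with hδ
  have hn : (0 : ℝ) < n + 1 := by positivity
  have hδ0 : 0 < δ := by positivity
  obtain ⟨a, φ, ha, hφ, hr⟩ := hFT e
  set g := s.g j with hg
  set g' := s.g' j with hg'
  set U := s.U j with hU
  set V := s.V j with hV
  set Φ : Fin n → F := fun k => B.R V (B.L U (φ k)) with hΦ
  set y : Fin n → M := fun k => V * a k * U with hy
  have hyn : ∀ k, ‖y k‖ ≤ 1 := by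
    intro k
    refine (norm_mul_le _ _).trans ?_
    have h1 : ‖V * a k‖ ≤ 1 := (norm_mul_le _ _).trans
      (mul_le_one₀ (s.norm_V j) (norm_nonneg _) (ha k).2)
    exact mul_le_one₀ h1 (norm_nonneg _) (s.norm_U j)
  have hgy : ∀ k, g * y k = y k := by
    intro k
    show g * (V * a k * U) = V * a k * U
    rw [← mul_assoc, ← mul_assoc, s.g_mul_V]
  have hyg : ∀ k, y k * g = y k := by
    intro k
    show (V * a k * U) * g = V * a k * U
    rw [mul_assoc, s.U_mul_g]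
  have hex : ∀ k, ∃ a' ∈ S, ‖a'‖ ≤ 1 ∧ ‖B.L (y k - a') (B.L g (Φ k))‖ ≤ δ ∧
      ‖B.R (y k - a') (B.R g (Φ k))‖ ≤ δ := fun k => hA (y k) (hyn k) _ _ δ hδ0
  choose a' ha'S ha'n ha'L ha'R using hex
  obtain ⟨x', hx'S, hx'n, hx'L, hx'R⟩ := hA V (s.norm_V j) (B.L g' (B.L U e)) (B.L U e) δ hδ0
  have hg1 : ‖g‖ ≤ 1 := s.norm_g j
  have hg'1 : ‖g'‖ ≤ 1 := s.norm_g' j
  have hbd : ∀ (z : M) (f : F), ‖z‖ ≤ 1 → ‖f‖ ≤ δ → ‖B.L z f‖ ≤ δ := fun z f hz hf =>
    (B.norm_L z f).trans (by nlinarith [norm_nonneg f, norm_nonneg z])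
  have hbd' : ∀ (z : M) (f : F), ‖z‖ ≤ 1 → ‖f‖ ≤ δ → ‖B.R z f‖ ≤ δ := fun z f hz hf =>
    (B.norm_R z f).trans (by nlinarith [norm_nonneg f, norm_nonneg z])
  -- the error of the slots
  have hb : ∀ k, ‖B.D (y k - g * a' k * g) (Φ k)‖ ≤ 2 * δ := by
    intro k
    have h1 : y k - g * a' k * g = g * (y k - a' k) * g := by
      rw [mul_sub, sub_mul, hgy, hyg]
    rw [h1, B.D_apply]
    have h2 : ‖B.L (g * (y k - a' k) * g) (Φ k)‖ ≤ δ := by
      rw [mul_assoc, B.L_mul]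
      rw [B.L_mul]
      exact hbd _ _ hg1 (ha'L k)
    have h3 : ‖B.R (g * (y k - a' k) * g) (Φ k)‖ ≤ δ := by
      rw [mul_assoc, B.R_mul]
      rw [B.R_mul]
      exact hbd' _ _ hg1 (ha'R k)
    refine (norm_sub_le _ _).trans ?_
    linarith
  have hx : ‖B.D (V - g' * x') (B.L U e)‖ ≤ 2 * δ := by
    have h1 : V - g' * x' = g' * (V - x') := by
      rw [mul_sub, s.g'V]
    rw [h1, B.D_apply]
    have h2 : ‖B.L (g' * (V - x')) (B.L U e)‖ ≤ δ := by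
      rw [B.L_mul]; exact hx'L
    have h3 : ‖B.R (g' * (V - x')) (B.L U e)‖ ≤ δ := by
      rw [B.R_mul]; exact hbd' _ _ hg'1 hx'R
    refine (norm_sub_le _ _).trans ?_
    linarith
  have hgg : g * g' = g' := s.gg' j
  have hnorm3 : ∀ z : M, ‖z‖ ≤ 1 → ‖g * z * g‖ ≤ 1 := fun z hz =>
    (norm_mul_le _ _).trans (mul_le_one₀ ((norm_mul_le _ _).trans
      (mul_le_one₀ hg1 (norm_nonneg _) hz)) (norm_nonneg _) hg1)
  refine ⟨fun k => g * a' k * g, g' * x', φ,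
    B.R V (B.L U (e - ∑ k, B.D (a k) (φ k))) + ∑ k, B.D (y k - g * a' k * g) (Φ k) +
      B.D (V - g' * x') (B.L U e), ?_, ?_, hφ, ?_, ?_⟩
  · intro k
    refine ⟨S.mul_mem (S.mul_mem (s.g_mem j) (ha'S k)) (s.g_mem j), hnorm3 _ (ha'n k), ?_⟩
    intro l hl
    constructor
    · rw [← mul_assoc, ← mul_assoc, s.U_mul_g_ne hl, zero_mul, zero_mul]
    · rw [mul_assoc, s.g_mul_V_ne hl.symm, mul_zero]
  · refine ⟨S.mul_mem (s.g'_mem j) hx'S, (norm_mul_le _ _).trans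
      (mul_le_one₀ hg'1 (norm_nonneg _) hx'n), ?_⟩
    rw [← mul_assoc, hgg]
  · have h1 : ‖B.R V (B.L U (e - ∑ k, B.D (a k) (φ k)))‖ ≤ 1/16 * ‖e‖ := by
      refine (B.norm_R _ _).trans ?_
      have h2 := B.norm_L U (e - ∑ k, B.D (a k) (φ k))
      have h3 : ‖B.L U (e - ∑ k, B.D (a k) (φ k))‖ ≤ 1/16 * ‖e‖ :=
        h2.trans ((mul_le_of_le_one_left (norm_nonneg _) (s.norm_U j)).trans hr)
      exact (mul_le_of_le_one_left (norm_nonneg _) (s.norm_V j)).trans h3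
    have h2 : ‖∑ k, B.D (y k - g * a' k * g) (Φ k)‖ ≤ n * (2 * δ) := by
      refine (norm_sum_le _ _).trans ?_
      refine (Finset.sum_le_card_nsmul _ _ _ fun k _ => hb k).trans ?_
      simp
    have h3 : (n : ℝ) * (2 * δ) + 2 * δ = 1/16 * ‖e‖ := by
      rw [hδ]; field_simp; ring
    refine (norm_add₃_le).trans ?_
    linarith
  · have h1 : e = B.D V (B.L U e) + B.R V (B.L U e) := move s j e
    have h2 : B.R V (B.L U e) = B.R V (B.L U (e - ∑ k, B.D (a k) (φ k))) +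
        ∑ k, B.D (y k) (Φ k) := by
      have h3 : ∀ k, B.D (y k) (Φ k) = B.R V (B.L U (B.D (a k) (φ k))) := fun k =>
        (transport s j (a k) (φ k)).symm
      simp_rw [h3]
      rw [← map_sum, ← map_sum, ← map_add, ← map_add, sub_add_cancel]
    have h4 : ∀ k, B.D (y k) (Φ k) = B.D (g * a' k * g) (Φ k) +
        B.D (y k - g * a' k * g) (Φ k) := by
      intro k
      rw [map_sub, sub_apply]; abel
    have h5 : B.D V (B.L U e) = B.D (g' * x') (B.L U e) + B.D (V - g' * x') (B.L U e) := by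
      rw [map_sub, sub_apply]; abel
    calc e = B.D V (B.L U e) + B.R V (B.L U e) := h1
      _ = B.D V (B.L U e) + (B.R V (B.L U (e - ∑ k, B.D (a k) (φ k))) +
        ∑ k, (B.D (g * a' k * g) (Φ k) + B.D (y k - g * a' k * g) (Φ k))) := by
          rw [h2]; simp_rw [h4]
      _ = _ := by
          rw [h5, Finset.sum_add_distrib]
          abel

/-- Coefficients. -/
noncomputable def coef (j l : ℕ) : ℂ :=
  if l = j then 0 else (1/4) ^ l * ((1/2) ^ j - (1/2) ^ l)⁻¹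

theorem coef_lower {j l : ℕ} (h : l ≠ j) : (1/2 : ℝ) ^ (l + 1) ≤ |(1/2 : ℝ) ^ j - (1/2) ^ l| := by
  rcases lt_or_gt_of_ne h with h1 | h1
  · have h2 : (1/2 : ℝ) ^ j ≤ (1/2) ^ (l + 1) :=
      pow_le_pow_of_le_one (by norm_num) (by norm_num) h1
    have h3 : (1/2 : ℝ) ^ (l + 1) = (1/2) ^ l / 2 := by rw [pow_succ]; ring
    rw [abs_sub_comm]
    refine le_trans ?_ (le_abs_self _)
    linarith
  · have h2 : (1/2 : ℝ) ^ l ≤ (1/2) ^ (j + 1) :=
      pow_le_pow_of_le_one (by norm_num) (by norm_num) h1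
    have h3 : (1/2 : ℝ) ^ (j + 1) = (1/2) ^ j / 2 := by rw [pow_succ]; ring
    have h4 : (1/2 : ℝ) ^ (l + 1) = (1/2) ^ l / 2 := by rw [pow_succ]; ring
    have h5 : (0 : ℝ) < (1/2) ^ l := by positivity
    refine le_trans ?_ (le_abs_self _)
    linarith

theorem coef_diff {j l : ℕ} (h : l ≠ j) : ((1/2 : ℂ) ^ j - (1/2) ^ l) ≠ 0 := by
  intro h0
  have h1 := coef_lower h
  have h2 : ((1/2 : ℝ) ^ j - (1/2) ^ l) = 0 := by
    have h3 : (((1/2 : ℝ) ^ j - (1/2) ^ l : ℝ) : ℂ) = 0 := by push_cast; exact h0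
    exact_mod_cast h3
  rw [h2, abs_zero] at h1
  have : (0 : ℝ) < (1/2) ^ (l + 1) := by positivity
  linarith

theorem norm_coef_le (j l : ℕ) : ‖coef j l‖ ≤ 2 * (1/2 : ℝ) ^ l := by
  unfold coef
  split_ifs with h
  · simp
  · rw [norm_mul, norm_inv, norm_pow]
    have h1 : ‖(1/4 : ℂ)‖ = 1/4 := by norm_num
    have h2 : ‖((1/2 : ℂ) ^ j - (1/2) ^ l)‖ = |(1/2 : ℝ) ^ j - (1/2) ^ l| := by
      have : ((1/2 : ℂ) ^ j - (1/2) ^ l) = (((1/2 : ℝ) ^ j - (1/2) ^ l : ℝ) : ℂ) := by push_cast; rfl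
      rw [this, Complex.norm_real, Real.norm_eq_abs]
    rw [h1, h2]
    have h3 := coef_lower h
    have h4 : (0 : ℝ) < (1/2) ^ (l + 1) := by positivity
    calc (1/4 : ℝ) ^ l * |(1/2 : ℝ) ^ j - (1/2) ^ l|⁻¹ ≤ (1/4 : ℝ) ^ l * ((1/2) ^ (l + 1))⁻¹ := by
          gcongr
      _ = 2 * (1/2 : ℝ) ^ l := by
          have : (1/4 : ℝ) ^ l = (1/2) ^ l * (1/2) ^ l := by rw [← mul_pow]; norm_num
          rw [this, pow_succ]
          have h5 : ((1/2 : ℝ) ^ l) ≠ 0 := by positivity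
          field_simp

/-- The encoding theorem. -/
theorem encode [CompleteSpace M] [CompleteSpace F] (hS : IsClosed (S : Set M)) (hA : B.Appr S)
    (s : Slots S) {n : ℕ} {C : ℝ} (hC : 0 ≤ C) (hFT : B.FT S n C (1/16)) (f : F) :
    ∃ (m : ℕ) (c : Fin m → M) (φ : Fin m → F), (∀ k, c k ∈ S) ∧ f = ∑ k, B.D (c k) (φ k) := by
  choose b x φ nxt hb hx hφ hnxt heq using fun (j : ℕ) (e : F) => stage hA s hFT j e
  -- the sequence of remainders
  let E : ℕ → F := fun j => Nat.rec f (fun j e => nxt j e) j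
  have hE0 : E 0 = f := rfl
  have hEs : ∀ j, E (j + 1) = nxt j (E j) := fun j => rfl
  have hEn : ∀ j, ‖E j‖ ≤ (1/8) ^ j * ‖f‖ := by
    intro j
    induction j with
    | zero => simp [hE0]
    | succ j ih =>
      rw [hEs]
      refine (hnxt j (E j)).trans ?_
      rw [pow_succ]
      nlinarith
  -- the encoded elements
  have hsumB : ∀ k, Summable fun j => ((1/2 : ℂ) ^ j) • b j (E j) k := by
    intro k
    refine Summable.of_norm_bounded (g := fun j => (1/2 : ℝ) ^ j) summable_geometric_two ?_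
    intro j
    rw [norm_smul, norm_pow]
    have : ‖(1/2 : ℂ)‖ = 1/2 := by norm_num
    rw [this]
    exact mul_le_of_le_one_right (by positivity) (hb j (E j) k).2.1
  have hsumX : Summable fun j => ((1/4 : ℂ) ^ j) • x j (E j) := by
    refine Summable.of_norm_bounded (g := fun j => (1/4 : ℝ) ^ j)
      (summable_geometric_of_lt_one (by norm_num) (by norm_num)) ?_
    intro j
    rw [norm_smul, norm_pow]
    have : ‖(1/4 : ℂ)‖ = 1/4 := by norm_num
    rw [this]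
    exact mul_le_of_le_one_right (by positivity) (hx j (E j)).2.1
  have hsumG : Summable fun j => ((1/2 : ℂ) ^ j) • s.g j := by
    refine Summable.of_norm_bounded (g := fun j => (1/2 : ℝ) ^ j) summable_geometric_two ?_
    intro j
    rw [norm_smul, norm_pow]
    have : ‖(1/2 : ℂ)‖ = 1/2 := by norm_num
    rw [this]
    exact mul_le_of_le_one_right (by positivity) (s.norm_g j)
  set BB : Fin n → M := fun k => ∑' j, ((1/2 : ℂ) ^ j) • b j (E j) k with hBB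
  set XX : M := ∑' j, ((1/4 : ℂ) ^ j) • x j (E j) with hXX
  set GG : M := ∑' j, ((1/2 : ℂ) ^ j) • s.g j with hGG
  have hBBS : ∀ k, BB k ∈ S := fun k =>
    hS.mem_of_tendsto (hsumB k).hasSum (Eventually.of_forall fun t =>
      S.toSubmodule.sum_mem fun j _ => S.smul_mem (hb j (E j) k).1 _)
  have hXXS : XX ∈ S :=
    hS.mem_of_tendsto hsumX.hasSum (Eventually.of_forall fun t =>
      S.toSubmodule.sum_mem fun j _ => S.smul_mem (hx j (E j)).1 _)
  have hGGS : GG ∈ S :=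
    hS.mem_of_tendsto hsumG.hasSum (Eventually.of_forall fun t =>
      S.toSubmodule.sum_mem fun j _ => S.smul_mem (s.g_mem j) _)
  have hUx : ∀ j l, l ≠ j → s.U j * x l (E l) = 0 := by
    intro j l hl
    rw [← (hx l (E l)).2.2, ← mul_assoc, s.U_mul_g_ne hl.symm, zero_mul]
  have hgx : ∀ m l, l ≠ m → s.g m * x l (E l) = 0 := by
    intro m l hl
    rw [← (hx l (E l)).2.2, ← mul_assoc, s.ort m l hl.symm, zero_mul]
  have hUBB : ∀ j k, s.U j * BB k = ((1/2 : ℂ) ^ j) • (s.U j * b j (E j) k) := by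
    intro j k
    rw [hBB]
    show s.U j * (∑' l, ((1/2 : ℂ) ^ l) • b l (E l) k) = _
    rw [← (hsumB k).tsum_mul_left, tsum_eq_single j]
    · rw [mul_smul_comm]
    · intro l hl
      rw [mul_smul_comm, ((hb l (E l) k).2.2 j hl.symm).1, smul_zero]
  have hBBV : ∀ j k, BB k * s.V j = ((1/2 : ℂ) ^ j) • (b j (E j) k * s.V j) := by
    intro j k
    rw [hBB]
    show (∑' l, ((1/2 : ℂ) ^ l) • b l (E l) k) * s.V j = _
    rw [← (hsumB k).tsum_mul_right, tsum_eq_single j]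
    · rw [smul_mul_assoc]
    · intro l hl
      rw [smul_mul_assoc, ((hb l (E l) k).2.2 j hl.symm).2, smul_zero]
  have hUXX : ∀ j, s.U j * XX = ((1/4 : ℂ) ^ j) • (s.U j * x j (E j)) := by
    intro j
    rw [hXX, ← hsumX.tsum_mul_left, tsum_eq_single j]
    · rw [mul_smul_comm]
    · intro l hl
      rw [mul_smul_comm, hUx j l hl, smul_zero]
  have hUGG : ∀ j, s.U j * GG = ((1/2 : ℂ) ^ j) • s.U j := by
    intro j
    rw [hGG, ← hsumG.tsum_mul_left, tsum_eq_single j]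
    · rw [mul_smul_comm, s.U_mul_g]
    · intro l hl
      rw [mul_smul_comm, s.U_mul_g_ne hl.symm, smul_zero]
  have hGGx : ∀ l, GG * x l (E l) = ((1/2 : ℂ) ^ l) • x l (E l) := by
    intro l
    rw [hGG, ← hsumG.tsum_mul_right, tsum_eq_single l]
    · rw [smul_mul_assoc, (hx l (E l)).2.2]
    · intro m hm
      rw [smul_mul_assoc, hgx m l hm.symm, smul_zero]
  -- the cross term elements
  have hsumW : ∀ j, Summable fun l => coef j l • x l (E l) := by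
    intro j
    refine Summable.of_norm_bounded (g := fun l => 2 * (1/2 : ℝ) ^ l)
      (summable_geometric_two.mul_left 2) ?_
    intro l
    rw [norm_smul]
    calc ‖coef j l‖ * ‖x l (E l)‖ ≤ (2 * (1/2 : ℝ) ^ l) * 1 :=
          mul_le_mul (norm_coef_le j l) (hx l (E l)).2.1 (norm_nonneg _) (by positivity)
      _ = 2 * (1/2 : ℝ) ^ l := mul_one _
  set W : ℕ → M := fun j => ∑' l, coef j l • x l (E l) with hW
  have hWn : ∀ j, ‖W j‖ ≤ 4 := by
    intro j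
    have h1 : HasSum (fun l : ℕ => 2 * (1/2 : ℝ) ^ l) (2 * 2) :=
      hasSum_geometric_two.mul_left 2
    refine (tsum_of_norm_bounded h1 ?_).trans (by norm_num)
    intro l
    rw [norm_smul]
    calc ‖coef j l‖ * ‖x l (E l)‖ ≤ (2 * (1/2 : ℝ) ^ l) * 1 :=
          mul_le_mul (norm_coef_le j l) (hx l (E l)).2.1 (norm_nonneg _) (by positivity)
      _ = 2 * (1/2 : ℝ) ^ l := mul_one _
  have hGW : ∀ j, ((1/2 : ℂ) ^ j) • W j - GG * W j = XX - ((1/4 : ℂ) ^ j) • x j (E j) := by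
    intro j
    have h1 : HasSum (fun l => ((1/2 : ℂ) ^ j) • (coef j l • x l (E l)) -
        GG * (coef j l • x l (E l))) (((1/2 : ℂ) ^ j) • W j - GG * W j) :=
      ((hsumW j).hasSum.const_smul _).sub ((hsumW j).hasSum.mul_left GG)
    have h2 : HasSum (fun l => ((1/4 : ℂ) ^ l) • x l (E l) -
        (if l = j then ((1/4 : ℂ) ^ j) • x j (E j) else 0)) (XX - ((1/4 : ℂ) ^ j) • x j (E j)) :=
      hsumX.hasSum.sub (hasSum_ite_eq j _)
    refine h1.unique ?_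
    convert h2 using 1
    funext l
    by_cases hl : l = j
    · subst hl
      simp [coef]
    · rw [if_neg hl, sub_zero, mul_smul_comm, hGGx, smul_smul, smul_smul, ← sub_smul]
      congr 1
      unfold coef
      rw [if_neg hl]
      have := coef_diff hl
      field_simp
  -- the identity at each stage
  set f₁ : ℕ → F := fun j => B.L (s.U j) (E j) with hf₁
  set Φ : ℕ → Fin n → F := fun j k => B.R (s.V j) (B.L (s.U j) (φ j (E j) k)) with hΦ
  have hDBB : ∀ j k, B.D (BB k) (Φ j k) = ((1/2 : ℂ) ^ j) • B.D (b j (E j) k) (Φ j k) := by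
    intro j k
    rw [B.D_apply, B.D_apply, smul_sub]
    congr 1
    · show B.L (BB k) (B.R (s.V j) (B.L (s.U j) (φ j (E j) k))) =
        ((1/2 : ℂ) ^ j) • B.L (b j (E j) k) (B.R (s.V j) (B.L (s.U j) (φ j (E j) k)))
      rw [B.LR, B.LR, ← B.L_mul, ← B.L_mul, hUBB, map_smul, smul_apply, map_smul]
    · show B.R (BB k) (B.R (s.V j) (B.L (s.U j) (φ j (E j) k))) =
        ((1/2 : ℂ) ^ j) • B.R (b j (E j) k) (B.R (s.V j) (B.L (s.U j) (φ j (E j) k)))
      rw [← B.R_mul, ← B.R_mul, hBBV, map_smul, smul_apply]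
  have hDXX : ∀ j, B.D XX (f₁ j) + B.D GG (B.R (W j) (f₁ j)) =
      ((1/4 : ℂ) ^ j) • B.D (x j (E j)) (f₁ j) := by
    intro j
    have h1 : B.L XX (f₁ j) = ((1/4 : ℂ) ^ j) • B.L (x j (E j)) (f₁ j) := by
      show B.L XX (B.L (s.U j) (E j)) = ((1/4 : ℂ) ^ j) • B.L (x j (E j)) (B.L (s.U j) (E j))
      rw [← B.L_mul, ← B.L_mul, hUXX, map_smul, smul_apply]
    have h2 : B.L GG (B.R (W j) (f₁ j)) = ((1/2 : ℂ) ^ j) • B.R (W j) (f₁ j) := by
      rw [B.LR]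
      show B.R (W j) (B.L GG (B.L (s.U j) (E j))) =
        ((1/2 : ℂ) ^ j) • B.R (W j) (B.L (s.U j) (E j))
      rw [← B.L_mul, hUGG, map_smul, smul_apply, map_smul]
    have h3 : ((1/2 : ℂ) ^ j) • B.R (W j) (f₁ j) - B.R (GG * W j) (f₁ j) =
        B.R XX (f₁ j) - ((1/4 : ℂ) ^ j) • B.R (x j (E j)) (f₁ j) := by
      rw [← smul_apply, ← map_smul, ← sub_apply, ← map_sub, hGW, map_sub, map_smul, sub_apply,
        smul_apply]
    rw [B.D_apply, B.D_apply, B.D_apply, h1, h2, ← B.R_mul, h3, smul_sub]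
    abel
  have hstage : ∀ j, E j - E (j + 1) = ∑ k, B.D (BB k) (((2 : ℂ) ^ j) • Φ j k) +
      B.D XX (((4 : ℂ) ^ j) • f₁ j) + B.D GG (((4 : ℂ) ^ j) • B.R (W j) (f₁ j)) := by
    intro j
    have h1 : E j - E (j + 1) = ∑ k, B.D (b j (E j) k) (Φ j k) + B.D (x j (E j)) (f₁ j) := by
      rw [hEs]
      nth_rewrite 1 [heq j (E j)]
      abel
    have h2 : ∀ k, B.D (BB k) (((2 : ℂ) ^ j) • Φ j k) = B.D (b j (E j) k) (Φ j k) := by
      intro k
      rw [map_smul, hDBB, smul_smul, ← mul_pow]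
      norm_num
    have h3 : B.D XX (((4 : ℂ) ^ j) • f₁ j) + B.D GG (((4 : ℂ) ^ j) • B.R (W j) (f₁ j)) =
        B.D (x j (E j)) (f₁ j) := by
      rw [map_smul, map_smul, ← smul_add, hDXX, smul_smul, ← mul_pow]
      norm_num
    rw [h1, add_assoc, h3]
    simp_rw [h2]
  -- summation
  have hf₁n : ∀ j, ‖f₁ j‖ ≤ (1/8) ^ j * ‖f‖ := fun j =>
    ((B.norm_L _ _).trans (mul_le_of_le_one_left (norm_nonneg _) (s.norm_U j))).trans (hEn j)
  have hΦn : ∀ j k, ‖Φ j k‖ ≤ C * ((1/8) ^ j * ‖f‖) := by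
    intro j k
    refine (B.norm_R _ _).trans ?_
    refine (mul_le_of_le_one_left (norm_nonneg _) (s.norm_V j)).trans ?_
    refine (B.norm_L _ _).trans ?_
    refine (mul_le_of_le_one_left (norm_nonneg _) (s.norm_U j)).trans ?_
    exact (hφ j (E j) k).trans (mul_le_mul_of_nonneg_left (hEn j) hC)
  have e2 : ∀ j : ℕ, ‖((2 : ℂ) ^ j)‖ = 2 ^ j := fun j => by rw [norm_pow]; norm_num
  have e4 : ∀ j : ℕ, ‖((4 : ℂ) ^ j)‖ = 4 ^ j := fun j => by rw [norm_pow]; norm_num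
  have q4 : ∀ j : ℕ, (2 : ℝ) ^ j * (1/8) ^ j = (1/4) ^ j := fun j => by
    rw [← mul_pow]; norm_num
  have q2 : ∀ j : ℕ, (4 : ℝ) ^ j * (1/8) ^ j = (1/2) ^ j := fun j => by
    rw [← mul_pow]; norm_num
  have s1 : ∀ k, Summable fun j => ((2 : ℂ) ^ j) • Φ j k := by
    intro k
    refine Summable.of_norm_bounded (g := fun j => (1/4 : ℝ) ^ j * (C * ‖f‖))
      ((summable_geometric_of_lt_one (by norm_num) (by norm_num)).mul_right _) ?_
    intro j
    rw [norm_smul, e2]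
    calc (2 : ℝ) ^ j * ‖Φ j k‖ ≤ 2 ^ j * (C * ((1/8) ^ j * ‖f‖)) :=
          mul_le_mul_of_nonneg_left (hΦn j k) (by positivity)
      _ = (1/4 : ℝ) ^ j * (C * ‖f‖) := by rw [← q4]; ring
  have s2 : Summable fun j => ((4 : ℂ) ^ j) • f₁ j := by
    refine Summable.of_norm_bounded (g := fun j => (1/2 : ℝ) ^ j * ‖f‖)
      (summable_geometric_two.mul_right _) ?_
    intro j
    rw [norm_smul, e4]
    calc (4 : ℝ) ^ j * ‖f₁ j‖ ≤ 4 ^ j * ((1/8) ^ j * ‖f‖) :=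
          mul_le_mul_of_nonneg_left (hf₁n j) (by positivity)
      _ = (1/2 : ℝ) ^ j * ‖f‖ := by rw [← q2]; ring
  have s3 : Summable fun j => ((4 : ℂ) ^ j) • B.R (W j) (f₁ j) := by
    refine Summable.of_norm_bounded (g := fun j => (1/2 : ℝ) ^ j * (4 * ‖f‖))
      (summable_geometric_two.mul_right _) ?_
    intro j
    rw [norm_smul, e4]
    have h1 : ‖B.R (W j) (f₁ j)‖ ≤ 4 * ((1/8) ^ j * ‖f‖) :=
      (B.norm_R _ _).trans (mul_le_mul (hWn j) (hf₁n j) (norm_nonneg _) (by norm_num))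
    calc (4 : ℝ) ^ j * ‖B.R (W j) (f₁ j)‖ ≤ 4 ^ j * (4 * ((1/8) ^ j * ‖f‖)) :=
          mul_le_mul_of_nonneg_left h1 (by positivity)
      _ = (1/2 : ℝ) ^ j * (4 * ‖f‖) := by rw [← q2]; ring
  have hs : HasSum (fun j => E j - E (j + 1)) (∑ k, B.D (BB k) (∑' j, ((2 : ℂ) ^ j) • Φ j k) +
      B.D XX (∑' j, ((4 : ℂ) ^ j) • f₁ j) +
      B.D GG (∑' j, ((4 : ℂ) ^ j) • B.R (W j) (f₁ j))) := by
    simp_rw [hstage]
    refine HasSum.add (HasSum.add (hasSum_sum fun k _ => ?_) ?_) ?_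
    · exact (B.D (BB k)).hasSum (s1 k).hasSum
    · exact (B.D XX).hasSum s2.hasSum
    · exact (B.D GG).hasSum s3.hasSum
  have hE0' : Tendsto E atTop (𝓝 0) := by
    refine squeeze_zero_norm hEn ?_
    have := (tendsto_pow_atTop_nhds_zero_of_lt_one (r := (1/8 : ℝ)) (by norm_num)
      (by norm_num)).mul_const ‖f‖
    simpa using this
  have hs' : Tendsto (fun J => ∑ j ∈ Finset.range J, (E j - E (j + 1))) atTop (𝓝 f) := by
    simp_rw [Finset.sum_range_sub']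
    have := (tendsto_const_nhds (x := E 0)).sub hE0'
    rw [sub_zero] at this
    exact this
  have hfin := tendsto_nhds_unique hs' hs.tendsto_sum_nat
  refine ⟨n + 1 + 1, Fin.snoc (Fin.snoc BB XX) GG,
    Fin.snoc (Fin.snoc (fun k => ∑' j, ((2 : ℂ) ^ j) • Φ j k) (∑' j, ((4 : ℂ) ^ j) • f₁ j))
      (∑' j, ((4 : ℂ) ^ j) • B.R (W j) (f₁ j)), ?_, ?_⟩
  · intro k
    refine Fin.lastCases ?_ (fun k => ?_) k
    · simpa using hGGS
    · rw [Fin.snoc_castSucc]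
      refine Fin.lastCases ?_ (fun k => ?_) k
      · simpa using hXXS
      · rw [Fin.snoc_castSucc]; exact hBBS k
  · rw [Fin.sum_univ_castSucc, Fin.sum_univ_castSucc]
    simp only [Fin.snoc_castSucc, Fin.snoc_last]
    exact hfin

end BM

end Pool.Agent.MP_86f3ed.Pin
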