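import Pool.Agent.H.MP_86f3ed_an.Pin.Space
import Pool.Agent.H.MP_86f3ed_an.Pin.Enc

open scoped InnerProductSpace Topology
open Filter

namespace Pool.Agent.MP_86f3ed.Pin

variable {H : Type*} [NormedAddCommGroup H] [InnerProductSpace ℂ H] [CompleteSpace H]
variable (N : StarSubalgebra ℂ (H →L[ℂ] H))

/-- The left action on the predual. -/
noncomputable def L0 (x : Com N) (f : F N) : F N :=
  (⟨(inF N f).comp (lX N x), comp_mem N _ (fun T ξ η => by
    rw [ev_comp_lX]; exact ev_mem N _ _ _) _ (inF_mem N f)⟩ : FSub N)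

/-- The right action on the predual. -/
noncomputable def R0 (x : Com N) (f : F N) : F N :=
  (⟨(inF N f).comp (rX N x), comp_mem N _ (fun T ξ η => by
    rw [ev_comp_rX]; exact ev_mem N _ _ _) _ (inF_mem N f)⟩ : FSub N)

theorem inF_L0 (x : Com N) (f : F N) : inF N (L0 N x f) = (inF N f).comp (lX N x) := rfl
theorem inF_R0 (x : Com N) (f : F N) : inF N (R0 N x f) = (inF N f).comp (rX N x) := rfl

theorem F_ext {f g : F N} (h : ∀ Ψ, inF N f Ψ = inF N g Ψ) : f = g :=
  (inF N).injective (ContinuousLinearMap.ext h)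

theorem norm_F (f : F N) : ‖f‖ = ‖inF N f‖ := rfl

theorem norm_L0 (x : Com N) (f : F N) : ‖L0 N x f‖ ≤ ‖x‖ * ‖f‖ := by
  rw [norm_F, inF_L0, mul_comm]
  exact (ContinuousLinearMap.opNorm_comp_le _ _).trans
    (mul_le_mul_of_nonneg_left (norm_lX_le N x) (norm_nonneg _))

theorem norm_R0 (x : Com N) (f : F N) : ‖R0 N x f‖ ≤ ‖x‖ * ‖f‖ := by
  rw [norm_F, inF_R0, mul_comm]
  exact (ContinuousLinearMap.opNorm_comp_le _ _).trans
    (mul_le_mul_of_nonneg_left (norm_rX_le N x) (norm_nonneg _))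

/-- The bimodule structure of the predual over the commutant of `N`. -/
noncomputable def bm : BM (Com N) (F N) where
  L := LinearMap.mkContinuous₂ (LinearMap.mk₂ ℂ (L0 N)
    (by intro x y f; apply F_ext; intro Ψ
        simp only [map_add, inF_L0, add_apply, ContinuousLinearMap.comp_apply])
    (by intro c x f; apply F_ext; intro Ψ
        simp only [map_smul, inF_L0, smul_apply, ContinuousLinearMap.comp_apply])
    (by intro x f f'; apply F_ext; intro Ψ
        simp only [map_add, inF_L0, add_apply, ContinuousLinearMap.comp_apply])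
    (by intro c x f; apply F_ext; intro Ψ
        simp only [map_smul, inF_L0, smul_apply, ContinuousLinearMap.comp_apply])) 1
    (by intro x f; rw [one_mul]; exact norm_L0 N x f)
  R := LinearMap.mkContinuous₂ (LinearMap.mk₂ ℂ (R0 N)
    (by intro x y f; apply F_ext; intro Ψ
        simp only [map_add, inF_R0, add_apply, ContinuousLinearMap.comp_apply])
    (by intro c x f; apply F_ext; intro Ψ
        simp only [map_smul, inF_R0, smul_apply, ContinuousLinearMap.comp_apply])
    (by intro x f f'; apply F_ext; intro Ψ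
        simp only [map_add, inF_R0, add_apply, ContinuousLinearMap.comp_apply])
    (by intro c x f; apply F_ext; intro Ψ
        simp only [map_smul, inF_R0, smul_apply, ContinuousLinearMap.comp_apply])) 1
    (by intro x f; rw [one_mul]; exact norm_R0 N x f)
  L_one := by
    intro f
    apply F_ext; intro Ψ
    show inF N f (lX N 1 Ψ) = inF N f Ψ
    have h : lX N 1 Ψ = Ψ := X.ext fun T => one_mul _
    rw [h]
  L_mul := by
    intro x y f
    apply F_ext; intro Ψ
    show inF N f (lX N (x * y) Ψ) = inF N f (lX N x (lX N y Ψ))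
    have h : lX N (x * y) Ψ = lX N x (lX N y Ψ) := X.ext fun T => mul_assoc _ _ _
    rw [h]
  R_mul := by
    intro x y f
    apply F_ext; intro Ψ
    show inF N f (rX N (x * y) Ψ) = inF N f (rX N y (rX N x Ψ))
    have h : rX N (x * y) Ψ = rX N y (rX N x Ψ) := X.ext fun T => (mul_assoc _ _ _).symm
    rw [h]
  LR := by
    intro x y f
    apply F_ext; intro Ψ
    show inF N f (rX N y (lX N x Ψ)) = inF N f (lX N x (rX N y Ψ))
    have h : rX N y (lX N x Ψ) = lX N x (rX N y Ψ) := X.ext fun T => mul_assoc _ _ _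
    rw [h]
  norm_L := norm_L0 N
  norm_R := norm_R0 N

theorem bm_L_evF (x : Com N) (T : H →L[ℂ] H) (ξ η : H) :
    (bm N).L x (evF N T ξ η) = evF N T ξ (star (x : H →L[ℂ] H) η) := by
  apply (inF N).injective
  exact ev_comp_lX N x T ξ η

theorem bm_R_evF (x : Com N) (T : H →L[ℂ] H) (ξ η : H) :
    (bm N).R x (evF N T ξ η) = evF N T ((x : H →L[ℂ] H) ξ) η := by
  apply (inF N).injective
  exact ev_comp_rX N x T ξ η

theorem inF_D (x : Com N) (f : F N) (Ψ : X N) :
    inF N ((bm N).D x f) Ψ = inF N f (lX N x Ψ - rX N x Ψ) := by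
  rw [BM.D_apply, map_sub, map_sub]
  rfl

theorem commutator_ap (x : Com N) (Ψ : X N) (T : H →L[ℂ] H) :
    (lX N x Ψ - rX N x Ψ).ap T = (x : H →L[ℂ] H) * Ψ.ap T - Ψ.ap T * (x : H →L[ℂ] H) := by
  rw [X.sub_ap, lX_ap, rX_ap]

/-- Induction principle: the finite sums of `evF` are dense in the predual. -/
theorem F_dense (f : F N) {δ : ℝ} (hδ : 0 < δ) :
    ∃ (m : ℕ) (T : Fin m → H →L[ℂ] H) (ξ η : Fin m → H),
      ‖f - ∑ k, evF N (T k) (ξ k) (η k)‖ ≤ δ := by
  have h1 : inF N f ∈ closure ((Submodule.span ℂ {f | ∃ T ξ η, f = ev N T ξ η} :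
    Submodule ℂ (StrongDual ℂ (X N))) : Set (StrongDual ℂ (X N))) := by
    have := inF_mem N f
    rw [FSub, ← SetLike.mem_coe, Submodule.topologicalClosure_coe] at this
    exact this
  obtain ⟨g, hg, hgf⟩ := Metric.mem_closure_iff.mp h1 δ hδ
  obtain ⟨m, c, e, hce⟩ := Submodule.mem_span_set'.mp hg
  choose T ξ η he using fun k => (e k).2
  refine ⟨m, fun k => c k • T k, ξ, η, ?_⟩
  have h2 : inF N (∑ k, evF N (c k • T k) (ξ k) (η k)) = g := by
    rw [map_sum, ← hce]
    refine Finset.sum_congr rfl fun k _ => ?_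
    rw [inF_evF, he k]
    ext Ψ
    rw [ev_apply, smul_apply, ev_apply, X.ap_smul, smul_apply, inner_smul_right]
    rfl
  rw [norm_F, map_sub, h2, ← dist_eq_norm]
  exact hgf.le

end Pool.Agent.MP_86f3ed.Pin
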