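import Mathlib

open scoped Topology

namespace Pool.Agent.MP_86f3ed.Pin

/-- the trapezoid bump -/
noncomputable def Bump_b (i r t s : ℝ) : ℝ := max 0 (min 1 (i + 1 - |s - t| / r))

theorem Bump_cont (i r t : ℝ) : Continuous (Bump_b i r t) := by
  unfold Bump_b
  fun_prop

theorem Bump_nonneg (i r t s : ℝ) : 0 ≤ Bump_b i r t s := le_max_left _ _

theorem Bump_le_one (i r t s : ℝ) : Bump_b i r t s ≤ 1 :=
  max_le zero_le_one (min_le_left _ _)

theorem Bump_mul (i r t s : ℝ) : Bump_b (i + 1) r t s * Bump_b i r t s = Bump_b i r t s := by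
  by_cases h : |s - t| / r < i + 1
  · have h1 : Bump_b (i + 1) r t s = 1 := by
      unfold Bump_b
      rw [min_eq_left (by linarith)]
      exact max_eq_right zero_le_one
    rw [h1, one_mul]
  · have h1 : Bump_b i r t s = 0 := by
      unfold Bump_b
      rw [not_lt] at h
      exact max_eq_left ((min_le_right _ _).trans (by linarith))
    rw [h1, mul_zero]

theorem Bump_far {i r t s : ℝ} (h : i + 1 ≤ |s - t| / r) : Bump_b i r t s = 0 := by
  unfold Bump_b
  exact max_eq_left ((min_le_right _ _).trans (by linarith))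

theorem Bump_seq {K : Set ℝ} (hK : IsCompact K) (hinf : K.Infinite) :
    ∃ (c : ℝ) (t : ℕ → ℝ), (∀ j, t j ∈ K) ∧ (∀ j, t j ≠ c) ∧
      ∀ j, |t (j + 1) - c| < |t j - c| / 10 := by
  obtain ⟨c, -, hacc⟩ := hinf.exists_accPt_of_subset_isCompact hK (Set.Subset.refl K)
  rw [accPt_iff_nhds] at hacc
  have h1 : ∀ y : {y : ℝ // y ∈ K ∧ y ≠ c}, ∃ z : {y : ℝ // y ∈ K ∧ y ≠ c},
      |(z : ℝ) - c| < |(y : ℝ) - c| / 10 := by
    intro y
    have hpos : 0 < |(y : ℝ) - c| / 10 := by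
      have := abs_pos.2 (sub_ne_zero.2 y.2.2)
      linarith
    obtain ⟨z, ⟨hz, hzK⟩, hzc⟩ := hacc (Metric.ball c (|(y : ℝ) - c| / 10))
      (Metric.ball_mem_nhds c hpos)
    refine ⟨⟨z, hzK, hzc⟩, ?_⟩
    rwa [Metric.mem_ball, Real.dist_eq] at hz
  choose g hg using h1
  obtain ⟨y0, ⟨-, hy0K⟩, hy0c⟩ := hacc Set.univ Filter.univ_mem
  refine ⟨c, fun j => (g^[j] ⟨y0, hy0K, hy0c⟩ : {y : ℝ // y ∈ K ∧ y ≠ c}), ?_, ?_, ?_⟩
  · intro j
    exact (g^[j] ⟨y0, hy0K, hy0c⟩).2.1
  · intro j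
    exact (g^[j] ⟨y0, hy0K, hy0c⟩).2.2
  · intro j
    have h := hg (g^[j] ⟨y0, hy0K, hy0c⟩)
    simp only [Function.iterate_succ_apply']
    exact h

/-- Bump functions at the points of a strictly monotone or antitone sequence of an infinite
compact set. -/
theorem exists_bumps {K : Set ℝ} (hK : IsCompact K) (hinf : K.Infinite) :
    ∃ (t : ℕ → ℝ) (f f' f'' : ℕ → ℝ → ℝ), (∀ j, t j ∈ K) ∧
      (∀ j, Continuous (f j) ∧ Continuous (f' j) ∧ Continuous (f'' j)) ∧
      (∀ j s, 0 ≤ f j s ∧ f j s ≤ 1 ∧ 0 ≤ f' j s ∧ f' j s ≤ 1) ∧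
      (∀ j s, f j s * f' j s = f' j s ∧ f' j s * f'' j s = f'' j s) ∧
      (∀ j, f'' j (t j) = 1) ∧ ∀ j l, j ≠ l → ∀ s, f j s * f l s = 0 := by
  obtain ⟨c, t, htK, htc, ht⟩ := Bump_seq hK hinf
  have hD : ∀ j, 0 < |t j - c| := fun j => abs_pos.2 (sub_ne_zero.2 (htc j))
  have hanti : ∀ j l, j < l → |t l - c| < |t j - c| / 10 := by
    intro j l hjl
    induction l with
    | zero => omega
    | succ l ih =>
      rcases Nat.lt_succ_iff_lt_or_eq.1 hjl with h | h
      · have h1 := ih h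
        have h2 := ht l
        have h3 := hD l
        linarith
      · rw [← h]
        exact ht j
  have hsep : ∀ j l, j < l → ∀ s, Bump_b 2 (|t j - c| / 10) (t j) s
      * Bump_b 2 (|t l - c| / 10) (t l) s = 0 := by
    intro j l hjl s
    by_cases h1 : 2 + 1 ≤ |s - t j| / (|t j - c| / 10)
    · rw [Bump_far h1, zero_mul]
    by_cases h2 : 2 + 1 ≤ |s - t l| / (|t l - c| / 10)
    · rw [Bump_far h2, mul_zero]
    exfalso
    have hDj := hD j
    have hDl := hD l
    rw [not_le, div_lt_iff₀ (by linarith)] at h1 h2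
    have h3 := hanti j l hjl
    have h4 : |t j - c| ≤ |s - t j| + |s - t l| + |t l - c| := by
      have h5 : t j - c = -(s - t j) + (s - t l) + (t l - c) := by ring
      calc |t j - c| = |-(s - t j) + (s - t l) + (t l - c)| := by rw [← h5]
        _ ≤ |-(s - t j) + (s - t l)| + |t l - c| := abs_add_le _ _
        _ ≤ |-(s - t j)| + |s - t l| + |t l - c| := by
            have := abs_add_le (-(s - t j)) (s - t l)
            linarith
        _ = |s - t j| + |s - t l| + |t l - c| := by rw [abs_neg]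
    linarith
  refine ⟨t, fun j => Bump_b 2 (|t j - c| / 10) (t j), fun j => Bump_b 1 (|t j - c| / 10) (t j),
    fun j => Bump_b 0 (|t j - c| / 10) (t j), htK, ?_, ?_, ?_, ?_, ?_⟩
  · intro j
    exact ⟨Bump_cont _ _ _, Bump_cont _ _ _, Bump_cont _ _ _⟩
  · intro j s
    exact ⟨Bump_nonneg _ _ _ _, Bump_le_one _ _ _ _, Bump_nonneg _ _ _ _, Bump_le_one _ _ _ _⟩
  · intro j s
    have h1 := Bump_mul 1 (|t j - c| / 10) (t j) s
    have h2 := Bump_mul 0 (|t j - c| / 10) (t j) s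
    norm_num at h1 h2
    exact ⟨by linarith, by linarith⟩
  · intro j
    simp [Bump_b]
  · intro j l hjl s
    rcases lt_or_gt_of_ne hjl with h | h
    · exact hsep j l h s
    · have h1 := hsep l j h s
      rw [mul_comm] at h1
      exact h1

end Pool.Agent.MP_86f3ed.Pin
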