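import Pool.Agent.H.MP_86f3ed_an.Pin.Dual
import Pool.Agent.H.MP_86f3ed_an.Pin.PI

open scoped InnerProductSpace Topology
open Filter ContinuousLinearMap

namespace Pool.Agent.MP_86f3ed.Pin

variable {H : Type*} [NormedAddCommGroup H] [InnerProductSpace ℂ H] [CompleteSpace H]
variable {N : StarSubalgebra ℂ (H →L[ℂ] H)}

theorem isom_norm {v : H →L[ℂ] H} (hv : star v * v = 1) (x : H) : ‖v x‖ = ‖x‖ := by
  have h1 : ⟪v x, v x⟫_ℂ = ⟪x, x⟫_ℂ := by
    rw [← adjoint_inner_right, ← star_eq_adjoint]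
    have : (star v * v) x = x := by rw [hv]; rfl
    exact congrArg (fun z => ⟪x, z⟫_ℂ) this
  rw [inner_self_eq_norm_sq_to_K, inner_self_eq_norm_sq_to_K] at h1
  have h2 : ‖v x‖ ^ 2 = ‖x‖ ^ 2 := by exact_mod_cast h1
  exact (sq_eq_sq₀ (norm_nonneg _) (norm_nonneg _)).mp h2

theorem star_isom_apply {v : H →L[ℂ] H} (hv : star v * v = 1) (x : H) : star v (v x) = x := by
  have : (star v * v) x = x := by rw [hv]; rfl
  exact this

theorem orth_apply {v w : H →L[ℂ] H} (h : star v * w = 0) (x : H) : star v (w x) = 0 := by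
  have : (star v * w) x = 0 := by rw [h]; rfl
  exact this

theorem orth_symm {v w : H →L[ℂ] H} (h : star v * w = 0) : star w * v = 0 := by
  have := congrArg star h
  rwa [star_mul, star_star, star_zero] at this

theorem inner_isom_orth {v w : H →L[ℂ] H} (h : star v * w = 0) (x y : H) :
    ⟪v x, w y⟫_ℂ = 0 := by
  rw [← adjoint_inner_right, ← star_eq_adjoint, orth_apply h, inner_zero_right]

theorem norm_sq_orth {v w : H →L[ℂ] H} (hv : star v * v = 1) (hw : star w * w = 1)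
    (h : star v * w = 0) (x y : H) : ‖v x + w y‖ ^ 2 = ‖x‖ ^ 2 + ‖y‖ ^ 2 := by
  have h1 := norm_add_sq_eq_norm_sq_add_norm_sq_of_inner_eq_zero (𝕜 := ℂ) (v x) (w y)
    (inner_isom_orth h x y)
  rw [isom_norm hv, isom_norm hw] at h1
  nlinarith [h1]

theorem bessel {v w : H →L[ℂ] H} (hv : star v * v = 1) (hw : star w * w = 1)
    (h : star v * w = 0) (x : H) : ‖star v x‖ ^ 2 + ‖star w x‖ ^ 2 ≤ ‖x‖ ^ 2 := by
  set p := v (star v x) + w (star w x) with hp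
  have h1 : ‖p‖ ^ 2 = ‖star v x‖ ^ 2 + ‖star w x‖ ^ 2 := norm_sq_orth hv hw h _ _
  have h2 : ⟪x, p⟫_ℂ = (‖p‖ ^ 2 : ℝ) := by
    have e1 : ⟪x, v (star v x)⟫_ℂ = ⟪star v x, star v x⟫_ℂ := (adjoint_inner_left v _ _).symm
    have e2 : ⟪x, w (star w x)⟫_ℂ = ⟪star w x, star w x⟫_ℂ := (adjoint_inner_left w _ _).symm
    rw [h1, hp, inner_add_right, e1, e2, inner_self_eq_norm_sq_to_K, inner_self_eq_norm_sq_to_K]
    push_cast
    rfl
  have h3 : ‖p‖ ^ 2 ≤ ‖x‖ * ‖p‖ := by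
    have := norm_inner_le_norm (𝕜 := ℂ) x p
    rw [h2] at this
    simpa using this
  rw [← h1]
  rcases (norm_nonneg p).eq_or_lt with h0 | h0
  · rw [← h0, zero_pow two_ne_zero]; positivity
  · have h4 : ‖p‖ ≤ ‖x‖ := by
      have : ‖p‖ * ‖p‖ ≤ ‖x‖ * ‖p‖ := by nlinarith
      exact le_of_mul_le_mul_right this h0
    exact pow_le_pow_left₀ h0.le h4 2

/-- The norm one generators of the predual. -/
def Gen (N : StarSubalgebra ℂ (H →L[ℂ] H)) : Set (F N) :=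
  {e | ∃ T ξ η, ‖T‖ ≤ 1 ∧ ‖ξ‖ ≤ 1 ∧ ‖η‖ ≤ 1 ∧ e = evF N T ξ η}

theorem Gen_smul {c : ℂ} (hc : ‖c‖ ≤ 1) {e : F N} (he : e ∈ Gen N) : c • e ∈ Gen N := by
  obtain ⟨T, ξ, η, hT, hξ, hη, rfl⟩ := he
  refine ⟨c • T, ξ, η, ?_, hξ, hη, (evF_smul_left N c T ξ η).symm⟩
  rw [norm_smul]
  exact mul_le_one₀ hc (norm_nonneg _) hT

theorem evF_zero_mid (T : H →L[ℂ] H) (η : H) : evF N T 0 η = 0 := by
  apply F_ext; intro Ψ
  rw [inF_evF, ev_apply, map_zero, inner_zero_right, map_zero]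
  rfl

theorem Gen_convex {v w : H →L[ℂ] H} (hvN : v ∈ N) (hwN : w ∈ N) (hv : star v * v = 1)
    (hw : star w * w = 1) (h : star v * w = 0) : Convex ℝ (Gen N) := by
  rintro _ ⟨T, ξ, η, hT, hξ, hη, rfl⟩ _ ⟨T', ξ', η', hT', hξ', hη', rfl⟩ a b ha hb hab
  have hsv : star v ∈ N := star_mem hvN
  have hsw : star w ∈ N := star_mem hwN
  set ra : ℂ := ((Real.sqrt a : ℝ) : ℂ) with hra
  set rb : ℂ := ((Real.sqrt b : ℝ) : ℂ) with hrb
  have hra2 : ra * ra = (a : ℂ) := by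
    rw [hra, ← Complex.ofReal_mul, Real.mul_self_sqrt ha]
  have hrb2 : rb * rb = (b : ℂ) := by
    rw [hrb, ← Complex.ofReal_mul, Real.mul_self_sqrt hb]
  have nra : ‖ra‖ ^ 2 = a := by
    rw [hra, Complex.norm_real, Real.norm_eq_abs, sq_abs, Real.sq_sqrt ha]
  have nrb : ‖rb‖ ^ 2 = b := by
    rw [hrb, Complex.norm_real, Real.norm_eq_abs, sq_abs, Real.sq_sqrt hb]
  have hvec : ∀ x y : H, ‖x‖ ≤ 1 → ‖y‖ ≤ 1 → ‖v (ra • x) + w (rb • y)‖ ≤ 1 := by
    intro x y hx hy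
    have h1 := norm_sq_orth hv hw h (ra • x) (rb • y)
    rw [norm_smul, norm_smul, mul_pow, mul_pow, nra, nrb] at h1
    have hx2 : ‖x‖ ^ 2 ≤ 1 := pow_le_one₀ (norm_nonneg _) hx
    have hy2 : ‖y‖ ^ 2 ≤ 1 := pow_le_one₀ (norm_nonneg _) hy
    have h2 : ‖v (ra • x) + w (rb • y)‖ ^ 2 ≤ 1 := by nlinarith
    exact (pow_le_one_iff_of_nonneg (norm_nonneg _) two_ne_zero).mp h2
  refine ⟨v * T * star v + w * T' * star w, v (ra • ξ) + w (rb • ξ'), v (ra • η) + w (rb • η'),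
    ?_, hvec ξ ξ' hξ hξ', hvec η η' hη hη', ?_⟩
  · refine opNorm_le_bound _ zero_le_one fun x => ?_
    rw [one_mul]
    have h1 : (v * T * star v + w * T' * star w) x = v (T (star v x)) + w (T' (star w x)) := rfl
    rw [h1]
    have h2 := norm_sq_orth hv hw h (T (star v x)) (T' (star w x))
    have h3 : ‖T (star v x)‖ ≤ ‖star v x‖ :=
      (T.le_opNorm _).trans (mul_le_of_le_one_left (norm_nonneg _) hT)
    have h4 : ‖T' (star w x)‖ ≤ ‖star w x‖ :=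
      (T'.le_opNorm _).trans (mul_le_of_le_one_left (norm_nonneg _) hT')
    have h5 := bessel hv hw h x
    have h6 : ‖v (T (star v x)) + w (T' (star w x))‖ ^ 2 ≤ ‖x‖ ^ 2 := by
      rw [h2]
      have := pow_le_pow_left₀ (norm_nonneg _) h3 2
      have := pow_le_pow_left₀ (norm_nonneg _) h4 2
      linarith
    exact (pow_le_pow_iff_left₀ (norm_nonneg _) (norm_nonneg _) two_ne_zero).mp h6
  · apply F_ext; intro Ψ
    have hΨ : Ψ.ap (v * T * star v + w * T' * star w) =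
        v * Ψ.ap T * star v + w * Ψ.ap T' * star w := by
      rw [X.ap_add, X.right Ψ hsv, X.left Ψ hvN, X.right Ψ hsw, X.left Ψ hwN]
    have h1 : (v * Ψ.ap T * star v + w * Ψ.ap T' * star w) (v (ra • ξ) + w (rb • ξ')) =
        v (ra • Ψ.ap T ξ) + w (rb • Ψ.ap T' ξ') := by
      show v (Ψ.ap T (star v (v (ra • ξ) + w (rb • ξ')))) +
        w (Ψ.ap T' (star w (v (ra • ξ) + w (rb • ξ')))) = _
      rw [map_add (star v), map_add (star w), star_isom_apply hv, star_isom_apply hw,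
        orth_apply h, orth_apply (orth_symm h), add_zero, zero_add, map_smul (Ψ.ap T),
        map_smul (Ψ.ap T')]
    have h2 : ∀ x y x' y' : H, ⟪v x + w y, v x' + w y'⟫_ℂ = ⟪x, x'⟫_ℂ + ⟪y, y'⟫_ℂ := by
      intro x y x' y'
      rw [inner_add_left, inner_add_right, inner_add_right, inner_isom_orth h,
        inner_isom_orth (orth_symm h), add_zero, zero_add]
      congr 1
      · rw [← adjoint_inner_right, ← star_eq_adjoint, star_isom_apply hv]
      · rw [← adjoint_inner_right, ← star_eq_adjoint, star_isom_apply hw]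
    rw [inF_evF, ev_apply, hΨ, h1, h2, inner_smul_left, inner_smul_right, inner_smul_left,
      inner_smul_right, ← mul_assoc, ← mul_assoc, map_add, add_apply]
    have c1 : (starRingEnd ℂ) ra = ra := by rw [hra, Complex.conj_ofReal]
    have c2 : (starRingEnd ℂ) rb = rb := by rw [hrb, Complex.conj_ofReal]
    rw [c1, c2, hra2, hrb2]
    have e1 : (a • evF N T ξ η : F N) = (a : ℂ) • evF N T ξ η := rfl
    have e2 : (b • evF N T' ξ' η' : F N) = (b : ℂ) • evF N T' ξ' η' := rfl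
    rw [e1, e2, map_smul, map_smul, inF_evF, inF_evF]
    rfl

theorem X.norm_le_of_ev {Ψ : X N} {u : ℝ} (hu : 0 ≤ u)
    (h : ∀ e ∈ Gen N, ‖inF N e Ψ‖ ≤ u) : ‖Ψ‖ ≤ u := by
  have key : ∀ T : H →L[ℂ] H, ‖T‖ ≤ 1 → ‖Ψ.ap T‖ ≤ u := by
    intro T hT
    refine opNorm_le_of_unit_norm hu fun ξ hξ' => ?_
    have hξ : ‖ξ‖ ≤ 1 := hξ'.le
    by_cases h0 : Ψ.ap T ξ = 0
    · rw [h0, norm_zero]; exact hu
    · have h1 : 0 < ‖Ψ.ap T ξ‖ := norm_pos_iff.mpr h0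
      set η : H := ((‖Ψ.ap T ξ‖⁻¹ : ℝ) : ℂ) • Ψ.ap T ξ with hη
      have hη1 : ‖η‖ ≤ 1 := by
        rw [hη, norm_smul, Complex.norm_real, Real.norm_eq_abs, abs_of_pos (inv_pos.mpr h1),
          inv_mul_cancel₀ h1.ne']
      have h2 := h _ ⟨T, ξ, η, hT, hξ, hη1, rfl⟩
      rw [inF_evF, ev_apply, hη, inner_smul_left, Complex.conj_ofReal,
        inner_self_eq_norm_sq_to_K, norm_mul, Complex.norm_real, Real.norm_eq_abs,
        abs_of_pos (inv_pos.mpr h1)] at h2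
      have h3 : ‖((‖Ψ.ap T ξ‖ : ℂ)) ^ 2‖ = ‖Ψ.ap T ξ‖ ^ 2 := by
        rw [norm_pow, Complex.norm_real, norm_norm]
      have h4 : ‖Ψ.ap T ξ‖⁻¹ * ‖Ψ.ap T ξ‖ ^ 2 = ‖Ψ.ap T ξ‖ := by
        rw [pow_two, ← mul_assoc, inv_mul_cancel₀ h1.ne', one_mul]
      calc ‖Ψ.ap T ξ‖ = ‖Ψ.ap T ξ‖⁻¹ * ‖((‖Ψ.ap T ξ‖ : ℂ)) ^ 2‖ := by rw [h3, h4]
        _ ≤ u := h2
  refine X.norm_le hu fun T => ?_
  by_cases hT : T = 0
  · subst hT
    have : Ψ.ap 0 = 0 := map_zero (incl N Ψ)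
    rw [this]; simp
  · have h1 : 0 < ‖T‖ := norm_pos_iff.mpr hT
    have h2 := key (((‖T‖⁻¹ : ℝ) : ℂ) • T) (by
      rw [norm_smul, Complex.norm_real, Real.norm_eq_abs, abs_of_pos (inv_pos.mpr h1),
        inv_mul_cancel₀ h1.ne'])
    rw [X.ap_smul, norm_smul, Complex.norm_real, Real.norm_eq_abs,
      abs_of_pos (inv_pos.mpr h1), inv_mul_le_iff₀ h1] at h2
    rwa [mul_comm] at h2

theorem Gen_zero : (0 : F N) ∈ Gen N :=
  ⟨0, 0, 0, by simp, by simp, by simp, (evF_zero_mid 0 0).symm⟩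

/-- The unit ball of the predual is the closure of the generators. -/
theorem ball_approx {v w : H →L[ℂ] H} (hvN : v ∈ N) (hwN : w ∈ N) (hv : star v * v = 1)
    (hw : star w * w = 1) (h : star v * w = 0) {f : F N} (hf : ‖f‖ ≤ 1) {δ : ℝ} (hδ : 0 < δ) :
    ∃ T ξ η, ‖T‖ ≤ 1 ∧ ‖ξ‖ ≤ 1 ∧ ‖η‖ ≤ 1 ∧ ‖f - evF N T ξ η‖ ≤ δ := by
  have hmem : f ∈ closure (Gen N) := by
    by_contra hf'
    obtain ⟨φ, u, h1, h2⟩ := RCLike.geometric_hahn_banach_closed_point (𝕜 := ℂ)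
      (Gen_convex hvN hwN hv hw h).closure isClosed_closure hf'
    have hbd : ∀ e ∈ Gen N, ‖φ e‖ ≤ u := by
      intro e he
      by_cases h0 : φ e = 0
      · rw [h0, norm_zero]
        have := h1 0 (subset_closure Gen_zero)
        rw [map_zero] at this
        exact le_of_lt (by simpa using this)
      · have hn : 0 < ‖φ e‖ := norm_pos_iff.mpr h0
        set c : ℂ := (starRingEnd ℂ) (φ e) / (‖φ e‖ : ℂ) with hc
        have hcn : ‖c‖ ≤ 1 := by
          rw [hc, norm_div, RCLike.norm_conj, Complex.norm_real, norm_norm, div_self hn.ne']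
        have h3 := h1 _ (subset_closure (Gen_smul hcn he))
        have h4 : φ (c • e) = (‖φ e‖ : ℂ) := by
          rw [map_smul, smul_eq_mul, hc, div_mul_eq_mul_div, Complex.conj_mul', pow_two,
            mul_div_assoc, div_self (by exact_mod_cast hn.ne'), mul_one]
        rw [h4] at h3
        exact le_of_lt (by simpa using h3)
    have hu : 0 ≤ u := (norm_nonneg _).trans (hbd 0 Gen_zero)
    obtain ⟨Ψ, _, hΨ⟩ := dual_repr N φ
    have hΨn : ‖Ψ‖ ≤ u := X.norm_le_of_ev hu fun e he => by rw [← hΨ]; exact hbd e he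
    have h5 : ‖φ f‖ ≤ u := by
      rw [hΨ]
      refine (le_opNorm _ _).trans ?_
      calc ‖inF N f‖ * ‖Ψ‖ ≤ 1 * u := mul_le_mul hf hΨn (norm_nonneg _) zero_le_one
        _ = u := one_mul u
    have h6 : RCLike.re (φ f) ≤ u := (RCLike.re_le_norm _).trans h5
    exact absurd h2 (not_lt.mpr h6)
  obtain ⟨e, ⟨T, ξ, η, hT, hξ, hη, rfl⟩, hd⟩ := Metric.mem_closure_iff.mp hmem δ hδ
  exact ⟨T, ξ, η, hT, hξ, hη, by rw [← dist_eq_norm]; exact hd.le⟩

end Pool.Agent.MP_86f3ed.Pin
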