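import Pool.Agent.H.MP_86f3ed_an.Pin.Bimod

open scoped InnerProductSpace Topology
open Filter ContinuousLinearMap

namespace Pool.Agent.MP_86f3ed.Pin

variable {H : Type*} [NormedAddCommGroup H] [InnerProductSpace ℂ H] [CompleteSpace H]
variable (N : StarSubalgebra ℂ (H →L[ℂ] H))

theorem evF_add_left (T T' : H →L[ℂ] H) (ξ η : H) :
    evF N (T + T') ξ η = evF N T ξ η + evF N T' ξ η := by
  apply F_ext; intro Ψ
  rw [map_add, inF_evF, inF_evF, inF_evF, add_apply, ev_apply, ev_apply, ev_apply, X.ap_add,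
    add_apply, inner_add_right]

theorem evF_smul_left (c : ℂ) (T : H →L[ℂ] H) (ξ η : H) :
    evF N (c • T) ξ η = c • evF N T ξ η := by
  apply F_ext; intro Ψ
  rw [map_smul, inF_evF, inF_evF, smul_apply, ev_apply, ev_apply, X.ap_smul,
    smul_apply, inner_smul_right]
  rfl

theorem evF_add_mid (T : H →L[ℂ] H) (ξ ξ' η : H) :
    evF N T (ξ + ξ') η = evF N T ξ η + evF N T ξ' η := by
  apply F_ext; intro Ψ
  rw [map_add, inF_evF, inF_evF, inF_evF, add_apply, ev_apply, ev_apply, ev_apply, map_add,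
    inner_add_right]

theorem evF_smul_mid (c : ℂ) (T : H →L[ℂ] H) (ξ η : H) :
    evF N T (c • ξ) η = c • evF N T ξ η := by
  apply F_ext; intro Ψ
  rw [map_smul, inF_evF, inF_evF, smul_apply, ev_apply, ev_apply, map_smul,
    inner_smul_right]
  rfl

theorem evF_add_right (T : H →L[ℂ] H) (ξ η η' : H) :
    evF N T ξ (η + η') = evF N T ξ η + evF N T ξ η' := by
  apply F_ext; intro Ψ
  rw [map_add, inF_evF, inF_evF, inF_evF, add_apply, ev_apply, ev_apply, ev_apply,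
    inner_add_left]

theorem evF_smul_right (c : ℂ) (T : H →L[ℂ] H) (ξ η : H) :
    evF N T ξ (c • η) = (starRingEnd ℂ) c • evF N T ξ η := by
  apply F_ext; intro Ψ
  rw [map_smul, inF_evF, inF_evF, smul_apply, ev_apply, ev_apply, inner_smul_left]
  rfl

theorem evF_mul_left {n : H →L[ℂ] H} (hn : n ∈ N) (T : H →L[ℂ] H) (ξ η : H) :
    evF N (n * T) ξ η = evF N T ξ (star n η) := by
  apply F_ext; intro Ψ
  rw [inF_evF, inF_evF, ev_apply, ev_apply, X.left Ψ hn, star_eq_adjoint, adjoint_inner_left]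
  rfl

theorem evF_mul_right {n : H →L[ℂ] H} (hn : n ∈ N) (T : H →L[ℂ] H) (ξ η : H) :
    evF N (T * n) ξ η = evF N T (n ξ) η := by
  apply F_ext; intro Ψ
  rw [inF_evF, inF_evF, ev_apply, ev_apply, X.right Ψ hn]
  rfl

/-- Every bounded functional on the predual is the evaluation at an element of `X N`. -/
theorem dual_repr (φ : StrongDual ℂ (F N)) :
    ∃ Ψ : X N, ‖Ψ‖ ≤ ‖φ‖ ∧ ∀ f : F N, φ f = inF N f Ψ := by
  have hb : ∀ T (ξ η : H), ‖φ (evF N T ξ η)‖ ≤ ‖φ‖ * ‖T‖ * ‖ξ‖ * ‖η‖ := by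
    intro T ξ η
    refine (φ.le_opNorm _).trans ?_
    have := mul_le_mul_of_nonneg_left (norm_evF_le N T ξ η) (norm_nonneg φ)
    calc ‖φ‖ * ‖evF N T ξ η‖ ≤ ‖φ‖ * (‖T‖ * ‖ξ‖ * ‖η‖) := this
      _ = ‖φ‖ * ‖T‖ * ‖ξ‖ * ‖η‖ := by ring
  have hex : ∀ T : H →L[ℂ] H, ∃ S : H →L[ℂ] H, ‖S‖ ≤ ‖φ‖ * ‖T‖ ∧
      ∀ ξ η, ⟪η, S ξ⟫_ℂ = φ (evF N T ξ η) := by
    intro T
    let B₀ : H →ₗ⋆[ℂ] H →ₗ[ℂ] ℂ := LinearMap.mk₂'ₛₗ (starRingEnd ℂ) (RingHom.id ℂ)
      (fun η ξ => φ (evF N T ξ η))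
      (fun η η' ξ => by show φ _ = φ _ + φ _; rw [evF_add_right, map_add])
      (fun c η ξ => by show φ _ = _ • φ _; rw [evF_smul_right, map_smul])
      (fun η ξ ξ' => by show φ _ = φ _ + φ _; rw [evF_add_mid, map_add])
      (fun c η ξ => by show φ _ = _ • φ _; rw [evF_smul_mid, map_smul]; rfl)
    let B : H →L⋆[ℂ] H →L[ℂ] ℂ := LinearMap.mkContinuous₂ B₀ (‖φ‖ * ‖T‖) (fun η ξ => by
      have := hb T ξ η
      show ‖φ (evF N T ξ η)‖ ≤ _
      linarith [mul_right_comm (‖φ‖ * ‖T‖) ‖η‖ ‖ξ‖])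
    have hB : ∀ ξ η, ⟪InnerProductSpace.continuousLinearMapOfBilin B η, ξ⟫_ℂ =
        φ (evF N T ξ η) := by
      intro ξ η
      rw [InnerProductSpace.continuousLinearMapOfBilin_apply]
      rfl
    refine ⟨adjoint (InnerProductSpace.continuousLinearMapOfBilin B), ?_, ?_⟩
    · rw [LinearIsometryEquiv.norm_map]
      refine opNorm_le_bound _ (by positivity) fun η => ?_
      set z := InnerProductSpace.continuousLinearMapOfBilin B η with hz
      have h1 : ‖z‖ ^ 2 ≤ ‖φ‖ * ‖T‖ * ‖z‖ * ‖η‖ := by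
        have h2 := hb T z η
        rw [← hB, inner_self_eq_norm_sq_to_K] at h2
        simpa using h2
      rcases (norm_nonneg z).eq_or_lt with h0 | h0
      · rw [← h0]; positivity
      · have h3 : ‖z‖ * ‖z‖ ≤ (‖φ‖ * ‖T‖ * ‖η‖) * ‖z‖ := by nlinarith
        exact le_of_mul_le_mul_right h3 h0
    · intro ξ η
      rw [adjoint_inner_right]
      exact hB ξ η
  choose S hSn hS using hex
  have uniq : ∀ {A A' : H →L[ℂ] H}, (∀ ξ η, ⟪η, A ξ⟫_ℂ = ⟪η, A' ξ⟫_ℂ) → A = A' := by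
    intro A A' h
    exact ContinuousLinearMap.ext fun ξ => ext_inner_left ℂ fun η => h ξ η
  let S₁ : (H →L[ℂ] H) →L[ℂ] (H →L[ℂ] H) := LinearMap.mkContinuous
    { toFun := S
      map_add' := fun T T' => uniq fun ξ η => by
        rw [hS, evF_add_left, map_add, add_apply, inner_add_right, hS, hS]
      map_smul' := fun c T => uniq fun ξ η => by
        rw [hS, evF_smul_left, map_smul, RingHom.id_apply, smul_apply, inner_smul_right, hS]
        rfl } ‖φ‖ hSn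
  have hS₁ : ∀ T ξ η, ⟪η, S₁ T ξ⟫_ℂ = φ (evF N T ξ η) := hS
  let Ψ : X N := X.mk S₁ (by
    intro n hn T
    constructor
    · refine uniq fun ξ η => ?_
      rw [hS₁, evF_mul_left N hn, ← hS₁, star_eq_adjoint, adjoint_inner_left]
      rfl
    · refine uniq fun ξ η => ?_
      rw [hS₁, evF_mul_right N hn, ← hS₁]
      rfl)
  refine ⟨Ψ, ?_, ?_⟩
  · exact X.norm_le (norm_nonneg _) hSn
  · intro f
    have hev : ∀ T ξ η, φ (evF N T ξ η) = inF N (evF N T ξ η) Ψ := fun T ξ η => (hS₁ T ξ η).symm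
    refine eq_of_forall_dist_le fun ε hε => ?_
    set c : ℝ := ‖φ‖ + ‖Ψ‖ + 1 with hc
    have hc0 : 0 < c := by positivity
    obtain ⟨m, T, ξ, η, h⟩ := F_dense N f (show 0 < ε / c by positivity)
    set g := ∑ k, evF N (T k) (ξ k) (η k) with hg
    have h1 : φ g = inF N g Ψ := by
      rw [hg, map_sum, map_sum, sum_apply]
      exact Finset.sum_congr rfl fun k _ => hev _ _ _
    have h2 : φ f - inF N f Ψ = φ (f - g) - inF N (f - g) Ψ := by
      rw [map_sub, map_sub, sub_apply, h1]; ring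
    rw [dist_eq_norm, h2]
    refine (norm_sub_le _ _).trans ?_
    have h3 : ‖φ (f - g)‖ ≤ ‖φ‖ * (ε / c) :=
      (φ.le_opNorm _).trans (mul_le_mul_of_nonneg_left h (norm_nonneg _))
    have h4 : ‖inF N (f - g) Ψ‖ ≤ (ε / c) * ‖Ψ‖ :=
      (ContinuousLinearMap.le_opNorm _ _).trans (mul_le_mul_of_nonneg_right h (norm_nonneg _))
    have h5 : (ε / c) * c = ε := div_mul_cancel₀ _ hc0.ne'
    have h6 : 0 < ε / c := by positivity
    nlinarith

end Pool.Agent.MP_86f3ed.Pin
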