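import Pool.Agent.H.MP_86f3ed_an.Pin.PI

open scoped InnerProductSpace Topology

namespace Pool.Agent.MP_86f3ed.Pin

variable {H : Type*} [NormedAddCommGroup H] [InnerProductSpace ℂ H] [CompleteSpace H]

/-- The closure of the range of an operator commuting with `𝔄` is invariant under `𝔄`. -/
theorem Fin1_closure_range_invariant (𝔄 : StarSubalgebra ℂ (H →L[ℂ] H)) {h : H →L[ℂ] H}
    (hh : h ∈ Com 𝔄) (a : H →L[ℂ] H) (ha : a ∈ 𝔄) (v : H)
    (hv : v ∈ (LinearMap.range (h : H →ₗ[ℂ] H)).topologicalClosure) :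
    a v ∈ (LinearMap.range (h : H →ₗ[ℂ] H)).topologicalClosure := by
  have hcomm := mem_Com.mp hh a ha
  rw [← SetLike.mem_coe, Submodule.topologicalClosure_coe] at hv ⊢
  have hmaps : Set.MapsTo (fun x => a x) (LinearMap.range (h : H →ₗ[ℂ] H) : Set H)
      (LinearMap.range (h : H →ₗ[ℂ] H) : Set H) := by
    rintro _ ⟨u, rfl⟩
    refine ⟨a u, ?_⟩
    exact (DFunLike.congr_fun hcomm u).symm
  exact map_mem_closure a.continuous hv hmaps

/-- Spectral data: a projection `q` and a positive element `g` of the commutant with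
`g * D * q = q`. -/
theorem Fin1_spectral (𝔄 : StarSubalgebra ℂ (H →L[ℂ] H)) {V : H →L[ℂ] H} (hV : V ∈ Com 𝔄)
    {r : ℝ} (hr : 0 < r) (hVr : r < ‖V‖ ^ 2) :
    ∃ q ∈ Com 𝔄, ∃ g ∈ Com 𝔄, star q = q ∧ q * q = q ∧ q ≠ 0 ∧ ‖q‖ ≤ 1 ∧ ‖g‖ ≤ 1 / r ∧
      g * (star V * V) * q = q := by
  classical
  set D : H →L[ℂ] H := star V * V with hD
  have hDN : D ∈ Com 𝔄 := mul_mem (star_mem hV) hV
  have hDsa : IsSelfAdjoint D := IsSelfAdjoint.star_mul_self V
  have hDpos : 0 ≤ D := star_mul_self_nonneg V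
  have hDnorm : ‖D‖ = ‖V‖ ^ 2 := by rw [hD, CStarRing.norm_star_mul_self, sq]
  have hV0 : V ≠ 0 := by
    rintro rfl
    rw [norm_zero] at hVr
    nlinarith
  have : Nontrivial (H →L[ℂ] H) := ⟨⟨V, 0, hV0⟩⟩
  have hspec : ‖D‖ ∈ spectrum ℝ D := CStarAlgebra.norm_mem_spectrum_of_nonneg hDpos
  set φ : ℝ → ℝ := fun t => max (t - r) 0 with hφ
  set f : ℝ → ℝ := fun t => 1 / max t r with hf
  have hφc : Continuous φ := (continuous_id.sub continuous_const).max continuous_const
  have hmaxpos : ∀ t : ℝ, 0 < max t r := fun t => lt_of_lt_of_le hr (le_max_right _ _)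
  have hfc : Continuous f :=
    continuous_const.div (continuous_id.max continuous_const) fun t => (hmaxpos t).ne'
  set h : H →L[ℂ] H := cfc φ D with hh
  set g : H →L[ℂ] H := cfc f D with hg
  have hmem : ∀ ψ : ℝ → ℝ, cfc ψ D ∈ Com 𝔄 := by
    intro ψ
    rw [mem_Com]
    intro a ha
    have h1 : Commute D a := (mem_Com.mp hDN a ha).symm
    exact (h1.cfc_real ψ).symm
  have hh0 : h ≠ 0 := by
    intro h0
    have h1 := norm_apply_le_norm_cfc φ D hspec hφc.continuousOn hDsa
    rw [← hh, h0, norm_zero] at h1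
    have h2 : φ ‖D‖ = 0 := norm_le_zero_iff.mp h1
    have h3 : 0 < φ ‖D‖ := by
      rw [hφ]
      exact lt_max_of_lt_left (by rw [hDnorm]; linarith)
    exact h3.ne' h2
  have hgDh : g * D * h = h := by
    have h1 : cfc (id : ℝ → ℝ) D = D := cfc_id ℝ D hDsa
    have h2 : g * D = cfc (fun t => f t * t) D := by
      have h3 : cfc (fun t => f t * (id : ℝ → ℝ) t) D = cfc f D * cfc (id : ℝ → ℝ) D :=
        cfc_mul f id D hfc.continuousOn continuousOn_id
      rw [h1] at h3
      exact h3.symm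
    rw [h2, hh, ← cfc_mul (fun t => f t * t) φ D (hfc.mul continuous_id).continuousOn
      hφc.continuousOn]
    refine cfc_congr fun t _ => ?_
    show f t * t * φ t = φ t
    rw [hφ, hf]
    show 1 / max t r * t * max (t - r) 0 = max (t - r) 0
    rcases le_total t r with htr | htr
    · rw [max_eq_right (sub_nonpos.mpr htr), mul_zero]
    · rw [max_eq_left htr]
      have : t ≠ 0 := (lt_of_lt_of_le hr htr).ne'
      field_simp
  set K : Submodule ℂ H := (LinearMap.range (h : H →ₗ[ℂ] H)).topologicalClosure with hK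
  have : CompleteSpace K := (Submodule.isClosed_topologicalClosure _).completeSpace_coe
  have hqN : K.starProjection ∈ Com 𝔄 :=
    proj_mem_Com 𝔄 K fun a ha v hv => Fin1_closure_range_invariant 𝔄 (hmem φ) a ha v hv
  have hqs : star K.starProjection = K.starProjection := by
    rw [ContinuousLinearMap.star_eq_adjoint]
    exact (ContinuousLinearMap.eq_adjoint_iff _ _).mpr
      (fun x y => (K.inner_starProjection_left_eq_right x y)) |>.symm
  have hqq : K.starProjection * K.starProjection = K.starProjection := by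
    ext v
    show K.starProjection (K.starProjection v) = K.starProjection v
    rw [Submodule.starProjection_eq_self_iff]
    exact Submodule.starProjection_apply_mem K v
  refine ⟨K.starProjection, hqN, g, hmem f, hqs, hqq, ?_, Submodule.starProjection_norm_le K, ?_,
    ?_⟩
  · intro h0
    apply hh0
    ext v
    have h1 : h v ∈ K := Submodule.le_topologicalClosure _ ⟨v, rfl⟩
    have h2 : K.starProjection (h v) = h v := Submodule.starProjection_eq_self_iff.mpr h1
    rw [← h2, h0]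
    rfl
  · refine norm_cfc_le (by positivity) fun t _ => ?_
    rw [hf]
    show ‖1 / max t r‖ ≤ 1 / r
    rw [Real.norm_of_nonneg (by have := hmaxpos t; positivity)]
    exact one_div_le_one_div_of_le hr (le_max_right _ _)
  · have h1 : ∀ v ∈ K, (g * D) v = v := by
      intro v hv
      have hcl : IsClosed {v : H | (g * D) v = v} :=
        isClosed_eq (g * D).continuous continuous_id
      have hsub : (LinearMap.range (h : H →ₗ[ℂ] H) : Set H) ⊆ {v : H | (g * D) v = v} := by
        rintro _ ⟨u, rfl⟩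
        exact DFunLike.congr_fun hgDh u
      have hv' : v ∈ closure (LinearMap.range (h : H →ₗ[ℂ] H) : Set H) := by
        rw [← Submodule.topologicalClosure_coe]
        exact hv
      exact closure_minimal hsub hcl hv'
    ext v
    show (g * D) (K.starProjection v) = K.starProjection v
    exact h1 _ (Submodule.starProjection_apply_mem K v)

/-- Approximate version: for every `ε` there is a map into the commutant which is the identity on
the commutant and has norm at most `1 + ε`. -/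
theorem almost_projection (𝔄 : StarSubalgebra ℂ (H →L[ℂ] H))
    (hPI : PurelyInfinite (Com 𝔄 : Set (H →L[ℂ] H)))
    (Ψ : (H →L[ℂ] H) →ₗ[ℂ] (H →L[ℂ] H)) {c : ℝ} (hc : ∀ T, ‖Ψ T‖ ≤ c * ‖T‖)
    (hΨN : ∀ T, Ψ T ∈ Com 𝔄)
    (hΨr : ∀ T, ∀ n ∈ Com 𝔄, Ψ (T * n) = Ψ T * n) (hΨ0 : Ψ ≠ 0) {ε : ℝ} (hε : 0 < ε) :
    ∃ E : (H →L[ℂ] H) →ₗ[ℂ] (H →L[ℂ] H), (∀ S, ‖E S‖ ≤ (1 + ε) * ‖S‖) ∧
      (∀ S, E S ∈ Com 𝔄) ∧ ∀ S ∈ Com 𝔄, E S = S := by
  set Ψc : (H →L[ℂ] H) →L[ℂ] (H →L[ℂ] H) := Ψ.mkContinuous c hc with hΨc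
  have hap : ∀ T, Ψc T = Ψ T := fun T => rfl
  set s : ℝ := ‖Ψc‖ with hs
  have hs0 : 0 < s := by
    rw [hs, norm_pos_iff]
    intro h0
    apply hΨ0
    ext T : 1
    rw [← hap, h0]
    rfl
  have hle : ∀ T, ‖Ψ T‖ ≤ s * ‖T‖ := fun T => Ψc.le_opNorm T
  set r0 : ℝ := s / Real.sqrt (1 + ε) with hr0
  have hsq : 1 < Real.sqrt (1 + ε) := by
    rw [show (1 : ℝ) = Real.sqrt 1 from Real.sqrt_one.symm]
    exact Real.sqrt_lt_sqrt (by norm_num) (by rw [Real.sqrt_one]; linarith)
  have hr0s : r0 < s := by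
    rw [hr0]
    exact div_lt_self hs0 hsq
  have hr0pos : 0 < r0 := by rw [hr0]; positivity
  obtain ⟨T, hT1, hT2⟩ := Ψc.exists_lt_apply_of_lt_opNorm hr0s
  rw [hap] at hT2
  set V := Ψ T with hV
  have hVN : V ∈ Com 𝔄 := hΨN T
  have hVs : ‖V‖ ≤ s := (hle T).trans (by nlinarith)
  set r : ℝ := r0 ^ 2 with hr
  have hrpos : 0 < r := by rw [hr]; positivity
  have hrs : s ^ 2 / r = 1 + ε := by
    rw [hr, hr0, div_pow, Real.sq_sqrt (by linarith)]
    field_simp
  have hVr : r < ‖V‖ ^ 2 := by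
    rw [hr]
    exact pow_lt_pow_left₀ hT2 hr0pos.le (by norm_num)
  obtain ⟨q, hqN, g, hgN, hqs, hqq, hq0, hq1, hg1, hgDq⟩ := Fin1_spectral 𝔄 hVN hrpos hVr
  obtain ⟨w, hwN, -, -, hww, -, -, hqw, -⟩ := hPI q hqN hqs hqq hq0
  have hwN' : w ∈ Com 𝔄 := hwN
  have hw1 : ‖w‖ ≤ 1 := by
    have h1 : ‖w‖ * ‖w‖ ≤ 1 := by
      rw [← CStarRing.norm_star_mul_self, hww]
      exact ContinuousLinearMap.norm_id_le
    nlinarith [norm_nonneg w]
  have hw1' : ‖star w‖ ≤ 1 := by rw [norm_star]; exact hw1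
  have hkey : q * (g * (star V * V)) * w = w := by
    have h1 : g * (star V * V) * w = w := by
      calc g * (star V * V) * w = g * (star V * V) * (q * w) := by rw [hqw]
        _ = (g * (star V * V) * q) * w := by rw [mul_assoc (g * (star V * V)) q w]
        _ = w := by rw [hgDq, hqw]
    rw [mul_assoc, h1, hqw]
  let E : (H →L[ℂ] H) →ₗ[ℂ] (H →L[ℂ] H) :=
    { toFun := fun S => star w * q * g * star V * Ψ (T * w * S * star w) * w
      map_add' := fun S S' => by
        rw [mul_add, add_mul, map_add, mul_add, add_mul]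
      map_smul' := fun k S => by
        rw [mul_smul_comm, smul_mul_assoc, map_smul, mul_smul_comm, smul_mul_assoc]
        rfl }
  have hE : ∀ S, E S = star w * q * g * star V * Ψ (T * w * S * star w) * w := fun S => rfl
  refine ⟨E, fun S => ?_, fun S => ?_, fun S hS => ?_⟩
  · rw [hE]
    have h1 : ‖Ψ (T * w * S * star w)‖ ≤ s * ‖S‖ := by
      refine (hle _).trans (mul_le_mul_of_nonneg_left ?_ hs0.le)
      calc ‖T * w * S * star w‖ ≤ ‖T * w * S‖ * ‖star w‖ := norm_mul_le _ _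
        _ ≤ ‖T * w * S‖ * 1 := mul_le_mul_of_nonneg_left hw1' (norm_nonneg _)
        _ = ‖T * w * S‖ := mul_one _
        _ ≤ ‖T * w‖ * ‖S‖ := norm_mul_le _ _
        _ ≤ 1 * ‖S‖ := mul_le_mul_of_nonneg_right
            ((norm_mul_le _ _).trans (mul_le_one₀ hT1.le (norm_nonneg _) hw1)) (norm_nonneg _)
        _ = ‖S‖ := one_mul _
    have h2 : ‖star w * q‖ ≤ 1 :=
      (norm_mul_le _ _).trans (mul_le_one₀ hw1' (norm_nonneg _) hq1)
    have h3 : ‖star w * q * g‖ ≤ 1 / r := by
      refine (norm_mul_le _ _).trans ?_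
      calc ‖star w * q‖ * ‖g‖ ≤ 1 * (1 / r) :=
            mul_le_mul h2 hg1 (norm_nonneg _) zero_le_one
        _ = 1 / r := one_mul _
    have h4 : ‖star w * q * g * star V‖ ≤ 1 / r * s := by
      refine (norm_mul_le _ _).trans ?_
      rw [norm_star]
      exact mul_le_mul h3 hVs (norm_nonneg _) (by positivity)
    have h5 : ‖star w * q * g * star V * Ψ (T * w * S * star w)‖ ≤ 1 / r * s * (s * ‖S‖) := by
      refine (norm_mul_le _ _).trans ?_
      exact mul_le_mul h4 h1 (norm_nonneg _) (by positivity)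
    calc ‖star w * q * g * star V * Ψ (T * w * S * star w) * w‖
        ≤ ‖star w * q * g * star V * Ψ (T * w * S * star w)‖ * ‖w‖ := norm_mul_le _ _
      _ ≤ ‖star w * q * g * star V * Ψ (T * w * S * star w)‖ * 1 :=
          mul_le_mul_of_nonneg_left hw1 (norm_nonneg _)
      _ = ‖star w * q * g * star V * Ψ (T * w * S * star w)‖ := mul_one _
      _ ≤ 1 / r * s * (s * ‖S‖) := h5
      _ = (s ^ 2 / r) * ‖S‖ := by ring
      _ = (1 + ε) * ‖S‖ := by rw [hrs]
  · rw [hE]
    exact mul_mem (mul_mem (mul_mem (mul_mem (mul_mem (star_mem hwN') hqN) hgN) (star_mem hVN))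
      (hΨN _)) hwN'
  · rw [hE]
    have h1 : T * w * S * star w = T * (w * S * star w) := by simp only [mul_assoc]
    have h2 : w * S * star w ∈ Com 𝔄 := mul_mem (mul_mem hwN' hS) (star_mem hwN')
    rw [h1, hΨr T _ h2]
    calc star w * q * g * star V * (V * (w * S * star w)) * w
        = star w * (q * (g * (star V * V)) * w) * S * (star w * w) := by simp only [mul_assoc]
      _ = S := by rw [hkey, hww, mul_one, one_mul]

end Pool.Agent.MP_86f3ed.Pin
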