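import Pool.Agent.H.MP_86f3ed_an.Pin.Fin1
import Pool.Agent.H.MP_86f3ed_an.Trc.Limit

open scoped InnerProductSpace Topology
open Filter

namespace Pool.Agent.MP_86f3ed.Pin

variable {H : Type*} [NormedAddCommGroup H] [InnerProductSpace ℂ H] [CompleteSpace H]

/-- A nonzero bounded right-modular map of `B(H)` into a purely infinite commutant gives a
projection of norm one. -/
theorem injective_of_right_modular (𝔄 : StarSubalgebra ℂ (H →L[ℂ] H))
    (hPI : PurelyInfinite (Com 𝔄 : Set (H →L[ℂ] H)))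
    (Ψ : (H →L[ℂ] H) →ₗ[ℂ] (H →L[ℂ] H)) {c : ℝ} (hc : ∀ T, ‖Ψ T‖ ≤ c * ‖T‖)
    (hΨN : ∀ T, Ψ T ∈ Com 𝔄)
    (hΨr : ∀ T, ∀ n ∈ Com 𝔄, Ψ (T * n) = Ψ T * n) (hΨ0 : Ψ ≠ 0) :
    ∃ E : (H →L[ℂ] H) →ₗ[ℂ] (H →L[ℂ] H), (∀ S, ‖E S‖ ≤ ‖S‖) ∧ (∀ S, E S ∈ Com 𝔄) ∧
      ∀ S ∈ Com 𝔄, E S = S := by
  have hpos : ∀ k : ℕ, (0 : ℝ) < 1 / ((k : ℝ) + 1) := fun k => by positivity
  choose E hE1 hE2 hE3 using fun k : ℕ =>
    almost_projection 𝔄 hPI Ψ hc hΨN hΨr hΨ0 (hpos k)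
  set r : ℕ → ℝ := fun k => (1 + 1 / ((k : ℝ) + 1))⁻¹ with hr
  have hr0 : ∀ k, 0 < r k := fun k => by
    have := hpos k
    rw [hr]
    positivity
  have hrlim : Tendsto r atTop (𝓝 1) := by
    have h1 : Tendsto (fun k : ℕ => 1 / ((k : ℝ) + 1)) atTop (𝓝 0) :=
      tendsto_one_div_add_atTop_nhds_zero_nat
    have h2 : Tendsto (fun k : ℕ => 1 + 1 / ((k : ℝ) + 1)) atTop (𝓝 (1 + 0)) :=
      tendsto_const_nhds.add h1
    rw [add_zero] at h2
    have h3 := h2.inv₀ one_ne_zero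
    rwa [inv_one] at h3
  have hrC : Tendsto (fun k => ((r k : ℝ) : ℂ)) atTop (𝓝 1) := by
    have := (Complex.continuous_ofReal.tendsto 1).comp hrlim
    rw [Complex.ofReal_one] at this
    exact this
  set F : ℕ → (H →L[ℂ] H) →ₗ[ℂ] (H →L[ℂ] H) := fun k => ((r k : ℝ) : ℂ) • E k with hF
  have hFn : ∀ k S, ‖F k S‖ ≤ ‖S‖ := by
    intro k S
    rw [hF]
    simp only [LinearMap.smul_apply, norm_smul, Complex.norm_real, Real.norm_eq_abs,
      abs_of_pos (hr0 k)]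
    have h1 := mul_le_mul_of_nonneg_left (hE1 k S) (hr0 k).le
    refine h1.trans ?_
    rw [← mul_assoc]
    have h2 : r k * (1 + 1 / ((k : ℝ) + 1)) = 1 := by
      rw [hr]
      have := hpos k
      exact inv_mul_cancel₀ (by positivity)
    rw [h2, one_mul]
  let 𝒰 : Ultrafilter ℕ := Ultrafilter.of atTop
  have h𝒰 : (𝒰 : Filter ℕ) ≤ atTop := Ultrafilter.of_le atTop
  obtain ⟨E', hE'1, hE'2⟩ := exists_limit 𝒰 F hFn
  refine ⟨E', hE'1, ?_, ?_⟩
  · intro S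
    rw [mem_Com]
    intro a ha
    have hk : ∀ k, a * F k S = F k S * a := by
      intro k
      have h1 := mem_Com.1 (hE2 k S) a ha
      rw [hF]
      simp only [LinearMap.smul_apply, mul_smul_comm, smul_mul_assoc]
      rw [h1]
    refine ContinuousLinearMap.ext fun y => ?_
    refine ext_inner_left ℂ fun x => ?_
    have h1 : Tendsto (fun i => ⟪x, F i S (a y)⟫_ℂ) 𝒰 (𝓝 ⟪x, E' S (a y)⟫_ℂ) := hE'2 S x (a y)
    have h2 : Tendsto (fun i => ⟪ContinuousLinearMap.adjoint a x, F i S y⟫_ℂ) 𝒰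
        (𝓝 ⟪ContinuousLinearMap.adjoint a x, E' S y⟫_ℂ) := hE'2 S _ y
    have h3 : (fun i => ⟪x, F i S (a y)⟫_ℂ)
        = fun i => ⟪ContinuousLinearMap.adjoint a x, F i S y⟫_ℂ := by
      funext i
      rw [ContinuousLinearMap.adjoint_inner_left]
      have h4 := congrArg (fun T : H →L[ℂ] H => T y) (hk i)
      simp only [ContinuousLinearMap.mul_apply] at h4
      rw [h4]
    rw [h3] at h1
    have h5 := tendsto_nhds_unique h1 h2
    rw [ContinuousLinearMap.adjoint_inner_left] at h5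
    simp only [ContinuousLinearMap.mul_apply]
    exact h5.symm
  · intro S hS
    refine ContinuousLinearMap.ext fun y => ?_
    refine ext_inner_left ℂ fun x => ?_
    have h1 := hE'2 S x y
    have h2 : (fun i => ⟪x, F i S y⟫_ℂ) = fun i => ((r i : ℝ) : ℂ) * ⟪x, S y⟫_ℂ := by
      funext i
      rw [hF]
      simp only [LinearMap.smul_apply, ContinuousLinearMap.smul_apply, inner_smul_right]
      rw [hE3 i S hS]
    rw [h2] at h1
    have h3 : Tendsto (fun i => ((r i : ℝ) : ℂ) * ⟪x, S y⟫_ℂ) 𝒰 (𝓝 (1 * ⟪x, S y⟫_ℂ)) :=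
      (hrC.mono_left h𝒰).mul_const _
    rw [one_mul] at h3
    exact tendsto_nhds_unique h1 h3

end Pool.Agent.MP_86f3ed.Pin
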