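import Pool.Agent.H.MP_86f3ed_an.Pin.PI

open scoped InnerProductSpace Topology

namespace Pool.Agent.MP_86f3ed.Pin

variable {H : Type*} [NormedAddCommGroup H] [InnerProductSpace ℂ H] [CompleteSpace H]

/-- A projection of the algebra. -/
def Inf1Proj (𝔄 : StarSubalgebra ℂ (H →L[ℂ] H)) (p : H →L[ℂ] H) : Prop :=
  p ∈ 𝔄 ∧ star p = p ∧ p * p = p

/-- A projection without proper nonzero subprojection (zero is allowed). -/
def Inf1Min (𝔄 : StarSubalgebra ℂ (H →L[ℂ] H)) (p : H →L[ℂ] H) : Prop :=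
  Inf1Proj 𝔄 p ∧ ∀ q, Inf1Proj 𝔄 q → q * p = q → q = 0 ∨ q = p

theorem Inf1_norm_le {p : H →L[ℂ] H} (h1 : star p = p) (h2 : p * p = p) : ‖p‖ ≤ 1 := by
  have h : ‖star p * p‖ = ‖p‖ * ‖p‖ := CStarRing.norm_star_mul_self
  rw [h1, h2] at h
  by_contra hc
  push Not at hc
  nlinarith [norm_nonneg p]

theorem Inf1_no_seq (𝔄 : StarSubalgebra ℂ (H →L[ℂ] H))
    (hcl : IsClosed (𝔄 : Set (H →L[ℂ] H)))
    (h : ∀ a ∈ 𝔄, IsSelfAdjoint a → (spectrum ℝ a).Finite)
    (p : ℕ → (H →L[ℂ] H)) (hp : ∀ n, Inf1Proj 𝔄 (p n)) (h0 : ∀ n, p n ≠ 0)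
    (ho : ∀ i j, i < j → p i * p j = 0) : False := by
  have ho' : ∀ i j, i ≠ j → p i * p j = 0 := by
    intro i j hij
    rcases lt_or_gt_of_ne hij with h1 | h1
    · exact ho i j h1
    · have := congrArg star (ho j i h1)
      rw [star_mul, (hp i).2.1, (hp j).2.1, star_zero] at this
      exact this
  have hsum : Summable (fun n : ℕ => ((1 / 2 : ℝ) ^ n) • p n) := by
    refine Summable.of_norm_bounded (g := fun n : ℕ => (1 / 2 : ℝ) ^ n)
      (summable_geometric_of_lt_one (by norm_num) (by norm_num)) ?_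
    intro n
    rw [norm_smul, Real.norm_eq_abs, abs_of_nonneg (by positivity)]
    have := Inf1_norm_le (hp n).2.1 (hp n).2.2
    have h2 : (0 : ℝ) ≤ (1 / 2 : ℝ) ^ n := by positivity
    nlinarith
  set a : H →L[ℂ] H := ∑' n : ℕ, ((1 / 2 : ℝ) ^ n) • p n with ha
  have hmem : a ∈ 𝔄 := by
    have h1 := hsum.hasSum
    refine hcl.mem_of_tendsto h1 (Filter.Eventually.of_forall ?_)
    intro s
    refine sum_mem ?_
    intro n _
    have : ((1 / 2 : ℝ) ^ n) • p n = (((1 / 2 : ℝ) ^ n : ℝ) : ℂ) • p n := by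
      rw [Complex.coe_smul]
    rw [this]
    exact SMulMemClass.smul_mem _ (hp n).1
  have hsa : IsSelfAdjoint a := by
    show star a = a
    rw [ha, tsum_star]
    congr 1
    ext1 n
    rw [star_smul, (hp n).2.1]
    simp
  have hmul : ∀ j, a * p j = ((1 / 2 : ℝ) ^ j) • p j := by
    intro j
    rw [ha, ← hsum.tsum_mul_right]
    rw [tsum_eq_single j]
    · rw [smul_mul_assoc, (hp j).2.2]
    · intro i hi
      rw [smul_mul_assoc, ho' i j hi, smul_zero]
  have hspec : ∀ j : ℕ, ((1 / 2 : ℝ) ^ j) ∈ spectrum ℝ a := by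
    intro j
    rw [spectrum.mem_iff]
    intro hu
    have h1 : (algebraMap ℝ (H →L[ℂ] H) ((1 / 2 : ℝ) ^ j) - a) * p j = 0 := by
      rw [sub_mul, hmul j, Algebra.algebraMap_eq_smul_one, smul_mul_assoc, one_mul, sub_self]
    exact h0 j ((hu.mul_right_eq_zero).mp h1)
  have hinf : (Set.range (fun j : ℕ => (1 / 2 : ℝ) ^ j)).Infinite := by
    apply Set.infinite_range_of_injective
    intro i j hij
    exact (pow_right_strictAnti₀ (by norm_num : (0 : ℝ) < 1 / 2) (by norm_num)).injective hij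
  exact hinf ((h a hmem hsa).subset (by rintro _ ⟨j, rfl⟩; exact hspec j))

theorem Inf1_wf (𝔄 : StarSubalgebra ℂ (H →L[ℂ] H))
    (hcl : IsClosed (𝔄 : Set (H →L[ℂ] H)))
    (h : ∀ a ∈ 𝔄, IsSelfAdjoint a → (spectrum ℝ a).Finite) :
    WellFounded (fun q p : {p : H →L[ℂ] H // Inf1Proj 𝔄 p} => q.1 * p.1 = q.1 ∧ q ≠ p) := by
  rw [wellFounded_iff_isEmpty_descending_chain]
  constructor
  rintro ⟨f, hf⟩
  have hst : ∀ n, (f n).1 * (f (n + 1)).1 = (f (n + 1)).1 := by
    intro n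
    have := congrArg star (hf n).1
    rw [star_mul, (f n).2.2.1, (f (n + 1)).2.2.1] at this
    exact this
  have hle : ∀ i k, (f i).1 * (f (i + k)).1 = (f (i + k)).1 := by
    intro i k
    induction k with
    | zero => exact (f i).2.2.2
    | succ k ih =>
      rw [← add_assoc, ← hst (i + k), ← mul_assoc, ih]
  refine Inf1_no_seq 𝔄 hcl h (fun n => (f n).1 - (f (n + 1)).1) ?_ ?_ ?_
  · intro n
    refine ⟨sub_mem (f n).2.1 (f (n + 1)).2.1, ?_, ?_⟩
    · rw [star_sub, (f n).2.2.1, (f (n + 1)).2.2.1]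
    · rw [sub_mul, mul_sub, mul_sub, (f n).2.2.2, (f (n + 1)).2.2.2, hst n, (hf n).1]
      abel
  · intro n h0
    exact (hf n).2 (Subtype.ext (sub_eq_zero.mp h0).symm)
  · intro i j hij
    obtain ⟨k, rfl⟩ := Nat.exists_eq_add_of_lt hij
    have e1 := hle i (k + 1)
    have e2 := hle i (k + 2)
    have e3 := hle (i + 1) k
    have e4 := hle (i + 1) (k + 1)
    have r1 : i + 1 + k = i + k + 1 := by ring
    have r2 : i + 1 + (k + 1) = i + k + 1 + 1 := by ring
    have r3 : i + (k + 1) = i + k + 1 := by ring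
    have r4 : i + (k + 2) = i + k + 1 + 1 := by ring
    rw [r1] at e3
    rw [r2] at e4
    rw [r3] at e1
    rw [r4] at e2
    show ((f i).1 - (f (i + 1)).1) * ((f (i + k + 1)).1 - (f (i + k + 1 + 1)).1) = 0
    rw [sub_mul, mul_sub, mul_sub, e1, e2, e3, e4, sub_self]

theorem Inf1_sum_min (𝔄 : StarSubalgebra ℂ (H →L[ℂ] H))
    (hcl : IsClosed (𝔄 : Set (H →L[ℂ] H)))
    (h : ∀ a ∈ 𝔄, IsSelfAdjoint a → (spectrum ℝ a).Finite) (p : H →L[ℂ] H)
    (hp : Inf1Proj 𝔄 p) :
    ∃ l : List (H →L[ℂ] H), (∀ q ∈ l, Inf1Min 𝔄 q) ∧ l.sum = p := by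
  have key : ∀ p : {p : H →L[ℂ] H // Inf1Proj 𝔄 p},
      ∃ l : List (H →L[ℂ] H), (∀ q ∈ l, Inf1Min 𝔄 q) ∧ l.sum = p.1 := by
    intro p
    induction p using (Inf1_wf 𝔄 hcl h).induction with
    | _ p ih =>
      by_cases hm : Inf1Min 𝔄 p.1
      · exact ⟨[p.1], by simpa using hm, by simp⟩
      · unfold Inf1Min at hm
        push Not at hm
        obtain ⟨q, hq, hqp, hq0, hqne⟩ := hm p.2
        have hpq : p.1 * q = q := by
          have := congrArg star hqp
          rw [star_mul, hq.2.1, p.2.2.1] at this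
          exact this
        have hr : Inf1Proj 𝔄 (p.1 - q) := by
          refine ⟨sub_mem p.2.1 hq.1, ?_, ?_⟩
          · rw [star_sub, p.2.2.1, hq.2.1]
          · rw [sub_mul, mul_sub, mul_sub, p.2.2.2, hq.2.2, hqp, hpq]
            abel
        obtain ⟨l1, h11, h12⟩ := ih ⟨q, hq⟩ ⟨hqp, fun e => hqne (congrArg Subtype.val e)⟩
        obtain ⟨l2, h21, h22⟩ := ih ⟨p.1 - q, hr⟩ ⟨by
          show (p.1 - q) * p.1 = p.1 - q
          rw [sub_mul, p.2.2.2, hqp], fun e => hq0 (by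
            have := congrArg Subtype.val e
            simpa using this)⟩
        refine ⟨l1 ++ l2, ?_, ?_⟩
        · intro x hx
          rcases List.mem_append.mp hx with hx | hx
          · exact h11 x hx
          · exact h21 x hx
        · rw [List.sum_append, h12, h22]
          show q + (p.1 - q) = p.1
          abel
  exact key ⟨p, hp⟩

theorem Inf1_sa_scalar (𝔄 : StarSubalgebra ℂ (H →L[ℂ] H))
    (hcl : IsClosed (𝔄 : Set (H →L[ℂ] H)))
    (h : ∀ a ∈ 𝔄, IsSelfAdjoint a → (spectrum ℝ a).Finite) (p : H →L[ℂ] H)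
    (hp : Inf1Min 𝔄 p) (b : H →L[ℂ] H) (hb : b ∈ 𝔄) (hsa : IsSelfAdjoint b)
    (hbp : b * p = b) : ∃ c : ℝ, b = (c : ℂ) • p := by
  have hfin := h b hb hsa
  by_cases hex : ∃ c ∈ spectrum ℝ b, c ≠ 0
  · obtain ⟨c, hc, hc0⟩ := hex
    have : IsClosed (𝔄 : Set (H →L[ℂ] H)) := hcl
    set f : ℝ → ℝ := fun x => if x = c then 1 else 0 with hf
    have hq1 : cfc f b ∈ 𝔄 := cfc_mem f hb
    have hq2 : star (cfc f b) = cfc f b := cfc_predicate f b
    have hq3 : cfc f b * cfc f b = cfc f b := by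
      rw [← cfc_mul f f b (hfin.continuousOn f) (hfin.continuousOn f)]
      apply cfc_congr
      intro x _
      simp only [hf]
      split_ifs <;> norm_num
    have hbq : b * cfc f b = c • cfc f b := by
      have e1 : b * cfc f b = cfc (fun x => x * f x) b := by
        rw [cfc_mul (fun x => x) f b (hfin.continuousOn _) (hfin.continuousOn f)]
        rw [cfc_id' ℝ b]
      rw [e1, ← cfc_smul c f b (hfin.continuousOn f)]
      apply cfc_congr
      intro x _
      simp only [hf, smul_eq_mul]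
      split_ifs with hx
      · rw [hx]
      · simp
    have hqp : cfc f b * p = cfc f b := by
      have e1 : cfc f b = cfc (fun x => (c⁻¹ * f x) * x) b := by
        apply cfc_congr
        intro x _
        simp only [hf]
        split_ifs with hx
        · rw [hx]; field_simp
        · simp
      have e2 : cfc f b = cfc (fun x => c⁻¹ * f x) b * b := by
        rw [e1, cfc_mul (fun x => c⁻¹ * f x) (fun x => x) b (hfin.continuousOn _)
          (hfin.continuousOn _), cfc_id' ℝ b]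
      rw [e2, mul_assoc, hbp]
    rcases hp.2 (cfc f b) ⟨hq1, hq2, hq3⟩ hqp with h0 | h1
    · exfalso
      have e : cfc f b = cfc (fun _ : ℝ => (0 : ℝ)) b := by
        rw [h0, cfc_const_zero]
      have := eqOn_of_cfc_eq_cfc e (hfin.continuousOn _) (hfin.continuousOn _) hsa hc
      simp [hf] at this
    · refine ⟨c, ?_⟩
      rw [h1, hbp] at hbq
      rw [Complex.coe_smul]
      exact hbq
  · push Not at hex
    refine ⟨0, ?_⟩
    have e1 : b = cfc (fun x : ℝ => x) b := (cfc_id' ℝ b).symm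
    have e2 : cfc (fun x : ℝ => x) b = cfc (fun _ : ℝ => (0 : ℝ)) b := by
      apply cfc_congr
      intro x hx
      exact hex x hx
    rw [e1, e2, cfc_const_zero]
    simp

theorem Inf1_scalar (𝔄 : StarSubalgebra ℂ (H →L[ℂ] H))
    (hcl : IsClosed (𝔄 : Set (H →L[ℂ] H)))
    (h : ∀ a ∈ 𝔄, IsSelfAdjoint a → (spectrum ℝ a).Finite) (p : H →L[ℂ] H)
    (hp : Inf1Min 𝔄 p) (b : H →L[ℂ] H) (hb : b ∈ 𝔄) (hbp : b * p = b) (hpb : p * b = b) :
    ∃ c : ℂ, b = c • p := by
  have hps := hp.1.2.1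
  have hsb : star b * p = star b := by
    have := congrArg star hpb
    rw [star_mul, hps] at this
    exact this
  obtain ⟨c1, h1⟩ := Inf1_sa_scalar 𝔄 hcl h p hp (b + star b) (add_mem hb (star_mem hb))
    (by show star (b + star b) = b + star b; rw [star_add, star_star, add_comm])
    (by rw [add_mul, hbp, hsb])
  obtain ⟨c2, h2⟩ := Inf1_sa_scalar 𝔄 hcl h p hp (Complex.I • (b - star b))
    (SMulMemClass.smul_mem _ (sub_mem hb (star_mem hb)))
    (by
      show star (Complex.I • (b - star b)) = Complex.I • (b - star b)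
      rw [star_smul, star_sub, star_star]
      simp only [RCLike.star_def, Complex.conj_I, neg_smul]
      rw [← smul_neg, neg_sub])
    (by rw [smul_mul_assoc, sub_mul, hbp, hsb])
  refine ⟨(c1 : ℂ) / 2 + (-Complex.I) * c2 / 2, ?_⟩
  have h3 : b - star b = (-Complex.I * c2) • p := by
    rw [mul_smul, ← h2, smul_smul]
    simp
  have h4 : (2 : ℂ) • b = ((c1 : ℂ) + (-Complex.I) * c2) • p := by
    rw [add_smul, ← h1, ← h3, two_smul]
    abel
  have h5 : b = (2 : ℂ)⁻¹ • ((2 : ℂ) • b) := by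
    rw [smul_smul]; norm_num
  rw [h5, h4, smul_smul]
  congr 1
  ring

theorem Inf1_one_dim (𝔄 : StarSubalgebra ℂ (H →L[ℂ] H))
    (hcl : IsClosed (𝔄 : Set (H →L[ℂ] H)))
    (h : ∀ a ∈ 𝔄, IsSelfAdjoint a → (spectrum ℝ a).Finite) (p r : H →L[ℂ] H)
    (hp : Inf1Min 𝔄 p) (hr : Inf1Min 𝔄 r) :
    ∃ x : H →L[ℂ] H, ∀ z ∈ 𝔄, ∃ c : ℂ, p * z * r = c • x := by
  by_cases hex : ∃ x ∈ 𝔄, p * x * r ≠ 0
  · obtain ⟨x, hx, hx0⟩ := hex
    refine ⟨p * x * r, ?_⟩
    intro z hz
    set X := p * x * r with hX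
    set Z := p * z * r with hZ
    have hpp := hp.1.2.2
    have hrr := hr.1.2.2
    have hps := hp.1.2.1
    have hrs := hr.1.2.1
    have hXm : X ∈ 𝔄 := mul_mem (mul_mem hp.1.1 hx) hr.1.1
    have hZm : Z ∈ 𝔄 := mul_mem (mul_mem hp.1.1 hz) hr.1.1
    have hXr : X * r = X := by rw [hX, mul_assoc, hrr]
    have hZr : Z * r = Z := by rw [hZ, mul_assoc, hrr]
    have hpX : p * X = X := by rw [hX, ← mul_assoc, ← mul_assoc, hpp]
    have hpZ : p * Z = Z := by rw [hZ, ← mul_assoc, ← mul_assoc, hpp]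
    have hrX : r * star X = star X := by
      have := congrArg star hXr
      rwa [star_mul, hrs] at this
    have hXp : star X * p = star X := by
      have := congrArg star hpX
      rwa [star_mul, hps] at this
    obtain ⟨c, hc⟩ := Inf1_scalar 𝔄 hcl h r hr (star X * X) (mul_mem (star_mem hXm) hXm)
      (by rw [mul_assoc, hXr]) (by rw [← mul_assoc, hrX])
    obtain ⟨d, hd⟩ := Inf1_scalar 𝔄 hcl h p hp (Z * star X) (mul_mem hZm (star_mem hXm))
      (by rw [mul_assoc, hXp]) (by rw [← mul_assoc, hpZ])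
    have hc0 : c ≠ 0 := by
      intro h0
      rw [h0, zero_smul] at hc
      exact hx0 (CStarRing.star_mul_self_eq_zero_iff X |>.mp hc)
    have e1 : c • Z = d • X := by
      calc c • Z = Z * (c • r) := by rw [mul_smul_comm, hZr]
        _ = Z * (star X * X) := by rw [hc]
        _ = (Z * star X) * X := (mul_assoc Z (star X) X).symm
        _ = (d • p) * X := by rw [hd]
        _ = d • X := by rw [smul_mul_assoc, hpX]
    refine ⟨c⁻¹ * d, ?_⟩
    rw [mul_smul, ← e1, smul_smul, inv_mul_cancel₀ hc0, one_smul]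
  · push Not at hex
    refine ⟨0, ?_⟩
    intro z hz
    exact ⟨0, by rw [hex z hz]; simp⟩

/-- A closed star algebra of operators whose selfadjoint elements all have finite spectrum is
finite dimensional. -/
theorem finiteDimensional_of_finite_spectrum (𝔄 : StarSubalgebra ℂ (H →L[ℂ] H))
    (hcl : IsClosed (𝔄 : Set (H →L[ℂ] H)))
    (h : ∀ a ∈ 𝔄, IsSelfAdjoint a → (spectrum ℝ a).Finite) :
    FiniteDimensional ℂ 𝔄 := by
  obtain ⟨l, hl, hsum⟩ := Inf1_sum_min 𝔄 hcl h 1
    ⟨one_mem _, star_one _, one_mul _⟩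
  have hx : ∀ p r : H →L[ℂ] H, ∃ x : H →L[ℂ] H, p ∈ l → r ∈ l →
      ∀ z ∈ 𝔄, ∃ c : ℂ, p * z * r = c • x := by
    intro p r
    by_cases h1 : p ∈ l ∧ r ∈ l
    · obtain ⟨x, hx⟩ := Inf1_one_dim 𝔄 hcl h p r (hl p h1.1) (hl r h1.2)
      exact ⟨x, fun _ _ => hx⟩
    · exact ⟨0, fun h2 h3 => absurd ⟨h2, h3⟩ h1⟩
  choose x hx using hx
  set T : Set (H →L[ℂ] H) := (fun pr : (H →L[ℂ] H) × (H →L[ℂ] H) => x pr.1 pr.2) ''
    ({p | p ∈ l} ×ˢ {r | r ∈ l}) with hT
  have hTfin : T.Finite := by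
    apply Set.Finite.image
    exact (List.finite_toSet l).prod (List.finite_toSet l)
  have hfd : FiniteDimensional ℂ (Submodule.span ℂ T) := FiniteDimensional.span_of_finite ℂ hTfin
  have hspan : ∀ z ∈ 𝔄, z ∈ Submodule.span ℂ T := by
    intro z hz
    have key : ∀ l1 l2 : List (H →L[ℂ] H), (∀ p ∈ l1, p ∈ l) → (∀ r ∈ l2, r ∈ l) →
        l1.sum * z * l2.sum ∈ Submodule.span ℂ T := by
      intro l1 l2 h1 h2
      induction l1 with
      | nil => simp
      | cons p l1 ih =>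
        rw [List.sum_cons, add_mul, add_mul]
        refine add_mem ?_ (ih (fun q hq => h1 q (List.mem_cons_of_mem _ hq)))
        have hp := h1 p List.mem_cons_self
        clear ih
        induction l2 with
        | nil => simp
        | cons r l2 ih2 =>
          rw [List.sum_cons, mul_add]
          refine add_mem ?_ (ih2 (fun q hq => h2 q (List.mem_cons_of_mem _ hq)))
          have hr := h2 r List.mem_cons_self
          obtain ⟨c, hc⟩ := hx p r hp hr z hz
          rw [hc]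
          exact Submodule.smul_mem _ _ (Submodule.subset_span ⟨(p, r), ⟨hp, hr⟩, rfl⟩)
    have := key l l (fun _ h => h) (fun _ h => h)
    rwa [hsum, one_mul, mul_one] at this
  let φ : 𝔄 →ₗ[ℂ] Submodule.span ℂ T :=
    { toFun := fun a => ⟨a.1, hspan a.1 a.2⟩
      map_add' := fun a b => rfl
      map_smul' := fun c a => rfl }
  have hφ : Function.Injective φ := by
    intro a b hab
    exact Subtype.ext (show (a : H →L[ℂ] H) = b from congrArg (fun t : Submodule.span ℂ T => (t : H →L[ℂ] H)) hab)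
  exact FiniteDimensional.of_injective φ hφ

end Pool.Agent.MP_86f3ed.Pin
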