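import Pool.Agent.H.MP_86f3ed_an.Pin.PI

open scoped InnerProductSpace Topology

namespace Pool.Agent.MP_86f3ed.Pin

variable {H : Type*} [NormedAddCommGroup H] [InnerProductSpace ℂ H] [CompleteSpace H]

/-- In a complex Hilbert space: a point on which all real functionals vanish that vanish on a real
subspace lies in its closure. -/
theorem kap1_closure {G : Type*} [NormedAddCommGroup G] [InnerProductSpace ℂ G] [CompleteSpace G]
    (R : Set G) (h0 : (0 : G) ∈ R) (hadd : ∀ r ∈ R, ∀ r' ∈ R, r + r' ∈ R)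
    (hsmul : ∀ (c : ℝ), ∀ r ∈ R, (c : ℂ) • r ∈ R) (η : G)
    (h : ∀ w : G, (∀ r ∈ R, (⟪w, r⟫_ℂ).re = 0) → (⟪w, η⟫_ℂ).re = 0) : η ∈ closure R := by
  letI : InnerProductSpace ℝ G := InnerProductSpace.rclikeToReal ℂ G
  let S : Submodule ℝ G :=
    { carrier := R
      add_mem' := fun {a b} ha hb => hadd a ha b hb
      zero_mem' := h0
      smul_mem' := fun c r hr => hsmul c r hr }
  have h1 : η ∈ Sᗮᗮ := by
    rw [Submodule.mem_orthogonal]
    intro w hw
    rw [Submodule.mem_orthogonal] at hw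
    have h2 : ∀ r ∈ R, (⟪w, r⟫_ℂ).re = 0 := by
      intro r hr
      have h3 := hw r hr
      rw [real_inner_comm] at h3
      exact h3
    exact h w h2
  rw [Submodule.orthogonal_orthogonal_eq_closure] at h1
  exact h1

section amp

variable {ι : Type*} [Fintype ι]

/-- The amplification of an operator. -/
noncomputable def kap1_amp (T : H →L[ℂ] H) :
    PiLp 2 (fun _ : ι => H) →L[ℂ] PiLp 2 (fun _ : ι => H) :=
  ((PiLp.continuousLinearEquiv 2 ℂ (fun _ : ι => H)).symm.toContinuousLinearMap).comp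
    ((ContinuousLinearMap.pi fun i => T.comp (ContinuousLinearMap.proj i)).comp
      (PiLp.continuousLinearEquiv 2 ℂ (fun _ : ι => H)).toContinuousLinearMap)

theorem kap1_amp_apply (T : H →L[ℂ] H) (w : PiLp 2 (fun _ : ι => H)) (i : ι) :
    kap1_amp T w i = T (w i) := rfl

/-- The coordinate inclusion. -/
noncomputable def kap1_in [DecidableEq ι] (j : ι) : H →L[ℂ] PiLp 2 (fun _ : ι => H) :=
  ((PiLp.continuousLinearEquiv 2 ℂ (fun _ : ι => H)).symm.toContinuousLinearMap).comp
    (ContinuousLinearMap.single ℂ (fun _ : ι => H) j)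

/-- The coordinate projection. -/
noncomputable def kap1_pr (i : ι) : PiLp 2 (fun _ : ι => H) →L[ℂ] H :=
  (ContinuousLinearMap.proj i).comp
    (PiLp.continuousLinearEquiv 2 ℂ (fun _ : ι => H)).toContinuousLinearMap

theorem kap1_pr_apply (i : ι) (w : PiLp 2 (fun _ : ι => H)) : kap1_pr i w = w i := rfl

theorem kap1_in_apply [DecidableEq ι] (j i : ι) (h : H) :
    kap1_in j h i = if i = j then h else 0 := by
  show (Pi.single j h : ι → H) i = _
  rw [Pi.single_apply]

theorem kap1_amp_in [DecidableEq ι] (T : H →L[ℂ] H) (j : ι) (h : H) :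
    kap1_amp T (kap1_in j h) = kap1_in j (T h) := by
  apply PiLp.ext
  intro i
  rw [kap1_amp_apply, kap1_in_apply, kap1_in_apply]
  split_ifs
  · rfl
  · rw [map_zero]

theorem kap1_sum_in [DecidableEq ι] (w : PiLp 2 (fun _ : ι => H)) :
    ∑ j, kap1_in j (w j) = w := by
  apply PiLp.ext
  intro i
  rw [← kap1_pr_apply, map_sum]
  simp only [kap1_pr_apply, kap1_in_apply]
  rw [Finset.sum_ite_eq Finset.univ i]
  simp

theorem kap1_adj (T : H →L[ℂ] H) (w w' : PiLp 2 (fun _ : ι => H)) :
    ⟪kap1_amp T w, w'⟫_ℂ = ⟪w, kap1_amp (star T) w'⟫_ℂ := by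
  rw [PiLp.inner_apply, PiLp.inner_apply]
  apply Finset.sum_congr rfl
  intro i _
  rw [kap1_amp_apply, kap1_amp_apply, ContinuousLinearMap.star_eq_adjoint,
    ContinuousLinearMap.adjoint_inner_right]

/-- The double commutant theorem, weak form on finitely many vectors. -/
theorem kap1_weak (𝔄 : StarSubalgebra ℂ (H →L[ℂ] H)) {y : H →L[ℂ] H}
    (hy : y ∈ Com (Com 𝔄)) (u v : ι → H) (h : ∀ b ∈ 𝔄, ∑ k, ⟪u k, b (v k)⟫_ℂ = 0) :
    ∑ k, ⟪u k, y (v k)⟫_ℂ = 0 := by
  classical
  set V : PiLp 2 (fun _ : ι => H) := WithLp.toLp 2 v with hV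
  set U : PiLp 2 (fun _ : ι => H) := WithLp.toLp 2 u with hU
  let L0 : Submodule ℂ (PiLp 2 (fun _ : ι => H)) :=
    { carrier := {w | ∃ b ∈ 𝔄, w = kap1_amp b V}
      add_mem' := by
        rintro _ _ ⟨b, hb, rfl⟩ ⟨b', hb', rfl⟩
        refine ⟨b + b', add_mem hb hb', ?_⟩
        apply PiLp.ext
        intro i
        rfl
      zero_mem' := by
        refine ⟨0, zero_mem _, ?_⟩
        apply PiLp.ext
        intro i
        rfl
      smul_mem' := by
        rintro c _ ⟨b, hb, rfl⟩
        refine ⟨c • b, SMulMemClass.smul_mem c hb, ?_⟩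
        apply PiLp.ext
        intro i
        rfl }
  set L := L0.topologicalClosure with hL
  haveI : CompleteSpace L := (Submodule.isClosed_topologicalClosure L0).completeSpace_coe
  have hinv : ∀ a ∈ 𝔄, ∀ w ∈ L, kap1_amp a w ∈ L := by
    intro a ha w hw
    have h1 : ∀ w ∈ L0, kap1_amp a w ∈ L0 := by
      rintro _ ⟨b, hb, rfl⟩
      refine ⟨a * b, mul_mem ha hb, ?_⟩
      apply PiLp.ext
      intro i
      rfl
    have h2 : Set.MapsTo (kap1_amp (ι := ι) a) (L0 : Set _) (L0 : Set _) := h1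
    exact h2.closure (kap1_amp a).continuous hw
  have hcomm : ∀ a ∈ 𝔄, ∀ w, L.starProjection (kap1_amp a w) = kap1_amp a (L.starProjection w) := by
    intro a ha w
    apply Submodule.eq_starProjection_of_mem_of_inner_eq_zero
    · exact hinv a ha _ (Submodule.starProjection_apply_mem L w)
    · intro w' hw'
      rw [← map_sub, kap1_adj]
      exact Submodule.starProjection_inner_eq_zero _ _ (hinv _ (star_mem ha) _ hw')
  have hent : ∀ i j : ι, (kap1_pr i).comp (L.starProjection.comp (kap1_in j)) ∈ Com 𝔄 := by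
    intro i j
    rw [mem_Com]
    intro a ha
    ext x
    show a (kap1_pr i (L.starProjection (kap1_in j x)))
      = kap1_pr i (L.starProjection (kap1_in j (a x)))
    rw [← kap1_amp_in, hcomm a ha]
    rfl
  have hycomm : ∀ w, L.starProjection (kap1_amp y w) = kap1_amp y (L.starProjection w) := by
    intro w
    apply PiLp.ext
    intro i
    rw [kap1_amp_apply]
    have h1 : L.starProjection (kap1_amp y w)
        = ∑ j, L.starProjection (kap1_in j (y (w j))) := by
      rw [← map_sum]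
      congr 1
      exact (kap1_sum_in (kap1_amp y w)).symm
    have h2 : L.starProjection w = ∑ j, L.starProjection (kap1_in j (w j)) := by
      rw [← map_sum, kap1_sum_in]
    rw [h1, h2, ← kap1_pr_apply, ← kap1_pr_apply, map_sum, map_sum, map_sum]
    apply Finset.sum_congr rfl
    intro j _
    have h3 := mem_Com.1 hy _ (hent i j)
    exact congrArg (fun T : H →L[ℂ] H => T (w j)) h3
  have hVL : V ∈ L := by
    apply Submodule.le_topologicalClosure
    refine ⟨1, one_mem _, ?_⟩
    apply PiLp.ext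
    intro i
    rfl
  have hyV : kap1_amp y V ∈ L := by
    rw [← Submodule.starProjection_eq_self_iff, hycomm, Submodule.starProjection_eq_self_iff.2 hVL]
  have hzero : ∀ w ∈ L, ⟪U, w⟫_ℂ = 0 := by
    intro w hw
    have hcl : IsClosed {w : PiLp 2 (fun _ : ι => H) | ⟪U, w⟫_ℂ = 0} :=
      isClosed_eq (continuous_const.inner continuous_id) continuous_const
    have hw' : w ∈ closure (L0 : Set (PiLp 2 (fun _ : ι => H))) := hw
    refine closure_minimal ?_ hcl hw'
    rintro _ ⟨b, hb, rfl⟩
    show ⟪U, kap1_amp b V⟫_ℂ = 0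
    rw [PiLp.inner_apply]
    exact h b hb
  have h4 := hzero _ hyV
  rw [PiLp.inner_apply] at h4
  exact h4

end amp

/-- Double commutant theorem: elements of the bicommutant are approximated, together with their
adjoints, on finitely many vectors by elements of the algebra. -/
theorem double_commutant_star (𝔄 : StarSubalgebra ℂ (H →L[ℂ] H)) {y : H →L[ℂ] H}
    (hy : y ∈ Com (Com 𝔄)) {m : ℕ} (ξ : Fin m → H) {δ : ℝ} (hδ : 0 < δ) :
    ∃ b ∈ 𝔄, ∀ k, ‖(y - b) (ξ k)‖ ≤ δ ∧ ‖star (y - b) (ξ k)‖ ≤ δ := by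
  -- the point of the operator `b`
  let pt : (H →L[ℂ] H) → PiLp 2 (fun _ : Fin m ⊕ Fin m => H) := fun b =>
    WithLp.toLp 2 (Sum.elim (fun k => b (ξ k)) (fun k => star b (ξ k)))
  have hptadd : ∀ b b', pt (b + b') = pt b + pt b' := by
    intro b b'
    apply PiLp.ext
    rintro (k | k)
    · rfl
    · show star (b + b') (ξ k) = star b (ξ k) + star b' (ξ k)
      rw [star_add]
      rfl
  have hptsmul : ∀ (c : ℝ) b, pt ((c : ℂ) • b) = (c : ℂ) • pt b := by
    intro c b
    apply PiLp.ext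
    rintro (k | k)
    · rfl
    · show star ((c : ℂ) • b) (ξ k) = (c : ℂ) • star b (ξ k)
      rw [star_smul]
      have : star (c : ℂ) = (c : ℂ) := Complex.conj_ofReal c
      rw [this]
      rfl
  have hclos : pt y ∈ closure (pt '' (𝔄 : Set (H →L[ℂ] H))) := by
    apply kap1_closure
    · refine ⟨0, zero_mem _, ?_⟩
      have := hptsmul 0 0
      simpa using this
    · rintro _ ⟨b, hb, rfl⟩ _ ⟨b', hb', rfl⟩
      exact ⟨b + b', add_mem hb hb', hptadd b b'⟩
    · rintro c _ ⟨b, hb, rfl⟩
      exact ⟨(c : ℂ) • b, SMulMemClass.smul_mem _ hb, hptsmul c b⟩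
    · intro w hw
      -- the complex linear functional
      let φ : (H →L[ℂ] H) → ℂ := fun b =>
        ∑ s : Fin m ⊕ Fin m, ⟪Sum.elim (fun k => w (Sum.inl k)) ξ s,
          b (Sum.elim ξ (fun k => w (Sum.inr k)) s)⟫_ℂ
      have hφ : ∀ b, (⟪w, pt b⟫_ℂ).re = (φ b).re := by
        intro b
        rw [PiLp.inner_apply]
        show (∑ s : Fin m ⊕ Fin m, ⟪w s, pt b s⟫_ℂ).re = _
        rw [Fintype.sum_sum_type]
        show _ = (∑ s : Fin m ⊕ Fin m, ⟪Sum.elim (fun k => w (Sum.inl k)) ξ s,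
          b (Sum.elim ξ (fun k => w (Sum.inr k)) s)⟫_ℂ).re
        rw [Fintype.sum_sum_type, Complex.add_re, Complex.add_re]
        congr 1
        rw [Complex.re_sum, Complex.re_sum]
        apply Finset.sum_congr rfl
        intro k _
        show (⟪w (Sum.inr k), star b (ξ k)⟫_ℂ).re = (⟪ξ k, b (w (Sum.inr k))⟫_ℂ).re
        rw [ContinuousLinearMap.star_eq_adjoint, ContinuousLinearMap.adjoint_inner_right,
          ← inner_conj_symm, Complex.conj_re]
      have hφ0 : ∀ b ∈ 𝔄, φ b = 0 := by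
        intro b hb
        have h1 : (φ b).re = 0 := by
          rw [← hφ]
          exact hw _ ⟨b, hb, rfl⟩
        have h2 : (φ (Complex.I • b)).re = 0 := by
          rw [← hφ]
          exact hw _ ⟨_, SMulMemClass.smul_mem Complex.I hb, rfl⟩
        have h3 : φ (Complex.I • b) = Complex.I * φ b := by
          show ∑ s : Fin m ⊕ Fin m, _ = _ * ∑ s : Fin m ⊕ Fin m, _
          rw [Finset.mul_sum]
          apply Finset.sum_congr rfl
          intro s _
          rw [smul_apply, inner_smul_right]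
        rw [h3, Complex.mul_re, Complex.I_re, Complex.I_im] at h2
        apply Complex.ext
        · exact h1
        · rw [Complex.zero_im]
          linarith
      have h4 := kap1_weak 𝔄 hy (Sum.elim (fun k => w (Sum.inl k)) ξ)
        (Sum.elim ξ (fun k => w (Sum.inr k))) hφ0
      rw [hφ]
      show (φ y).re = 0
      have h5 : φ y = 0 := h4
      rw [h5, Complex.zero_re]
  obtain ⟨_, ⟨b, hb, rfl⟩, hdist⟩ := Metric.mem_closure_iff.1 hclos δ hδ
  rw [dist_eq_norm] at hdist
  refine ⟨b, hb, fun k => ⟨?_, ?_⟩⟩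
  · have h1 := PiLp.norm_apply_le (pt y - pt b) (Sum.inl k)
    exact h1.trans hdist.le
  · have h1 := PiLp.norm_apply_le (pt y - pt b) (Sum.inr k)
    rw [star_sub]
    exact h1.trans hdist.le

end Pool.Agent.MP_86f3ed.Pin
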