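import Pool.Agent.H.MP_86f3ed_an.Pin.Inf1
import Pool.Agent.H.MP_86f3ed_an.Pin.Kap1

open scoped InnerProductSpace Topology

namespace Pool.Agent.MP_86f3ed.Pin

variable {H : Type*} [NormedAddCommGroup H] [InnerProductSpace ℂ H] [CompleteSpace H]

/-- A finite dimensional space of operators is separated by finitely many vectors. -/
theorem inf2_separate (d : ℕ) : ∀ W : Submodule ℂ (H →L[ℂ] H), FiniteDimensional ℂ W →
    Module.finrank ℂ W = d → ∃ s : List H, ∀ b ∈ W, (∀ x ∈ s, b x = 0) → b = 0 := by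
  induction d using Nat.strong_induction_on with
  | _ d ih =>
    intro W hW hd
    by_cases hbot : W = ⊥
    · refine ⟨[], fun b hb _ => ?_⟩
      rw [hbot] at hb
      exact (Submodule.mem_bot ℂ).1 hb
    · obtain ⟨b, hb, hb0⟩ := Submodule.exists_mem_ne_zero_of_ne_bot hbot
      obtain ⟨x, hx⟩ : ∃ x, b x ≠ 0 := by
        by_contra hcon
        push Not at hcon
        exact hb0 (ContinuousLinearMap.ext hcon)
      let K : Submodule ℂ (H →L[ℂ] H) :=
        W ⊓ LinearMap.ker ((ContinuousLinearMap.apply ℂ H x).toLinearMap)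
      have hlt : K < W := by
        refine lt_of_le_of_ne inf_le_left fun h => hx ?_
        have : b ∈ K := by rw [h]; exact hb
        exact LinearMap.mem_ker.1 (Submodule.mem_inf.1 this).2
      have hrank : Module.finrank ℂ K < d := by
        rw [← hd]
        exact Submodule.finrank_lt_finrank_of_lt hlt
      have hK : FiniteDimensional ℂ K := Submodule.finiteDimensional_of_le hlt.le
      obtain ⟨s, hs⟩ := ih _ hrank K hK rfl
      refine ⟨x :: s, fun c hc hcs => hs c ?_ fun y hy => hcs y (List.mem_cons_of_mem _ hy)⟩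
      exact Submodule.mem_inf.2 ⟨hc, LinearMap.mem_ker.2 (hcs x List.mem_cons_self)⟩

/-- A finite dimensional algebra of operators contains its bicommutant. -/
theorem inf2_mem (𝔄 : StarSubalgebra ℂ (H →L[ℂ] H)) [FiniteDimensional ℂ 𝔄]
    {v : H →L[ℂ] H} (hv : v ∈ Com (Com 𝔄)) : v ∈ 𝔄 := by
  let A : Submodule ℂ (H →L[ℂ] H) := Subalgebra.toSubmodule 𝔄.toSubalgebra
  have hA : FiniteDimensional ℂ A := ‹FiniteDimensional ℂ 𝔄›
  let W : Submodule ℂ (H →L[ℂ] H) := A ⊔ Submodule.span ℂ {v}
  have hW : FiniteDimensional ℂ W := Submodule.finiteDimensional_sup _ _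
  obtain ⟨s, hs⟩ := inf2_separate (Module.finrank ℂ W) W hW rfl
  let ξ : Fin s.length → H := fun k => s.get k
  let J : (H →L[ℂ] H) →ₗ[ℂ] (Fin s.length → H) :=
    LinearMap.pi fun k => (ContinuousLinearMap.apply ℂ H (ξ k)).toLinearMap
  have hJ : ∀ b k, J b k = b (ξ k) := fun b k => rfl
  have hclosed : IsClosed ((A.map J : Submodule ℂ (Fin s.length → H)) :
      Set (Fin s.length → H)) := Submodule.closed_of_finiteDimensional _
  have hmem : J v ∈ closure ((A.map J : Submodule ℂ (Fin s.length → H)) :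
      Set (Fin s.length → H)) := by
    rw [Metric.mem_closure_iff]
    intro ε hε
    obtain ⟨b, hb, hbb⟩ := double_commutant_star 𝔄 hv ξ (half_pos hε)
    refine ⟨J b, Submodule.mem_map_of_mem hb, ?_⟩
    refine lt_of_le_of_lt ?_ (half_lt_self hε)
    rw [dist_pi_le_iff (half_pos hε).le]
    intro k
    rw [dist_eq_norm, hJ, hJ]
    exact (hbb k).1
  rw [hclosed.closure_eq] at hmem
  obtain ⟨b, hb, hbv⟩ := Submodule.mem_map.1 hmem
  have hbA : b ∈ 𝔄 := hb
  have hvb : v - b = 0 := by
    apply hs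
    · apply Submodule.sub_mem
      · exact Submodule.mem_sup_right (Submodule.mem_span_singleton_self v)
      · exact Submodule.mem_sup_left hb
    · intro x hx
      obtain ⟨k, rfl⟩ := List.get_of_mem hx
      have := congrFun hbv k
      rw [hJ, hJ] at this
      change v (s.get k) - b (s.get k) = 0
      change b (s.get k) = v (s.get k) at this
      rw [this, sub_self]
  rw [sub_eq_zero] at hvb
  rw [hvb]
  exact hbA

/-- If the bicommutant contains a proper isometry then some selfadjoint element of the algebra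
has infinite spectrum. -/
theorem exists_infinite_spectrum (𝔄 : StarSubalgebra ℂ (H →L[ℂ] H))
    (hcl : IsClosed (𝔄 : Set (H →L[ℂ] H)))
    {v : H →L[ℂ] H} (hv : v ∈ Com (Com 𝔄)) (hv1 : star v * v = 1) (hv2 : v * star v ≠ 1) :
    ∃ a ∈ 𝔄, IsSelfAdjoint a ∧ (spectrum ℝ a).Infinite := by
  by_contra hcon
  have hfin : ∀ a ∈ 𝔄, IsSelfAdjoint a → (spectrum ℝ a).Finite := by
    intro a ha hs
    by_contra h
    exact hcon ⟨a, ha, hs, h⟩
  have : FiniteDimensional ℂ 𝔄 := finiteDimensional_of_finite_spectrum 𝔄 hcl hfin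
  have hvA : v ∈ 𝔄 := inf2_mem 𝔄 hv
  let L : 𝔄 →ₗ[ℂ] 𝔄 := LinearMap.mulLeft ℂ (⟨v, hvA⟩ : 𝔄)
  have hinj : Function.Injective L := by
    intro a b hab
    have h1 : v * (a : H →L[ℂ] H) = v * (b : H →L[ℂ] H) := congrArg Subtype.val hab
    apply Subtype.ext
    calc (a : H →L[ℂ] H) = star v * v * a := by rw [hv1, one_mul]
      _ = star v * (v * a) := by rw [mul_assoc]
      _ = star v * (v * b) := by rw [h1]
      _ = star v * v * b := by rw [mul_assoc]
      _ = b := by rw [hv1, one_mul]
  have hsurj : Function.Surjective L := LinearMap.injective_iff_surjective.1 hinj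
  obtain ⟨b, hb⟩ := hsurj 1
  have hb1 : v * (b : H →L[ℂ] H) = 1 := congrArg Subtype.val hb
  apply hv2
  have hb2 : (b : H →L[ℂ] H) = star v := by
    calc (b : H →L[ℂ] H) = star v * v * b := by rw [hv1, one_mul]
      _ = star v * (v * b) := by rw [mul_assoc]
      _ = star v := by rw [hb1, mul_one]
  rw [← hb2]
  exact hb1

end Pool.Agent.MP_86f3ed.Pin
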