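import Pool.Agent.H.MP_86f3ed_an.Pin.Enc

open scoped Topology
open Filter

namespace Pool.Agent.MP_86f3ed.Pin
namespace BM

variable {M F : Type*} [NormedRing M] [NormedAlgebra ℂ M] [NormedAddCommGroup F]
    [NormedSpace ℂ F] {B : BM M F} {S : Subalgebra ℂ M}

theorem FT.mono {n : ℕ} {C θ θ' : ℝ} (h : B.FT S n C θ) (hθ : θ ≤ θ') : B.FT S n C θ' := by
  intro f
  obtain ⟨a, φ, h1, h2, h3⟩ := h f
  exact ⟨a, φ, h1, h2, h3.trans (mul_le_mul_of_nonneg_right hθ (norm_nonneg _))⟩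

theorem FT.iter {n : ℕ} {C θ : ℝ} (hC : 0 ≤ C) (h0 : 0 ≤ θ) (h1 : θ ≤ 1) (h : B.FT S n C θ)
    (r : ℕ) : ∃ m, B.FT S m C (θ ^ r) := by
  induction r with
  | zero =>
    refine ⟨0, fun f => ⟨Fin.elim0, Fin.elim0, fun k => k.elim0, fun k => k.elim0, ?_⟩⟩
    simp
  | succ r ih =>
    obtain ⟨m, hm⟩ := ih
    refine ⟨m + n, fun f => ?_⟩
    obtain ⟨a, φ, ha, hφ, hr⟩ := hm f
    obtain ⟨a', φ', ha', hφ', hr'⟩ := h (f - ∑ k, B.D (a k) (φ k))
    refine ⟨Fin.append a a', Fin.append φ φ', ?_, ?_, ?_⟩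
    · intro k
      refine Fin.addCases (fun k => ?_) (fun k => ?_) k
      · rw [Fin.append_left]; exact ha k
      · rw [Fin.append_right]; exact ha' k
    · intro k
      refine Fin.addCases (fun k => ?_) (fun k => ?_) k
      · rw [Fin.append_left]; exact hφ k
      · rw [Fin.append_right]
        refine (hφ' k).trans (mul_le_mul_of_nonneg_left ?_ hC)
        exact hr.trans (mul_le_of_le_one_left (norm_nonneg _) (pow_le_one₀ h0 h1))
    · rw [Fin.sum_univ_add]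
      simp only [Fin.append_left, Fin.append_right]
      rw [← sub_sub]
      refine hr'.trans ?_
      rw [pow_succ', mul_assoc]
      exact mul_le_mul_of_nonneg_left hr h0

/-- The encoding theorem for any contraction constant `θ < 1`. -/
theorem encode_of_lt_one [CompleteSpace M] [CompleteSpace F] (hS : IsClosed (S : Set M))
    (hA : B.Appr S) (s : Slots S) {n : ℕ} {C θ : ℝ} (hC : 0 ≤ C) (h0 : 0 ≤ θ) (h1 : θ < 1)
    (hFT : B.FT S n C θ) (f : F) :
    ∃ (m : ℕ) (c : Fin m → M) (φ : Fin m → F), (∀ k, c k ∈ S) ∧ f = ∑ k, B.D (c k) (φ k) := by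
  obtain ⟨r, hr⟩ := exists_pow_lt_of_lt_one (show (0 : ℝ) < 1/16 by norm_num) h1
  obtain ⟨m, hm⟩ := hFT.iter hC h0 h1.le r
  exact encode hS hA s hC (hm.mono hr.le) f

end BM
end Pool.Agent.MP_86f3ed.Pin
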