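import Pool.Agent.H.MP_86f3ed_an.Pin.Kap1

open scoped InnerProductSpace Topology

namespace Pool.Agent.MP_86f3ed.Pin

section Kap2

variable {A : Type*} [CStarAlgebra A]

/-- `(1 + b* b)⁻¹`. -/
noncomputable def kap2R (b : A) : A := cfc (fun t : ℝ => (1 + t)⁻¹) (star b * b)

theorem kap2_cont (b : A) : ContinuousOn (fun t : ℝ => (1 + t)⁻¹) (spectrum ℝ (star b * b)) := by
  apply ContinuousOn.inv₀ (by fun_prop)
  intro t ht
  have := spectrum_star_mul_self_nonneg t ht
  positivity

theorem kap2R_star (b : A) : star (kap2R b) = kap2R b :=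
  (cfc_predicate (R := ℝ) (fun t : ℝ => (1 + t)⁻¹) (star b * b) : IsSelfAdjoint _).star_eq

theorem kap2R_mul (b : A) : (1 + star b * b) * kap2R b = 1 := by
  have h1 : (1 + star b * b) = cfc (fun t : ℝ => 1 + t) (star b * b) := by
    rw [cfc_add (R := ℝ) (star b * b) (fun _ => 1) (fun t => t), cfc_const_one ℝ (star b * b),
      cfc_id' ℝ (star b * b)]
  rw [h1, kap2R, ← cfc_mul (fun t : ℝ => 1 + t) (fun t : ℝ => (1 + t)⁻¹) (star b * b)
    (by fun_prop) (kap2_cont b), ← cfc_const_one ℝ (star b * b)]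
  apply cfc_congr
  intro t ht
  have := spectrum_star_mul_self_nonneg t ht
  have h2 : (1 + t) ≠ 0 := by positivity
  simp [h2]

theorem kap2R_mul' (b : A) : kap2R b * (1 + star b * b) = 1 := by
  have := congrArg star (kap2R_mul b)
  rw [star_mul, kap2R_star] at this
  simpa using this

theorem kap2R_comm (b : A) : b * kap2R b = kap2R (star b) * b := by
  have h1 := kap2R_mul' (star b)
  have h2 := kap2R_mul b
  rw [star_star] at h1
  calc b * kap2R b = (kap2R (star b) * (1 + b * star b)) * b * kap2R b := by rw [h1, one_mul]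
    _ = kap2R (star b) * b * ((1 + star b * b) * kap2R b) := by noncomm_ring
    _ = kap2R (star b) * b := by rw [h2, mul_one]

theorem kap2_norm_one (b : A) : ‖b * kap2R b‖ ≤ 1 / 2 := by
  have h1 : star (b * kap2R b) * (b * kap2R b) =
      cfc (fun t : ℝ => t * ((1 + t)⁻¹ * (1 + t)⁻¹)) (star b * b) := by
    rw [star_mul, kap2R_star,
      cfc_mul (fun t : ℝ => t) (fun t : ℝ => (1 + t)⁻¹ * (1 + t)⁻¹) (star b * b)
      (by fun_prop) ((kap2_cont b).mul (kap2_cont b)),
      cfc_mul (fun t : ℝ => (1 + t)⁻¹) (fun t : ℝ => (1 + t)⁻¹) (star b * b)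
      (kap2_cont b) (kap2_cont b), cfc_id' ℝ (star b * b)]
    change kap2R b * star b * (b * kap2R b) = star b * b * (kap2R b * kap2R b)
    have h2 : kap2R b * (star b * b) = (star b * b) * kap2R b := by
      have h3 := kap2R_mul b
      have h4 := kap2R_mul' b
      rw [add_mul, one_mul] at h3
      rw [mul_add, mul_one] at h4
      exact add_left_cancel (h4.trans h3.symm)
    calc kap2R b * star b * (b * kap2R b) = kap2R b * (star b * b) * kap2R b := by noncomm_ring
      _ = _ := by rw [h2, mul_assoc]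
  have h2 : ‖star (b * kap2R b) * (b * kap2R b)‖ ≤ 1 / 4 := by
    rw [h1]
    apply norm_cfc_le (by norm_num)
    intro t ht
    have h0 := spectrum_star_mul_self_nonneg t ht
    have h3 : (0 : ℝ) < 1 + t := by positivity
    rw [Real.norm_of_nonneg (by positivity)]
    rw [← mul_inv, ← div_eq_mul_inv, div_le_iff₀ (by positivity)]
    nlinarith [sq_nonneg (1 - t)]
  rw [CStarRing.norm_star_mul_self] at h2
  nlinarith [norm_nonneg (b * kap2R b)]

theorem kap2_norm_two (b : A) : ‖b * kap2R b * star b‖ ≤ 1 := by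
  rw [kap2R_comm, mul_assoc]
  have h1 : kap2R (star b) * (b * star b) =
      cfc (fun t : ℝ => (1 + t)⁻¹ * t) (star (star b) * star b) := by
    rw [cfc_mul (fun t : ℝ => (1 + t)⁻¹) (fun t : ℝ => t) (star (star b) * star b)
      (kap2_cont (star b)) (by fun_prop), cfc_id' ℝ (star (star b) * star b)]
    rw [kap2R, star_star]
  rw [h1]
  apply norm_cfc_le (by norm_num)
  intro t ht
  have h0 := spectrum_star_mul_self_nonneg t ht
  have h3 : (0 : ℝ) < 1 + t := by positivity
  rw [Real.norm_of_nonneg (by positivity), inv_mul_eq_div, div_le_iff₀ h3]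
  linarith

/-- `F(b) = 2 b (1 + b* b)⁻¹`. -/
noncomputable def kap2F (b : A) : A := b * kap2R b + b * kap2R b

theorem kap2F_norm (b : A) : ‖kap2F b‖ ≤ 1 := by
  have := norm_add_le (b * kap2R b) (b * kap2R b)
  have h2 := kap2_norm_one b
  unfold kap2F
  linarith

theorem kap2F_norm_star (b : A) : ‖kap2F b * star b‖ ≤ 2 := by
  have := norm_add_le (b * kap2R b * star b) (b * kap2R b * star b)
  have h2 := kap2_norm_two b
  unfold kap2F
  rw [add_mul]
  linarith

theorem kap2F_star (b : A) : star (kap2F b) = kap2F (star b) := by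
  unfold kap2F
  rw [star_add, star_mul, kap2R_star, kap2R_comm (star b), star_star]

theorem kap2F_diff (b y : A) : kap2F b - kap2F y =
    -((y - b) * kap2R y + (y - b) * kap2R y) + kap2F b * (star (y - b) * (y * kap2R y))
      + kap2F b * star b * ((y - b) * kap2R y) := by
  have h1 := kap2R_mul y
  have h2 : kap2F b * (1 + star b * b) = b + b := by
    unfold kap2F
    rw [add_mul, mul_assoc, kap2R_mul', mul_one]
  have h3 : kap2F b = kap2F b * ((1 + star y * y) * kap2R y) := by rw [h1, mul_one]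
  calc kap2F b - kap2F y = kap2F b * ((1 + star y * y) * kap2R y) -
        (y * kap2R y + y * kap2R y) := by rw [← h3]; rfl
    _ = (kap2F b * (1 + star b * b)) * kap2R y - (y * kap2R y + y * kap2R y)
        + kap2F b * (star (y - b) * (y * kap2R y))
      + kap2F b * star b * ((y - b) * kap2R y) := by
        rw [star_sub]
        noncomm_ring
    _ = _ := by
        rw [h2]
        noncomm_ring

theorem kap2_exists {x : A} (hx1 : ‖x‖ ≤ 1) {S : StarSubalgebra ℂ A}
    (hcl : IsClosed (S : Set A)) (hx : x ∈ S) : ∃ y ∈ S, kap2F y = x := by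
  set h : A := star x * x with hh
  have hsp : ∀ t ∈ spectrum ℝ h, 0 ≤ t ∧ t ≤ 1 := by
    intro t ht
    refine ⟨spectrum_star_mul_self_nonneg t ht, ?_⟩
    have h1 : ‖h‖ ≤ 1 := by
      rw [hh, CStarRing.norm_star_mul_self]
      nlinarith [norm_nonneg x]
    have h2 := spectrum.norm_le_norm_mul_of_mem ht
    rcases subsingleton_or_nontrivial A with hA | hA
    · rw [spectrum.of_subsingleton] at ht
      exact absurd ht (Set.notMem_empty t)
    rw [norm_one, mul_one] at h2
    exact (le_abs_self t).trans (h2.trans h1)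
  have hsa : IsSelfAdjoint h := IsSelfAdjoint.star_mul_self x
  have hc1 : ContinuousOn (fun t : ℝ => √(1 - t)) (spectrum ℝ h) := by fun_prop
  have hc2 : ContinuousOn (fun t : ℝ => (1 + √(1 - t))⁻¹) (spectrum ℝ h) := by
    apply ContinuousOn.inv₀ (by fun_prop)
    intro t _
    positivity
  set s : A := cfc (fun t : ℝ => √(1 - t)) h with hs
  set G : A := cfc (fun t : ℝ => (1 + √(1 - t))⁻¹) h with hG
  have hss : s * s = 1 - h := by
    rw [hs, ← cfc_mul (fun t : ℝ => √(1 - t)) (fun t : ℝ => √(1 - t)) h hc1 hc1]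
    have e1 : (1 - h) = cfc (fun t : ℝ => 1 - t) h := by
      rw [cfc_sub (fun _ => 1) (fun t => t) h, cfc_const_one ℝ h, cfc_id' ℝ h]
    rw [e1]
    apply cfc_congr
    intro t ht
    exact Real.mul_self_sqrt (by linarith [(hsp t ht).2])
  have hGs : G * (1 + s) = 1 := by
    have e1 : (1 + s) = cfc (fun t : ℝ => 1 + √(1 - t)) h := by
      rw [cfc_add h (fun _ => 1) (fun t => √(1 - t)) (by fun_prop) hc1, cfc_const_one ℝ h]
    rw [e1, hG, ← cfc_mul (fun t : ℝ => (1 + √(1 - t))⁻¹) (fun t : ℝ => 1 + √(1 - t)) h hc2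
      (by fun_prop), ← cfc_const_one ℝ h]
    apply cfc_congr
    intro t _
    have : (1 + √(1 - t)) ≠ 0 := by positivity
    simp [this]
  have hGsa : star G = G := (cfc_predicate (R := ℝ) (fun t : ℝ => (1 + √(1 - t))⁻¹) h :
    IsSelfAdjoint _).star_eq
  have hssa : star s = s := (cfc_predicate (R := ℝ) (fun t : ℝ => √(1 - t)) h :
    IsSelfAdjoint _).star_eq
  have hGs' : (1 + s) * G = 1 := by
    have := congrArg star hGs
    rw [star_mul, hGsa] at this
    simpa [hssa] using this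
  have hGmem : G ∈ S := by
    have hhm : h ∈ S := mul_mem (star_mem hx) hx
    have : IsClosed (S : Set A) := hcl
    exact cfc_mem (𝕜' := ℂ) _ hhm
  refine ⟨x * G, mul_mem hx hGmem, ?_⟩
  -- `y* y = G h G`
  have hyy : (1 + star (x * G) * (x * G)) * (1 + s) = 1 + 1 := by
    have e1 : h = (1 + s) * (1 - s) := by
      have : h = 1 - s * s := by rw [hss]; abel
      rw [this]; noncomm_ring
    rw [star_mul, hGsa]
    calc (1 + G * star x * (x * G)) * (1 + s) = (1 + s) + G * h * (G * (1 + s)) := by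
          rw [hh]; noncomm_ring
      _ = (1 + s) + (G * (1 + s)) * (1 - s) := by rw [hGs, mul_one, one_mul, e1, ← mul_assoc, hGs,
            one_mul]
      _ = 1 + 1 := by rw [hGs]; noncomm_ring
  have hR : kap2R (x * G) + kap2R (x * G) = 1 + s := by
    calc kap2R (x * G) + kap2R (x * G) = kap2R (x * G) * (1 + 1) := by noncomm_ring
      _ = kap2R (x * G) * ((1 + star (x * G) * (x * G)) * (1 + s)) := by rw [hyy]
      _ = 1 + s := by rw [← mul_assoc, kap2R_mul', one_mul]
  calc kap2F (x * G) = x * G * (kap2R (x * G) + kap2R (x * G)) := by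
        unfold kap2F; rw [mul_add]
    _ = x * (G * (1 + s)) := by rw [hR, mul_assoc]
    _ = x := by rw [hGs, mul_one]

theorem kap2R_mem {S : StarSubalgebra ℂ A} (hcl : IsClosed (S : Set A)) {b : A} (hb : b ∈ S) :
    kap2R b ∈ S := by
  have : IsClosed (S : Set A) := hcl
  exact cfc_mem (𝕜' := ℂ) _ (mul_mem (star_mem hb) hb)

theorem kap2F_mem {S : StarSubalgebra ℂ A} (hcl : IsClosed (S : Set A)) {b : A} (hb : b ∈ S) :
    kap2F b ∈ S :=
  add_mem (mul_mem hb (kap2R_mem hcl hb)) (mul_mem hb (kap2R_mem hcl hb))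

end Kap2

variable {H : Type*} [NormedAddCommGroup H] [InnerProductSpace ℂ H] [CompleteSpace H]

theorem kap2_vec (b y : H →L[ℂ] H) (η : H) {δ : ℝ} (h1 : ‖(y - b) (kap2R y η)‖ ≤ δ)
    (h2 : ‖star (y - b) (y (kap2R y η))‖ ≤ δ) : ‖(kap2F y - kap2F b) η‖ ≤ 5 * δ := by
  have hF := kap2F_norm b
  have hFs := kap2F_norm_star b
  have h3 : (kap2F y - kap2F b) η = (y - b) (kap2R y η) + (y - b) (kap2R y η)
      - kap2F b (star (y - b) (y (kap2R y η))) - (kap2F b * star b) ((y - b) (kap2R y η)) := by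
    have h4 := congrArg (fun T : H →L[ℂ] H => -(T η)) (kap2F_diff b y)
    have h5 : (kap2F y - kap2F b) η = -((kap2F b - kap2F y) η) := by
      rw [← neg_sub (kap2F b) (kap2F y)]; rfl
    rw [h5]
    refine h4.trans ?_
    simp only [add_apply, neg_apply, mul_apply_eq_comp]
    abel
  have h6 : ‖kap2F b (star (y - b) (y (kap2R y η)))‖ ≤ 1 * δ :=
    ((kap2F b).le_opNorm _).trans (mul_le_mul hF h2 (norm_nonneg _) (by norm_num))
  have h7 : ‖(kap2F b * star b) ((y - b) (kap2R y η))‖ ≤ 2 * δ :=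
    ((kap2F b * star b).le_opNorm _).trans (mul_le_mul hFs h1 (norm_nonneg _) (by norm_num))
  rw [h3]
  have n1 := norm_sub_le ((y - b) (kap2R y η) + (y - b) (kap2R y η)
      - kap2F b (star (y - b) (y (kap2R y η)))) ((kap2F b * star b) ((y - b) (kap2R y η)))
  have n2 := norm_sub_le ((y - b) (kap2R y η) + (y - b) (kap2R y η))
    (kap2F b (star (y - b) (y (kap2R y η))))
  have n3 := norm_add_le ((y - b) (kap2R y η)) ((y - b) (kap2R y η))
  linarith

/-- Kaplansky density theorem (strong star version on finitely many vectors). -/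
theorem kaplansky (𝔄 : StarSubalgebra ℂ (H →L[ℂ] H)) (hcl : IsClosed (𝔄 : Set (H →L[ℂ] H)))
    {x : H →L[ℂ] H} (hx : x ∈ Com (Com 𝔄)) (hx1 : ‖x‖ ≤ 1) {m : ℕ} (ξ : Fin m → H) {δ : ℝ}
    (hδ : 0 < δ) :
    ∃ a ∈ 𝔄, ‖a‖ ≤ 1 ∧ ∀ k, ‖(x - a) (ξ k)‖ ≤ δ ∧ ‖star (x - a) (ξ k)‖ ≤ δ := by
  have hcl2 : IsClosed (Com (Com 𝔄) : Set (H →L[ℂ] H)) := by
    rw [StarSubalgebra.coe_centralizer]
    exact Set.isClosed_centralizer _
  obtain ⟨y, hy, hyx⟩ := kap2_exists hx1 hcl2 hx
  let w : Fin m × Fin 4 → H := fun p =>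
    ![kap2R y (ξ p.1), y (kap2R y (ξ p.1)), kap2R (star y) (ξ p.1),
      (star y) (kap2R (star y) (ξ p.1))] p.2
  obtain ⟨b, hb, hbk⟩ := double_commutant_star 𝔄 hy (m := m * 4)
    (fun i => w (finProdFinEquiv.symm i)) (δ := δ / 5) (by positivity)
  have hw : ∀ p, ‖(y - b) (w p)‖ ≤ δ / 5 ∧ ‖star (y - b) (w p)‖ ≤ δ / 5 := by
    intro p
    have := hbk (finProdFinEquiv p)
    rwa [Equiv.symm_apply_apply] at this
  refine ⟨kap2F b, kap2F_mem hcl hb, kap2F_norm b, fun k => ?_⟩
  constructor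
  · rw [← hyx]
    have := kap2_vec b y (ξ k) (hw (k, 0)).1 (hw (k, 1)).2
    linarith
  · rw [← hyx, star_sub, kap2F_star, kap2F_star]
    have h1 := (hw (k, 2)).2
    have h2 := (hw (k, 3)).1
    have := kap2_vec (star b) (star y) (ξ k) (δ := δ / 5)
      (by rw [← star_sub]; exact h1) (by rw [← star_sub, star_star]; exact h2)
    linarith

end Pool.Agent.MP_86f3ed.Pin
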