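import Pool.Agent.H.MP_86f3ed_an.Pin.Step
import Pool.Agent.H.MP_86f3ed_an.Pin.Fin2
import Pool.Agent.H.MP_86f3ed_an.Pin.Iter
import Pool.Agent.H.MP_86f3ed_an.Pin.Kap2
import Pool.Agent.H.MP_86f3ed_an.Pin.Inf2

open scoped InnerProductSpace Topology
open Filter ContinuousLinearMap

namespace Pool.Agent.MP_86f3ed.Pin

variable {H : Type*} [NormedAddCommGroup H] [InnerProductSpace ℂ H] [CompleteSpace H]

/-- The commutant is the range of a projection of norm one. -/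
def InjCom (𝔄 : StarSubalgebra ℂ (H →L[ℂ] H)) : Prop :=
  ∃ E : (H →L[ℂ] H) →ₗ[ℂ] (H →L[ℂ] H), (∀ S, ‖E S‖ ≤ ‖S‖) ∧ (∀ S, E S ∈ Com 𝔄) ∧
    ∀ S ∈ Com 𝔄, E S = S

/-- The map `S ↦ star (Ψ Q) * Ψ (Q * S)`. -/
noncomputable def gram {N : StarSubalgebra ℂ (H →L[ℂ] H)} (Ψ : X N) (Q : H →L[ℂ] H) :
    (H →L[ℂ] H) →ₗ[ℂ] (H →L[ℂ] H) where
  toFun S := star (Ψ.ap Q) * Ψ.ap (Q * S)
  map_add' S S' := by rw [mul_add, X.ap_add, mul_add]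
  map_smul' c S := by rw [mul_smul_comm, X.ap_smul, mul_smul_comm, RingHom.id_apply]

theorem gram_apply {N : StarSubalgebra ℂ (H →L[ℂ] H)} (Ψ : X N) (Q S : H →L[ℂ] H) :
    gram Ψ Q S = star (Ψ.ap Q) * Ψ.ap (Q * S) := rfl

theorem norm_gram_le {N : StarSubalgebra ℂ (H →L[ℂ] H)} {Ψ : X N} {Q : H →L[ℂ] H}
    (hΨ : ‖Ψ‖ ≤ 1) (hQ : ‖Q‖ ≤ 1) (S : H →L[ℂ] H) : ‖gram Ψ Q S‖ ≤ ‖S‖ := by
  rw [gram_apply]
  refine (norm_mul_le _ _).trans ?_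
  have h1 : ‖star (Ψ.ap Q)‖ ≤ 1 := by
    rw [norm_star]
    exact (X.norm_ap_le Ψ Q).trans (mul_le_one₀ hΨ (norm_nonneg _) hQ)
  have h2 : ‖Ψ.ap (Q * S)‖ ≤ ‖S‖ := by
    refine (X.norm_ap_le Ψ _).trans ?_
    refine (mul_le_of_le_one_left (norm_nonneg _) hΨ).trans ?_
    exact (norm_mul_le _ _).trans (mul_le_of_le_one_left (norm_nonneg _) hQ)
  calc ‖star (Ψ.ap Q)‖ * ‖Ψ.ap (Q * S)‖ ≤ 1 * ‖S‖ :=
        mul_le_mul h1 h2 (norm_nonneg _) zero_le_one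
    _ = ‖S‖ := one_mul _

theorem gram_comm {N : StarSubalgebra ℂ (H →L[ℂ] H)} {Ψ : X N} {Q : H →L[ℂ] H}
    (hΨ : ‖Ψ‖ ≤ 1) (hQ : ‖Q‖ ≤ 1) (g : Com N) {ε : ℝ}
    (h1 : ‖lX N g Ψ - rX N g Ψ‖ ≤ ε) (h2 : ‖lX N (star g) Ψ - rX N (star g) Ψ‖ ≤ ε)
    (S : H →L[ℂ] H) :
    ‖(g : H →L[ℂ] H) * gram Ψ Q S - gram Ψ Q S * (g : H →L[ℂ] H)‖ ≤ 2 * ε * ‖S‖ := by
  have hε : 0 ≤ ε := (norm_nonneg _).trans h1
  set V := Ψ.ap Q with hV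
  have hVn : ‖V‖ ≤ 1 := (X.norm_ap_le Ψ Q).trans (mul_le_one₀ hΨ (norm_nonneg _) hQ)
  have e1 : ‖(g : H →L[ℂ] H) * star V - star V * (g : H →L[ℂ] H)‖ ≤ ε := by
    have e2 : (g : H →L[ℂ] H) * star V - star V * (g : H →L[ℂ] H) =
        -star ((lX N (star g) Ψ - rX N (star g) Ψ).ap Q) := by
      rw [commutator_ap]
      show _ = -star (star (g : H →L[ℂ] H) * V - V * star (g : H →L[ℂ] H))
      rw [star_sub, star_mul, star_mul, star_star]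
      abel
    rw [e2, norm_neg, norm_star]
    refine (X.norm_ap_le _ Q).trans ?_
    exact (mul_le_of_le_one_right (norm_nonneg _) hQ).trans h2
  have hQS : ‖Q * S‖ ≤ ‖S‖ :=
    (norm_mul_le _ _).trans (mul_le_of_le_one_left (norm_nonneg _) hQ)
  have hW : ‖Ψ.ap (Q * S)‖ ≤ ‖S‖ :=
    (X.norm_ap_le Ψ _).trans ((mul_le_of_le_one_left (norm_nonneg _) hΨ).trans hQS)
  have e3 : ‖(g : H →L[ℂ] H) * Ψ.ap (Q * S) - Ψ.ap (Q * S) * (g : H →L[ℂ] H)‖ ≤ ε * ‖S‖ := by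
    rw [← commutator_ap]
    exact (X.norm_ap_le _ _).trans (mul_le_mul h1 hQS (norm_nonneg _) hε)
  have e4 : (g : H →L[ℂ] H) * gram Ψ Q S - gram Ψ Q S * (g : H →L[ℂ] H) =
      ((g : H →L[ℂ] H) * star V - star V * (g : H →L[ℂ] H)) * Ψ.ap (Q * S) +
      star V * ((g : H →L[ℂ] H) * Ψ.ap (Q * S) - Ψ.ap (Q * S) * (g : H →L[ℂ] H)) := by
    rw [gram_apply]
    noncomm_ring
  rw [e4]
  refine (norm_add_le _ _).trans ?_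
  have e5 : ‖((g : H →L[ℂ] H) * star V - star V * (g : H →L[ℂ] H)) * Ψ.ap (Q * S)‖ ≤
      ε * ‖S‖ := (norm_mul_le _ _).trans (mul_le_mul e1 hW (norm_nonneg _) hε)
  have e6 : ‖star V * ((g : H →L[ℂ] H) * Ψ.ap (Q * S) - Ψ.ap (Q * S) * (g : H →L[ℂ] H))‖ ≤
      1 * (ε * ‖S‖) := (norm_mul_le _ _).trans (mul_le_mul (by rw [norm_star]; exact hVn) e3
        (norm_nonneg _) zero_le_one)
  linarith

/-- Limit argument: a net of almost commuting maps which do not vanish at `ξ₀` gives a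
projection of norm one. -/
theorem injCom_of_net {𝔄 : StarSubalgebra ℂ (H →L[ℂ] H)}
    (hPI : PurelyInfinite (Com 𝔄 : Set (H →L[ℂ] H))) {ξ₀ : H} {c : ℝ} (hc : 0 < c)
    (h : ∀ (n : ℕ) (G : Finset (Com (Com 𝔄))), (∀ g ∈ G, g ∈ SubA 𝔄) →
      ∃ (Q : H →L[ℂ] H) (Ψ : X (Com 𝔄)), ‖Q‖ ≤ 1 ∧ ‖Ψ‖ ≤ 1 ∧
      (∀ g ∈ G, ‖lX (Com 𝔄) g Ψ - rX (Com 𝔄) g Ψ‖ ≤ (1 + ‖g‖) / (n + 1)) ∧
      c - 1 / (n + 1) ≤ ‖Ψ.ap Q ξ₀‖) : InjCom 𝔄 := by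
  classical
  set I := ℕ × Finset (SubA 𝔄) with hI
  have h' : ∀ i : I, ∃ (Q : H →L[ℂ] H) (Ψ : X (Com 𝔄)), ‖Q‖ ≤ 1 ∧ ‖Ψ‖ ≤ 1 ∧
      (∀ g ∈ i.2, ‖lX (Com 𝔄) g Ψ - rX (Com 𝔄) g Ψ‖ ≤ (1 + ‖(g : Com (Com 𝔄))‖) / (i.1 + 1)) ∧
      c - 1 / (i.1 + 1) ≤ ‖Ψ.ap Q ξ₀‖ := by
    intro i
    obtain ⟨Q, Ψ, h1, h2, h3, h4⟩ := h i.1 (i.2.image Subtype.val) (by
      intro g hg
      obtain ⟨g', _, rfl⟩ := Finset.mem_image.mp hg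
      exact g'.2)
    exact ⟨Q, Ψ, h1, h2, fun g hg => h3 g (Finset.mem_image_of_mem _ hg), h4⟩
  choose Q Ψ hQ hΨ hcomm hlow using h'
  let 𝒰 : Ultrafilter I := Ultrafilter.of atTop
  have h𝒰 : (𝒰 : Filter I) ≤ atTop := Ultrafilter.of_le atTop
  obtain ⟨E, hEn, hE⟩ := Pool.Agent.MP_86f3ed.exists_limit 𝒰 (fun i => gram (Ψ i) (Q i))
    (fun i S => norm_gram_le (hΨ i) (hQ i) S)
  have hn0 : Tendsto (fun i : I => (1 : ℝ) / (i.1 + 1)) 𝒰 (𝓝 0) := by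
    have h1 : Tendsto (fun n : ℕ => (1 : ℝ) / (n + 1)) atTop (𝓝 0) :=
      tendsto_one_div_add_atTop_nhds_zero_nat
    have h2 : Tendsto (fun i : I => i.1) atTop atTop := by
      have h3 := tendsto_fst (f := (atTop : Filter ℕ)) (g := (atTop : Filter (Finset (SubA 𝔄))))
      rw [prod_atTop_atTop_eq] at h3
      exact h3
    exact h1.comp (h2.mono_left h𝒰)
  -- values in the commutant
  have hEN : ∀ S, E S ∈ Com 𝔄 := by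
    intro S
    rw [mem_Com]
    intro g hg
    have hgM : g ∈ Com (Com 𝔄) := mem_Com.mpr fun n hn => (mem_Com.mp hn g hg).symm
    set g' : Com (Com 𝔄) := ⟨g, hgM⟩ with hg'
    have hg'S : g' ∈ SubA 𝔄 := hg
    have hsg'S : star g' ∈ SubA 𝔄 := star_mem (S := StarSubalgebra ℂ (H →L[ℂ] H)) hg
    refine ContinuousLinearMap.ext fun y => ext_inner_left ℂ fun x => ?_
    have h1 : Tendsto (fun i => ⟪x, gram (Ψ i) (Q i) S (g y)⟫_ℂ) 𝒰 (𝓝 ⟪x, E S (g y)⟫_ℂ) :=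
      hE S x (g y)
    have h2 : Tendsto (fun i => ⟪x, g (gram (Ψ i) (Q i) S y)⟫_ℂ) 𝒰 (𝓝 ⟪x, g (E S y)⟫_ℂ) := by
      have h3 := hE S (star g x) y
      have h4 : ∀ z : H, ⟪star g x, z⟫_ℂ = ⟪x, g z⟫_ℂ := fun z => by
        rw [star_eq_adjoint, adjoint_inner_left]
      simpa only [h4] using h3
    have h5 : ∀ᶠ i in (𝒰 : Filter I), ‖⟪x, g (gram (Ψ i) (Q i) S y)⟫_ℂ -
        ⟪x, gram (Ψ i) (Q i) S (g y)⟫_ℂ‖ ≤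
        (2 * (1 + ‖g'‖) * ‖S‖ * ‖x‖ * ‖y‖) * (1 / (i.1 + 1)) := by
      have h6 : ∀ᶠ i in (atTop : Filter I), (0, ({⟨g', hg'S⟩, ⟨star g', hsg'S⟩} :
          Finset (SubA 𝔄))) ≤ i := eventually_ge_atTop _
      filter_upwards [h𝒰 h6] with i hi
      have hi1 : (⟨g', hg'S⟩ : SubA 𝔄) ∈ i.2 := hi.2 (by simp)
      have hi2 : (⟨star g', hsg'S⟩ : SubA 𝔄) ∈ i.2 := hi.2 (by simp)
      have h7 := hcomm i _ hi1
      have h8 := hcomm i _ hi2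
      have h9 : ‖star g'‖ = ‖g'‖ := norm_star _
      simp only [h9] at h8
      have h10 := gram_comm (hΨ i) (hQ i) g' h7 h8 S
      have h11 : ⟪x, g (gram (Ψ i) (Q i) S y)⟫_ℂ - ⟪x, gram (Ψ i) (Q i) S (g y)⟫_ℂ =
          ⟪x, ((g' : H →L[ℂ] H) * gram (Ψ i) (Q i) S - gram (Ψ i) (Q i) S * (g' : H →L[ℂ] H)) y⟫_ℂ := by
        rw [← inner_sub_right]
        rfl
      rw [h11]
      refine (norm_inner_le_norm _ _).trans ?_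
      have h12 := (le_opNorm ((g' : H →L[ℂ] H) * gram (Ψ i) (Q i) S -
        gram (Ψ i) (Q i) S * (g' : H →L[ℂ] H)) y).trans
        (mul_le_mul_of_nonneg_right h10 (norm_nonneg y))
      calc ‖x‖ * ‖((g' : H →L[ℂ] H) * gram (Ψ i) (Q i) S -
            gram (Ψ i) (Q i) S * (g' : H →L[ℂ] H)) y‖
          ≤ ‖x‖ * (2 * ((1 + ‖g'‖) / (i.1 + 1)) * ‖S‖ * ‖y‖) :=
            mul_le_mul_of_nonneg_left h12 (norm_nonneg _)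
        _ = (2 * (1 + ‖g'‖) * ‖S‖ * ‖x‖ * ‖y‖) * (1 / (i.1 + 1)) := by ring
    have h13 : Tendsto (fun i => ⟪x, g (gram (Ψ i) (Q i) S y)⟫_ℂ -
        ⟪x, gram (Ψ i) (Q i) S (g y)⟫_ℂ) 𝒰 (𝓝 0) := by
      refine squeeze_zero_norm' h5 ?_
      have := hn0.const_mul (2 * (1 + ‖g'‖) * ‖S‖ * ‖x‖ * ‖y‖)
      simpa using this
    have h14 := tendsto_nhds_unique (h2.sub h1) h13
    exact sub_eq_zero.mp h14
  have hEr : ∀ T, ∀ n ∈ Com 𝔄, E (T * n) = E T * n := by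
    intro T n hn
    refine ContinuousLinearMap.ext fun y => ext_inner_left ℂ fun x => ?_
    refine tendsto_nhds_unique (hE (T * n) x y) ?_
    have h1 : ∀ i, ⟪x, gram (Ψ i) (Q i) (T * n) y⟫_ℂ = ⟪x, gram (Ψ i) (Q i) T (n y)⟫_ℂ := by
      intro i
      rw [gram_apply, gram_apply, ← mul_assoc (Q i), X.right _ hn]
      rfl
    simp_rw [h1]
    exact hE T x (n y)
  have hE0 : E ≠ 0 := by
    intro h0
    have h1 := hE 1 ξ₀ ξ₀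
    rw [h0] at h1
    have h2 : ∀ i, ⟪ξ₀, gram (Ψ i) (Q i) 1 ξ₀⟫_ℂ = ((‖(Ψ i).ap (Q i) ξ₀‖ ^ 2 : ℝ) : ℂ) := by
      intro i
      rw [gram_apply, mul_one]
      show ⟪ξ₀, star ((Ψ i).ap (Q i)) ((Ψ i).ap (Q i) ξ₀)⟫_ℂ = _
      rw [star_eq_adjoint, adjoint_inner_right, inner_self_eq_norm_sq_to_K]
      push_cast
      rfl
    simp_rw [h2] at h1
    have h3 : Tendsto (fun i : I => ‖(Ψ i).ap (Q i) ξ₀‖ ^ 2) 𝒰 (𝓝 0) := by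
      have h7 := (Complex.continuous_re.tendsto _).comp h1
      have h8 : (⟪ξ₀, (0 : (H →L[ℂ] H) →ₗ[ℂ] (H →L[ℂ] H)) 1 ξ₀⟫_ℂ).re = 0 := by simp
      rw [h8] at h7
      exact h7
    have h4 : ∀ᶠ i in (𝒰 : Filter I), (c / 2) ^ 2 ≤ ‖(Ψ i).ap (Q i) ξ₀‖ ^ 2 := by
      have h5 : ∀ᶠ i in (𝒰 : Filter I), (1 : ℝ) / (i.1 + 1) < c / 2 :=
        hn0.eventually_lt_const (by positivity)
      filter_upwards [h5] with i hi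
      have := hlow i
      exact pow_le_pow_left₀ (by positivity) (by linarith) 2
    have h6 := ge_of_tendsto h3 h4
    have : 0 < (c / 2) ^ 2 := by positivity
    linarith
  exact injective_of_right_modular 𝔄 hPI E (c := 1) (fun T => by rw [one_mul]; exact hEn T)
    hEN hEr hE0

theorem cs_alg {𝔄 : StarSubalgebra ℂ (H →L[ℂ] H)} (hcl : IsClosed (𝔄 : Set (H →L[ℂ] H)))
    (h : ConnesStormer (Com (Com 𝔄) : Set (H →L[ℂ] H)) (Com 𝔄 : Set (H →L[ℂ] H))) :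
    ∃ (ξ₀ : H) (κ : ℝ), ‖ξ₀‖ ≤ 1 ∧ 0 < κ ∧ ∀ ξ : H, ‖ξ‖ = 1 →
      ∃ b ∈ 𝔄, ∃ y ∈ Com 𝔄, ‖b‖ ≤ 1 ∧ ‖y‖ ≤ 1 ∧ κ ≤ ‖⟪ξ, b (y ξ₀)⟫_ℂ‖ := by
  obtain ⟨ξ₀, κ, hκ, h⟩ := h
  set r : ℝ := 1 + ‖ξ₀‖ with hr
  have hr0 : 0 < r := by positivity
  refine ⟨((r⁻¹ : ℝ) : ℂ) • ξ₀, κ / (2 * r), ?_, by positivity, ?_⟩
  · rw [norm_smul, Complex.norm_real, Real.norm_of_nonneg (inv_nonneg.mpr hr0.le),
      inv_mul_le_iff₀ hr0]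
    linarith
  · intro ξ hξ
    obtain ⟨b, hb, y, hy, hb1, hy1, hby⟩ := h ξ hξ
    obtain ⟨a, ha, ha1, hak⟩ := kaplansky 𝔄 hcl hb hb1 (fun _ : Fin 1 => y ξ₀)
      (δ := κ / 2) (by positivity)
    refine ⟨a, ha, y, hy, ha1, hy1, ?_⟩
    have h1 : κ / 2 ≤ ‖⟪ξ, a (y ξ₀)⟫_ℂ‖ := by
      have e1 : ⟪ξ, b (y ξ₀)⟫_ℂ = ⟪ξ, (b - a) (y ξ₀)⟫_ℂ + ⟪ξ, a (y ξ₀)⟫_ℂ := by
        rw [← inner_add_right, sub_apply, sub_add_cancel]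
      have e2 : ‖⟪ξ, (b - a) (y ξ₀)⟫_ℂ‖ ≤ κ / 2 := by
        refine (norm_inner_le_norm _ _).trans ?_
        rw [hξ, one_mul]
        exact (hak 0).1
      rw [e1] at hby
      have := norm_add_le ⟪ξ, (b - a) (y ξ₀)⟫_ℂ ⟪ξ, a (y ξ₀)⟫_ℂ
      linarith
    rw [map_smul, map_smul, inner_smul_right, norm_mul, Complex.norm_real,
      Real.norm_of_nonneg (inv_nonneg.mpr hr0.le)]
    calc κ / (2 * r) = r⁻¹ * (κ / 2) := by field_simp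
      _ ≤ r⁻¹ * ‖⟪ξ, a (y ξ₀)⟫_ℂ‖ := mul_le_mul_of_nonneg_left h1 (inv_nonneg.mpr hr0.le)

/-- If the commutant is not injective then the finite open mapping property holds. -/
theorem ft_of_not_injCom {𝔄 : StarSubalgebra ℂ (H →L[ℂ] H)}
    (hPI : PurelyInfinite (Com 𝔄 : Set (H →L[ℂ] H))) {ξ₀ : H} {κ : ℝ} (hξ₀ : ‖ξ₀‖ ≤ 1)
    (hκ0 : 0 < κ) (hκ : ∀ ξ : H, ‖ξ‖ = 1 → ∃ b ∈ 𝔄, ∃ y ∈ Com 𝔄, ‖b‖ ≤ 1 ∧ ‖y‖ ≤ 1 ∧
      κ ≤ ‖⟪ξ, b (y ξ₀)⟫_ℂ‖) (hno : ¬ InjCom 𝔄) :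
    ∃ (m : ℕ) (C θ : ℝ), 0 ≤ C ∧ 0 ≤ θ ∧ θ < 1 ∧ (bm (Com 𝔄)).FT (SubA 𝔄) m C θ := by
  by_contra hcon
  push Not at hcon
  apply hno
  by_cases h1 : (1 : H →L[ℂ] H) = 0
  · have hz : ∀ S : H →L[ℂ] H, S = 0 := fun S => by rw [← mul_one S, h1, mul_zero]
    exact ⟨0, fun S => by simp, fun S => (Com 𝔄).zero_mem, fun S _ => (hz S).symm⟩
  obtain ⟨v, hvN, w, hwN, hv, hw, hvw, _, _⟩ := hPI 1 (Com 𝔄).one_mem (star_one _) (mul_one _) h1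
  set ρ : ℝ := Real.sqrt (1 - κ ^ 2) with hρ
  have hρ0 : 0 ≤ ρ := Real.sqrt_nonneg _
  have hρ1 : ρ < 1 := by
    rw [hρ, Real.sqrt_lt' one_pos]
    have : 0 < κ ^ 2 := by positivity
    linarith
  refine injCom_of_net hPI (ξ₀ := ξ₀) (c := (1 - ρ) / 2) (by linarith) ?_
  intro n G hG
  set θ₁ : ℝ := (1 + ρ) / 2 with hθ₁
  set θ : ℝ := (1 + θ₁) / 2 with hθ
  have hC : (0 : ℝ) < n + 1 := by positivity
  have hFT := hcon (G.card + 1) (n + 1) θ hC.le (by linarith) (by linarith)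
  let a : Fin G.card → Com (Com 𝔄) := fun k =>
    (((1 + ‖((G.equivFin.symm k : G) : Com (Com 𝔄))‖)⁻¹ : ℝ) : ℂ) •
      ((G.equivFin.symm k : G) : Com (Com 𝔄))
  have ha : ∀ k, a k ∈ SubA 𝔄 ∧ ‖a k‖ ≤ 1 := by
    intro k
    refine ⟨(SubA 𝔄).smul_mem (hG _ (G.equivFin.symm k).2) _, ?_⟩
    have hp : 0 < 1 + ‖((G.equivFin.symm k : G) : Com (Com 𝔄))‖ := by positivity
    show ‖(((1 + ‖((G.equivFin.symm k : G) : Com (Com 𝔄))‖)⁻¹ : ℝ) : ℂ) •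
      ((G.equivFin.symm k : G) : Com (Com 𝔄))‖ ≤ 1
    rw [norm_smul, Complex.norm_real, Real.norm_of_nonneg (inv_nonneg.mpr hp.le),
      inv_mul_le_iff₀ hp]
    linarith
  obtain ⟨Q, Ψ, hQ, hΨ, hcomm, hlow⟩ := step hξ₀ hκ0.le hκ hvN hwN hv hw hvw
    (θ₁ := θ₁) (θ := θ) (by linarith) (by linarith) hC hFT a ha
  refine ⟨Q, Ψ, hQ, hΨ, ?_, ?_⟩
  · intro g hg
    have h2 := hcomm (G.equivFin ⟨g, hg⟩)
    have h3 : a (G.equivFin ⟨g, hg⟩) = (((1 + ‖g‖)⁻¹ : ℝ) : ℂ) • g := by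
      show (((1 + ‖((G.equivFin.symm (G.equivFin ⟨g, hg⟩) : G) : Com (Com 𝔄))‖)⁻¹ : ℝ) : ℂ) •
      ((G.equivFin.symm (G.equivFin ⟨g, hg⟩) : G) : Com (Com 𝔄)) = _
      rw [Equiv.symm_apply_apply]
    have hp : 0 < 1 + ‖g‖ := by positivity
    rw [h3, map_smul, map_smul, smul_apply, smul_apply, ← smul_sub, norm_smul, Complex.norm_real,
      Real.norm_of_nonneg (inv_nonneg.mpr hp.le), inv_mul_le_iff₀ hp] at h2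
    calc ‖lX (Com 𝔄) g Ψ - rX (Com 𝔄) g Ψ‖ ≤ (1 + ‖g‖) * (1 / (n + 1)) := h2
      _ = (1 + ‖g‖) / (n + 1) := by ring
  · have : (1 - ρ) / 2 = θ₁ - ρ := by rw [hθ₁]; ring
    rw [this]
    exact hlow

theorem norm_L_sum_le {N : StarSubalgebra ℂ (H →L[ℂ] H)} (z : Com N) {m : ℕ}
    (T : Fin m → H →L[ℂ] H) (ξ η : Fin m → H) {δ : ℝ}
    (h : ∀ k, ‖star (z : H →L[ℂ] H) (η k)‖ ≤ δ) :
    ‖(bm N).L z (∑ k, evF N (T k) (ξ k) (η k))‖ ≤ (∑ k, ‖T k‖ * ‖ξ k‖) * δ := by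
  rw [map_sum, Finset.sum_mul]
  refine (norm_sum_le _ _).trans (Finset.sum_le_sum fun k _ => ?_)
  rw [bm_L_evF]
  exact (norm_evF_le N _ _ _).trans (mul_le_mul_of_nonneg_left (h k) (by positivity))

theorem norm_R_sum_le {N : StarSubalgebra ℂ (H →L[ℂ] H)} (z : Com N) {m : ℕ}
    (T : Fin m → H →L[ℂ] H) (ξ η : Fin m → H) {δ : ℝ}
    (h : ∀ k, ‖(z : H →L[ℂ] H) (ξ k)‖ ≤ δ) :
    ‖(bm N).R z (∑ k, evF N (T k) (ξ k) (η k))‖ ≤ (∑ k, ‖T k‖ * ‖η k‖) * δ := by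
  rw [map_sum, Finset.sum_mul]
  refine (norm_sum_le _ _).trans (Finset.sum_le_sum fun k _ => ?_)
  rw [bm_R_evF]
  refine (norm_evF_le N _ _ _).trans ?_
  have := mul_le_mul_of_nonneg_left (h k) (show 0 ≤ ‖T k‖ * ‖η k‖ by positivity)
  calc ‖T k‖ * ‖(z : H →L[ℂ] H) (ξ k)‖ * ‖η k‖ = ‖T k‖ * ‖η k‖ * ‖(z : H →L[ℂ] H) (ξ k)‖ := by
        ring
    _ ≤ ‖T k‖ * ‖η k‖ * δ := this

theorem appr {𝔄 : StarSubalgebra ℂ (H →L[ℂ] H)} (hcl : IsClosed (𝔄 : Set (H →L[ℂ] H))) :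
    (bm (Com 𝔄)).Appr (SubA 𝔄) := by
  intro x hx f₁ f₂ δ hδ
  obtain ⟨m₁, T₁, ξ₁, η₁, h₁⟩ := F_dense (Com 𝔄) f₁ (show 0 < δ / 4 by positivity)
  obtain ⟨m₂, T₂, ξ₂, η₂, h₂⟩ := F_dense (Com 𝔄) f₂ (show 0 < δ / 4 by positivity)
  set g₁ := ∑ k, evF (Com 𝔄) (T₁ k) (ξ₁ k) (η₁ k) with hg₁
  set g₂ := ∑ k, evF (Com 𝔄) (T₂ k) (ξ₂ k) (η₂ k) with hg₂
  set K : ℝ := 1 + ∑ k, ‖T₁ k‖ * ‖ξ₁ k‖ + ∑ k, ‖T₂ k‖ * ‖η₂ k‖ with hK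
  have hs1 : 0 ≤ ∑ k, ‖T₁ k‖ * ‖ξ₁ k‖ := Finset.sum_nonneg fun k _ => by positivity
  have hs2 : 0 ≤ ∑ k, ‖T₂ k‖ * ‖η₂ k‖ := Finset.sum_nonneg fun k _ => by positivity
  have hK0 : 0 < K := by positivity
  obtain ⟨a, ha, ha1, hak⟩ := kaplansky 𝔄 hcl x.2 hx (Fin.append η₁ ξ₂)
    (δ := δ / (2 * K)) (by positivity)
  have haM : a ∈ Com (Com 𝔄) := mem_Com.mpr fun n hn => (mem_Com.mp hn a ha).symm
  set a' : Com (Com 𝔄) := ⟨a, haM⟩ with ha'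
  have hz : ‖x - a'‖ ≤ 2 := by
    refine (norm_sub_le _ _).trans ?_
    have : ‖a'‖ ≤ 1 := ha1
    linarith
  have hKδ : K * (δ / (2 * K)) = δ / 2 := by field_simp
  have hδK : 0 < δ / (2 * K) := by positivity
  refine ⟨a', ha, ha1, ?_, ?_⟩
  · have e1 : f₁ = (f₁ - g₁) + g₁ := by abel
    rw [e1, map_add]
    refine (norm_add_le _ _).trans ?_
    have e2 : ‖(bm (Com 𝔄)).L (x - a') (f₁ - g₁)‖ ≤ 2 * (δ / 4) :=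
      ((bm (Com 𝔄)).norm_L _ _).trans (mul_le_mul hz h₁ (norm_nonneg _) (by norm_num))
    have e3 := norm_L_sum_le (x - a') T₁ ξ₁ η₁ (δ := δ / (2 * K)) (fun k => by
      have := (hak (Fin.castAdd m₂ k)).2
      rw [Fin.append_left] at this
      exact this)
    have e4 : (∑ k, ‖T₁ k‖ * ‖ξ₁ k‖) * (δ / (2 * K)) ≤ δ / 2 := by
      rw [← hKδ]
      exact mul_le_mul_of_nonneg_right (by linarith) hδK.le
    have e5 : ‖(bm (Com 𝔄)).L (x - a') g₁‖ ≤ δ / 2 := e3.trans e4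
    linarith
  · have e1 : f₂ = (f₂ - g₂) + g₂ := by abel
    rw [e1, map_add]
    refine (norm_add_le _ _).trans ?_
    have e2 : ‖(bm (Com 𝔄)).R (x - a') (f₂ - g₂)‖ ≤ 2 * (δ / 4) :=
      ((bm (Com 𝔄)).norm_R _ _).trans (mul_le_mul hz h₂ (norm_nonneg _) (by norm_num))
    have e3 := norm_R_sum_le (x - a') T₂ ξ₂ η₂ (δ := δ / (2 * K)) (fun k => by
      have := (hak (Fin.natAdd m₁ k)).1
      rw [Fin.append_right] at this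
      exact this)
    have e4 : (∑ k, ‖T₂ k‖ * ‖η₂ k‖) * (δ / (2 * K)) ≤ δ / 2 := by
      rw [← hKδ]
      exact mul_le_mul_of_nonneg_right (by linarith) hδK.le
    have e5 : ‖(bm (Com 𝔄)).R (x - a') g₂‖ ≤ δ / 2 := e3.trans e4
    linarith

theorem isClosed_Com (A : StarSubalgebra ℂ (H →L[ℂ] H)) :
    IsClosed (Com A : Set (H →L[ℂ] H)) := by
  have h : (Com A : Set (H →L[ℂ] H)) = ⋂ a ∈ A, {x | a * x = x * a} := by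
    ext x
    simp only [SetLike.mem_coe, mem_Com, Set.mem_iInter, Set.mem_ofPred_eq]
  rw [h]
  exact isClosed_biInter fun a _ => isClosed_eq (continuous_const.mul continuous_id)
    (continuous_id.mul continuous_const)

/-- The operator form of the main theorem: a closed star algebra with nearly central elementary
operators, purely infinite commutant and bicommutant and the Connes-Størmer property has an
injective commutant. -/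
theorem injCom_of_near_central {𝔄 : StarSubalgebra ℂ (H →L[ℂ] H)}
    (hcl : IsClosed (𝔄 : Set (H →L[ℂ] H)))
    (hPI : PurelyInfinite (Com 𝔄 : Set (H →L[ℂ] H)))
    (hPI' : PurelyInfinite (Com (Com 𝔄) : Set (H →L[ℂ] H)))
    (hCS : ConnesStormer (Com (Com 𝔄) : Set (H →L[ℂ] H)) (Com 𝔄 : Set (H →L[ℂ] H)))
    (hnc : ∀ (G : Finset (H →L[ℂ] H)), (∀ g ∈ G, g ∈ 𝔄) → ∀ ε : ℝ, 0 < ε → ∃ P : X (Com 𝔄),
      ‖P.ap 1 - 1‖ ≤ ε ∧ ∀ g ∈ G, ∀ S, ‖g * P.ap S - P.ap S * g‖ ≤ ε * ‖S‖) :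
    InjCom 𝔄 := by
  classical
  by_contra hno
  have h1 : (1 : H →L[ℂ] H) ≠ 0 := by
    intro h1
    have hz : ∀ S : H →L[ℂ] H, S = 0 := fun S => by rw [← mul_one S, h1, mul_zero]
    exact hno ⟨0, fun S => by simp, fun S => (Com 𝔄).zero_mem, fun S _ => (hz S).symm⟩
  obtain ⟨ξ₀, κ, hξ₀, hκ0, hκ⟩ := cs_alg hcl hCS
  obtain ⟨m, C, θ, hC, hθ0, hθ1, hFT⟩ := ft_of_not_injCom hPI hξ₀ hκ0 hκ hno
  -- slots
  obtain ⟨v, hvM, w, hwM, hv, hw, hvw, _, _⟩ :=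
    hPI' 1 (Com (Com 𝔄)).one_mem (star_one _) (mul_one _) h1
  have hv2 : v * star v ≠ 1 := by
    intro h2
    have h3 : w = 0 := by
      calc w = (v * star v) * w := by rw [h2, one_mul]
        _ = 0 := by rw [mul_assoc, hvw, mul_zero]
    rw [h3, mul_zero] at hw
    exact h1 hw.symm
  obtain ⟨s⟩ := exists_slots 𝔄 hcl hPI' (exists_infinite_spectrum 𝔄 hcl hvM hv hv2)
  -- a unit vector
  obtain ⟨ζ, hζ⟩ : ∃ ζ : H, ζ ≠ 0 := by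
    by_contra h2
    push Not at h2
    exact h1 (ContinuousLinearMap.ext fun x => by rw [h2 x]; simp)
  have hcomp : CompleteSpace (Com (Com 𝔄)) := (isClosed_Com (Com 𝔄)).completeSpace_coe
  have hSc : IsClosed (SubA 𝔄 : Set (Com (Com 𝔄))) := by
    exact hcl.preimage continuous_subtype_val
  obtain ⟨r, c, φ, hcS, hφ⟩ := BM.encode_of_lt_one hSc (appr hcl) s hC hθ0 hθ1 hFT
    (evF (Com 𝔄) 1 ζ ζ)
  set K : ℝ := ‖ζ‖ ^ 2 + ∑ k, ‖φ k‖ with hK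
  have hζn : 0 < ‖ζ‖ := norm_pos_iff.mpr hζ
  have hs : 0 ≤ ∑ k, ‖φ k‖ := Finset.sum_nonneg fun k _ => norm_nonneg _
  have hK0 : 0 < K := by positivity
  set ε : ℝ := ‖ζ‖ ^ 2 / (2 * K) with hε
  have hε0 : 0 < ε := by positivity
  obtain ⟨P, hP1, hP2⟩ := hnc (Finset.univ.image fun k => (c k : H →L[ℂ] H)) (by
    intro g hg
    obtain ⟨k, _, rfl⟩ := Finset.mem_image.mp hg
    exact hcS k) ε hε0
  have e1 : inF (Com 𝔄) (evF (Com 𝔄) 1 ζ ζ) P = ∑ k, inF (Com 𝔄) (φ k)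
      (lX (Com 𝔄) (c k) P - rX (Com 𝔄) (c k) P) := by
    rw [hφ, map_sum, sum_apply]
    exact Finset.sum_congr rfl fun k _ => inF_D (Com 𝔄) (c k) (φ k) P
  have e2 : ‖∑ k, inF (Com 𝔄) (φ k) (lX (Com 𝔄) (c k) P - rX (Com 𝔄) (c k) P)‖ ≤
      (∑ k, ‖φ k‖) * ε := by
    rw [Finset.sum_mul]
    refine (norm_sum_le _ _).trans (Finset.sum_le_sum fun k _ => ?_)
    refine (le_opNorm _ _).trans ?_
    have e3 : ‖lX (Com 𝔄) (c k) P - rX (Com 𝔄) (c k) P‖ ≤ ε := by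
      refine X.norm_le hε0.le fun T => ?_
      rw [commutator_ap]
      exact hP2 _ (Finset.mem_image_of_mem _ (Finset.mem_univ k)) T
    exact mul_le_mul_of_nonneg_left e3 (norm_nonneg _)
  have e4 : ‖ζ‖ ^ 2 - ε * ‖ζ‖ ^ 2 ≤ ‖inF (Com 𝔄) (evF (Com 𝔄) 1 ζ ζ) P‖ := by
    rw [inF_evF, ev_apply]
    have e5 : ⟪ζ, P.ap 1 ζ⟫_ℂ = ⟪ζ, ζ⟫_ℂ + ⟪ζ, (P.ap 1 - 1) ζ⟫_ℂ := by
      rw [← inner_add_right, sub_apply]
      congr 1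
      show P.ap 1 ζ = ζ + (P.ap 1 ζ - ζ)
      abel
    have e6 : ‖⟪ζ, (P.ap 1 - 1) ζ⟫_ℂ‖ ≤ ε * ‖ζ‖ ^ 2 := by
      refine (norm_inner_le_norm _ _).trans ?_
      have := (le_opNorm (P.ap 1 - 1) ζ).trans (mul_le_mul_of_nonneg_right hP1 (norm_nonneg _))
      calc ‖ζ‖ * ‖(P.ap 1 - 1) ζ‖ ≤ ‖ζ‖ * (ε * ‖ζ‖) :=
            mul_le_mul_of_nonneg_left this (norm_nonneg _)
        _ = ε * ‖ζ‖ ^ 2 := by ring
    have e7 : ‖⟪ζ, ζ⟫_ℂ‖ = ‖ζ‖ ^ 2 := by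
      rw [inner_self_eq_norm_sq_to_K, norm_pow]
      simp
    rw [e5]
    have e8 := norm_sub_norm_le ⟪ζ, ζ⟫_ℂ (-⟪ζ, (P.ap 1 - 1) ζ⟫_ℂ)
    rw [sub_neg_eq_add, norm_neg, e7] at e8
    linarith
  rw [e1] at e4
  have e9 : ‖ζ‖ ^ 2 ≤ K * ε := by
    have := e4.trans e2
    rw [hK]; nlinarith
  have e10 : K * ε = ‖ζ‖ ^ 2 / 2 := by rw [hε]; field_simp
  rw [e10] at e9
  have : 0 < ‖ζ‖ ^ 2 := by positivity
  linarith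

end Pool.Agent.MP_86f3ed.Pin
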