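import Pool.Agent.H.MP_86f3ed_an.Pin.Bump
import Pool.Agent.H.MP_86f3ed_an.Pin.PI
import Pool.Agent.H.MP_86f3ed_an.Pin.Enc

open scoped InnerProductSpace Topology

namespace Pool.Agent.MP_86f3ed.Pin

variable {H : Type*} [NormedAddCommGroup H] [InnerProductSpace ℂ H] [CompleteSpace H]

/-- The algebra as a subalgebra of its bicommutant. -/
noncomputable def SubA (𝔄 : StarSubalgebra ℂ (H →L[ℂ] H)) : Subalgebra ℂ (Com (Com 𝔄)) :=
  𝔄.toSubalgebra.comap (Com (Com 𝔄)).toSubalgebra.val

theorem mem_SubA {𝔄 : StarSubalgebra ℂ (H →L[ℂ] H)} {x : Com (Com 𝔄)} :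
    x ∈ SubA 𝔄 ↔ (x : H →L[ℂ] H) ∈ 𝔄 := Iff.rfl

theorem Slot_sub (𝔄 : StarSubalgebra ℂ (H →L[ℂ] H)) {x : H →L[ℂ] H} (hx : x ∈ 𝔄) :
    x ∈ Com (Com 𝔄) := by
  rw [mem_Com]
  intro b hb
  exact (mem_Com.1 hb x hx).symm

/-- The isometry of the slot. -/
theorem Slot_iso (𝔄 : StarSubalgebra ℂ (H →L[ℂ] H))
    (hPI : PurelyInfinite (Com (Com 𝔄) : Set (H →L[ℂ] H))) (g' g'' : H →L[ℂ] H)
    (hg' : g' ∈ 𝔄) (hmul : g' * g'' = g'') (hne : g'' ≠ 0) :
    ∃ v ∈ Com (Com 𝔄), star v * v = 1 ∧ g' * v = v := by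
  set K : Submodule ℂ H := LinearMap.ker ((1 - g' : H →L[ℂ] H) : H →ₗ[ℂ] H) with hK
  have hmemK : ∀ v : H, v ∈ K ↔ g' v = v := by
    intro v
    rw [hK, LinearMap.mem_ker]
    constructor
    · intro h
      have h1 : v - g' v = 0 := h
      exact (sub_eq_zero.1 h1).symm
    · intro h
      show v - g' v = 0
      rw [h, sub_self]
  have hclosed : IsClosed (K : Set H) := by
    have : (K : Set H) = {v | g' v = v} := by
      ext v
      exact hmemK v
    rw [this]
    exact isClosed_eq g'.continuous continuous_id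
  haveI : CompleteSpace K := hclosed.completeSpace_coe
  have hp : K.starProjection ∈ Com (Com 𝔄) := by
    apply proj_mem_Com (Com 𝔄) K
    intro b hb v hv
    rw [hmemK] at hv ⊢
    have h1 := mem_Com.1 hb g' hg'
    have h2 : g' (b v) = b (g' v) := congrArg (fun T : H →L[ℂ] H => T v) h1
    rw [h2, hv]
  have hs : star K.starProjection = K.starProjection := by
    rw [ContinuousLinearMap.star_eq_adjoint]
    exact (ContinuousLinearMap.eq_adjoint_iff _ _).mpr
      (fun x y => (K.inner_starProjection_left_eq_right x y)) |>.symm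
  have hidem : K.starProjection * K.starProjection = K.starProjection := by
    ext v
    show K.starProjection (K.starProjection v) = K.starProjection v
    rw [Submodule.starProjection_eq_self_iff]
    exact Submodule.starProjection_apply_mem K v
  have hpne : K.starProjection ≠ 0 := by
    intro h0
    apply hne
    ext v
    have h1 : g'' v ∈ K := by
      rw [hmemK]
      exact congrArg (fun T : H →L[ℂ] H => T v) hmul
    have h2 : K.starProjection (g'' v) = g'' v := Submodule.starProjection_eq_self_iff.2 h1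
    rw [h0] at h2
    rw [← h2]
    rfl
  obtain ⟨v, hv, w, _, h1, _, _, h2, _⟩ := hPI K.starProjection hp hs hidem hpne
  refine ⟨v, hv, h1, ?_⟩
  ext u
  show g' (v u) = v u
  rw [← hmemK]
  have h3 : K.starProjection (v u) = v u := congrArg (fun T : H →L[ℂ] H => T u) h2
  rw [← h3]
  exact Submodule.starProjection_apply_mem K _

theorem Slot_norm {v : H →L[ℂ] H} (h : star v * v = 1) : ‖v‖ ≤ 1 := by
  have h1 : ‖v‖ * ‖v‖ ≤ 1 := by
    rw [← CStarRing.norm_star_mul_self, h]
    exact ContinuousLinearMap.norm_id_le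
  nlinarith [norm_nonneg v]

/-- Slots in a closed star algebra with purely infinite bicommutant. -/
theorem exists_slots (𝔄 : StarSubalgebra ℂ (H →L[ℂ] H)) (hcl : IsClosed (𝔄 : Set (H →L[ℂ] H)))
    (hPI : PurelyInfinite (Com (Com 𝔄) : Set (H →L[ℂ] H)))
    (hinf : ∃ a ∈ 𝔄, IsSelfAdjoint a ∧ (spectrum ℝ a).Infinite) :
    Nonempty (BM.Slots (SubA 𝔄)) := by
  obtain ⟨a, haA, hsa, hsp⟩ := hinf
  have hcpt : IsCompact (spectrum ℝ a) :=
    ContinuousFunctionalCalculus.isCompact_spectrum (R := ℝ) a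
  obtain ⟨t, f, f', f'', ht, hcont, hbd, hmul, hone, hort⟩ := exists_bumps hcpt hsp
  have hmem : ∀ h : ℝ → ℝ, cfc h a ∈ 𝔄 := fun h =>
    cfc_mem (𝕜 := ℝ) (𝕜' := ℂ) (hs := hcl) h haA
  have hne : ∀ j, cfc (f'' j) a ≠ 0 := by
    intro j h0
    have h1 := norm_apply_le_norm_cfc (f'' j) a (ht j) (hcont j).2.2.continuousOn hsa
    rw [h0, hone j] at h1
    simp at h1
    linarith
  have hff' : ∀ j, cfc (f j) a * cfc (f' j) a = cfc (f' j) a := by
    intro j
    rw [← cfc_mul (f j) (f' j) a (hcont j).1.continuousOn (hcont j).2.1.continuousOn]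
    congr 1
    funext s
    exact (hmul j s).1
  have hf'f : ∀ j, cfc (f' j) a * cfc (f j) a = cfc (f' j) a := by
    intro j
    rw [← cfc_mul (f' j) (f j) a (hcont j).2.1.continuousOn (hcont j).1.continuousOn]
    congr 1
    funext s
    rw [mul_comm]
    exact (hmul j s).1
  have hf'f'' : ∀ j, cfc (f' j) a * cfc (f'' j) a = cfc (f'' j) a := by
    intro j
    rw [← cfc_mul (f' j) (f'' j) a (hcont j).2.1.continuousOn (hcont j).2.2.continuousOn]
    congr 1
    funext s
    exact (hmul j s).2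
  have horth : ∀ j l, j ≠ l → cfc (f j) a * cfc (f l) a = 0 := by
    intro j l hjl
    rw [← cfc_mul (f j) (f l) a (hcont j).1.continuousOn (hcont l).1.continuousOn]
    have h1 : (fun s => f j s * f l s) = fun _ => (0 : ℝ) := by
      funext s
      exact hort j l hjl s
    rw [h1]
    exact cfc_const_zero ℝ a
  have hsa' : ∀ j, star (cfc (f' j) a) = cfc (f' j) a := fun j =>
    (cfc_predicate (f' j) a : IsSelfAdjoint (cfc (f' j) a))
  choose v hv hvv hgv using fun j => Slot_iso 𝔄 hPI (cfc (f' j) a) (cfc (f'' j) a) (hmem _)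
    (hf'f'' j) (hne j)
  have hnorm : ∀ (h : ℝ → ℝ), (∀ s, 0 ≤ h s ∧ h s ≤ 1) → ‖cfc h a‖ ≤ 1 := by
    intro h hh
    refine norm_cfc_le zero_le_one fun s _ => ?_
    rw [Real.norm_eq_abs, abs_of_nonneg (hh s).1]
    exact (hh s).2
  refine ⟨{ g := fun j => ⟨cfc (f j) a, Slot_sub 𝔄 (hmem _)⟩
            g' := fun j => ⟨cfc (f' j) a, Slot_sub 𝔄 (hmem _)⟩
            V := fun j => ⟨v j, hv j⟩
            U := fun j => ⟨star (v j), star_mem (hv j)⟩
            g_mem := fun j => mem_SubA.2 (hmem _)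
            g'_mem := fun j => mem_SubA.2 (hmem _)
            norm_g := fun j => hnorm _ fun s => ⟨(hbd j s).1, (hbd j s).2.1⟩
            norm_g' := fun j => hnorm _ fun s => ⟨(hbd j s).2.2.1, (hbd j s).2.2.2⟩
            gg' := fun j => Subtype.ext (hff' j)
            g'g := fun j => Subtype.ext (hf'f j)
            ort := fun j l hjl => Subtype.ext (horth j l hjl)
            norm_U := fun j => ?_
            norm_V := fun j => Slot_norm (hvv j)
            UV := fun j => Subtype.ext (hvv j)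
            Ug' := fun j => Subtype.ext ?_
            g'V := fun j => Subtype.ext (hgv j) }⟩
  · show ‖star (v j)‖ ≤ 1
    rw [norm_star]
    exact Slot_norm (hvv j)
  · show star (v j) * cfc (f' j) a = star (v j)
    have h1 := congrArg star (hgv j)
    rw [star_mul, hsa'] at h1
    exact h1

end Pool.Agent.MP_86f3ed.Pin
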