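import Mathlib

open scoped InnerProductSpace Topology
open Filter

namespace Pool.Agent.MP_86f3ed.Pin

variable {H : Type*} [NormedAddCommGroup H] [InnerProductSpace ℂ H] [CompleteSpace H]

/-- The commutant. -/
noncomputable abbrev Com (𝔄 : StarSubalgebra ℂ (H →L[ℂ] H)) : StarSubalgebra ℂ (H →L[ℂ] H) :=
  StarSubalgebra.centralizer ℂ (𝔄 : Set (H →L[ℂ] H))

theorem mem_Com {𝔄 : StarSubalgebra ℂ (H →L[ℂ] H)} {x : H →L[ℂ] H} :
    x ∈ Com 𝔄 ↔ ∀ a ∈ 𝔄, a * x = x * a := by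
  rw [StarSubalgebra.mem_centralizer_iff]
  exact ⟨fun h a ha => (h a ha).1, fun h a ha => ⟨h a ha, h _ (star_mem ha)⟩⟩

variable (N : StarSubalgebra ℂ (H →L[ℂ] H))

/-- The space of bounded `N`-bimodule maps on `B(H)`, as a subspace. -/
def XSub : Submodule ℂ ((H →L[ℂ] H) →L[ℂ] (H →L[ℂ] H)) where
  carrier := {Ψ | ∀ n ∈ N, ∀ T, Ψ (n * T) = n * Ψ T ∧ Ψ (T * n) = Ψ T * n}
  add_mem' := by
    intro Ψ Ψ' h h' n hn T
    simp only [add_apply]
    rw [(h n hn T).1, (h n hn T).2, (h' n hn T).1, (h' n hn T).2, mul_add, add_mul]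
    exact ⟨rfl, rfl⟩
  zero_mem' := by
    intro n hn T
    simp
  smul_mem' := by
    intro c Ψ h n hn T
    simp only [smul_apply]
    rw [(h n hn T).1, (h n hn T).2, mul_smul_comm, smul_mul_assoc]
    exact ⟨rfl, rfl⟩

/-- The Banach space of bounded `N`-bimodule maps on `B(H)`. -/
def X : Type _ := ↥(XSub N)

noncomputable instance : NormedAddCommGroup (X N) := inferInstanceAs (NormedAddCommGroup (XSub N))
noncomputable instance : NormedSpace ℂ (X N) := inferInstanceAs (NormedSpace ℂ (XSub N))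

/-- The inclusion of `X N` in the bounded operators on `B(H)`. -/
noncomputable def incl : X N →ₗᵢ[ℂ] ((H →L[ℂ] H) →L[ℂ] (H →L[ℂ] H)) := (XSub N).subtypeₗᵢ

variable {N}

/-- The value of `Ψ` at `T`. -/
noncomputable def X.ap (Ψ : X N) (T : H →L[ℂ] H) : H →L[ℂ] H := incl N Ψ T

/-- Constructor. -/
noncomputable def X.mk (Ψ : (H →L[ℂ] H) →L[ℂ] (H →L[ℂ] H))
    (h : ∀ n ∈ N, ∀ T, Ψ (n * T) = n * Ψ T ∧ Ψ (T * n) = Ψ T * n) : X N := (⟨Ψ, h⟩ : XSub N)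

@[simp] theorem X.mk_ap (Ψ : (H →L[ℂ] H) →L[ℂ] (H →L[ℂ] H))
    (h : ∀ n ∈ N, ∀ T, Ψ (n * T) = n * Ψ T ∧ Ψ (T * n) = Ψ T * n) (T : H →L[ℂ] H) :
    (X.mk Ψ h).ap T = Ψ T := rfl

theorem X.norm_mk (Ψ : (H →L[ℂ] H) →L[ℂ] (H →L[ℂ] H))
    (h : ∀ n ∈ N, ∀ T, Ψ (n * T) = n * Ψ T ∧ Ψ (T * n) = Ψ T * n) :
    ‖(X.mk Ψ h : X N)‖ = ‖Ψ‖ := rfl

theorem X.norm_def (Ψ : X N) : ‖Ψ‖ = ‖incl N Ψ‖ := rfl

theorem X.ext {Ψ Ψ' : X N} (h : ∀ T, Ψ.ap T = Ψ'.ap T) : Ψ = Ψ' := by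
  apply (incl N).injective
  ext T : 1
  exact h T

theorem X.left (Ψ : X N) {n : H →L[ℂ] H} (hn : n ∈ N) (T : H →L[ℂ] H) :
    Ψ.ap (n * T) = n * Ψ.ap T := (Ψ.2 n hn T).1

theorem X.right (Ψ : X N) {n : H →L[ℂ] H} (hn : n ∈ N) (T : H →L[ℂ] H) :
    Ψ.ap (T * n) = Ψ.ap T * n := (Ψ.2 n hn T).2

@[simp] theorem X.add_ap (Ψ Ψ' : X N) (T : H →L[ℂ] H) : (Ψ + Ψ').ap T = Ψ.ap T + Ψ'.ap T := rfl
@[simp] theorem X.sub_ap (Ψ Ψ' : X N) (T : H →L[ℂ] H) : (Ψ - Ψ').ap T = Ψ.ap T - Ψ'.ap T := rfl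
@[simp] theorem X.smul_ap (c : ℂ) (Ψ : X N) (T : H →L[ℂ] H) : (c • Ψ).ap T = c • Ψ.ap T := rfl
@[simp] theorem X.ap_add (Ψ : X N) (T T' : H →L[ℂ] H) : Ψ.ap (T + T') = Ψ.ap T + Ψ.ap T' :=
  map_add (incl N Ψ) T T'
@[simp] theorem X.ap_smul (c : ℂ) (Ψ : X N) (T : H →L[ℂ] H) : Ψ.ap (c • T) = c • Ψ.ap T :=
  map_smul (incl N Ψ) c T

theorem X.norm_ap_le (Ψ : X N) (T : H →L[ℂ] H) : ‖Ψ.ap T‖ ≤ ‖Ψ‖ * ‖T‖ :=
  ContinuousLinearMap.le_opNorm (incl N Ψ) T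

theorem X.norm_le {Ψ : X N} {c : ℝ} (hc : 0 ≤ c) (h : ∀ T, ‖Ψ.ap T‖ ≤ c * ‖T‖) : ‖Ψ‖ ≤ c :=
  ContinuousLinearMap.opNorm_le_bound _ hc h

variable (N)

/-- Left multiplication of the output by an element of the commutant of `N`. -/
noncomputable def lX0 (x : Com N) (Ψ : X N) : X N :=
  X.mk ((ContinuousLinearMap.mul ℂ (H →L[ℂ] H) (x : H →L[ℂ] H)).comp (incl N Ψ)) (by
    intro n hn T
    simp only [ContinuousLinearMap.comp_apply, ContinuousLinearMap.mul_apply']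
    constructor
    · show (x : H →L[ℂ] H) * Ψ.ap (n * T) = n * ((x : H →L[ℂ] H) * Ψ.ap T)
      rw [X.left Ψ hn, ← mul_assoc, ← mul_assoc, ← mem_Com.mp x.2 n hn]
    · show (x : H →L[ℂ] H) * Ψ.ap (T * n) = (x : H →L[ℂ] H) * Ψ.ap T * n
      rw [X.right Ψ hn, mul_assoc])

theorem lX0_ap (x : Com N) (Ψ : X N) (T : H →L[ℂ] H) :
    (lX0 N x Ψ).ap T = (x : H →L[ℂ] H) * Ψ.ap T := rfl

/-- Right multiplication of the output by an element of the commutant of `N`. -/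
noncomputable def rX0 (x : Com N) (Ψ : X N) : X N :=
  X.mk (((ContinuousLinearMap.mul ℂ (H →L[ℂ] H)).flip (x : H →L[ℂ] H)).comp (incl N Ψ)) (by
    intro n hn T
    simp only [ContinuousLinearMap.comp_apply, ContinuousLinearMap.flip_apply,
      ContinuousLinearMap.mul_apply']
    constructor
    · show Ψ.ap (n * T) * (x : H →L[ℂ] H) = n * (Ψ.ap T * (x : H →L[ℂ] H))
      rw [X.left Ψ hn, mul_assoc]
    · show Ψ.ap (T * n) * (x : H →L[ℂ] H) = Ψ.ap T * (x : H →L[ℂ] H) * n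
      rw [X.right Ψ hn, mul_assoc, mul_assoc, mem_Com.mp x.2 n hn])

theorem rX0_ap (x : Com N) (Ψ : X N) (T : H →L[ℂ] H) :
    (rX0 N x Ψ).ap T = Ψ.ap T * (x : H →L[ℂ] H) := rfl

/-- Left multiplication as a bounded bilinear map. -/
noncomputable def lX : Com N →L[ℂ] X N →L[ℂ] X N :=
  LinearMap.mkContinuous₂ (LinearMap.mk₂ ℂ (lX0 N)
    (by intro x y Ψ; apply X.ext; intro T; simp only [lX0_ap, X.add_ap]; push_cast; rw [add_mul])
    (by intro c x Ψ; apply X.ext; intro T; simp only [lX0_ap, X.smul_ap]; simp)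
    (by intro x Ψ Ψ'; apply X.ext; intro T; simp only [lX0_ap, X.add_ap]; rw [mul_add])
    (by intro c x Ψ; apply X.ext; intro T; simp only [lX0_ap, X.smul_ap]; simp)) 1
    (by
      intro x Ψ
      rw [one_mul]
      refine X.norm_le (by positivity) fun T => ?_
      show ‖(x : H →L[ℂ] H) * Ψ.ap T‖ ≤ _
      refine (norm_mul_le _ _).trans ?_
      rw [mul_assoc]
      exact mul_le_mul_of_nonneg_left (X.norm_ap_le Ψ T) (norm_nonneg _))

@[simp] theorem lX_ap (x : Com N) (Ψ : X N) (T : H →L[ℂ] H) :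
    (lX N x Ψ).ap T = (x : H →L[ℂ] H) * Ψ.ap T := rfl

/-- Right multiplication as a bounded bilinear map. -/
noncomputable def rX : Com N →L[ℂ] X N →L[ℂ] X N :=
  LinearMap.mkContinuous₂ (LinearMap.mk₂ ℂ (rX0 N)
    (by intro x y Ψ; apply X.ext; intro T; simp only [rX0_ap, X.add_ap]; push_cast; rw [mul_add])
    (by intro c x Ψ; apply X.ext; intro T; simp only [rX0_ap, X.smul_ap]; simp)
    (by intro x Ψ Ψ'; apply X.ext; intro T; simp only [rX0_ap, X.add_ap]; rw [add_mul])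
    (by intro c x Ψ; apply X.ext; intro T; simp only [rX0_ap, X.smul_ap]; simp)) 1
    (by
      intro x Ψ
      rw [one_mul]
      refine X.norm_le (by positivity) fun T => ?_
      show ‖Ψ.ap T * (x : H →L[ℂ] H)‖ ≤ _
      refine (norm_mul_le _ _).trans ?_
      rw [mul_assoc, mul_comm (‖x‖), mul_comm (‖Ψ.ap T‖)]
      have h1 := X.norm_ap_le Ψ T
      have h2 : ‖(x : H →L[ℂ] H)‖ = ‖x‖ := rfl
      rw [h2]
      nlinarith [norm_nonneg x])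

@[simp] theorem rX_ap (x : Com N) (Ψ : X N) (T : H →L[ℂ] H) :
    (rX N x Ψ).ap T = Ψ.ap T * (x : H →L[ℂ] H) := rfl

theorem norm_lX_le (x : Com N) : ‖lX N x‖ ≤ ‖x‖ := by
  refine ContinuousLinearMap.opNorm_le_bound _ (norm_nonneg _) fun Ψ => ?_
  refine X.norm_le (by positivity) fun T => ?_
  rw [lX_ap, mul_assoc]
  exact (norm_mul_le _ _).trans (mul_le_mul_of_nonneg_left (X.norm_ap_le Ψ T) (norm_nonneg _))

theorem norm_rX_le (x : Com N) : ‖rX N x‖ ≤ ‖x‖ := by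
  refine ContinuousLinearMap.opNorm_le_bound _ (norm_nonneg _) fun Ψ => ?_
  refine X.norm_le (by positivity) fun T => ?_
  rw [rX_ap]
  refine (norm_mul_le _ _).trans ?_
  have h1 := X.norm_ap_le Ψ T
  have h2 : ‖(x : H →L[ℂ] H)‖ = ‖x‖ := rfl
  rw [h2]
  nlinarith [norm_nonneg x]

/-- The functional `Ψ ↦ ⟪η, Ψ T ξ⟫`. -/
noncomputable def ev (T : H →L[ℂ] H) (ξ η : H) : StrongDual ℂ (X N) :=
  LinearMap.mkContinuous
    { toFun := fun Ψ : X N => ⟪η, Ψ.ap T ξ⟫_ℂ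
      map_add' := by intro Ψ Ψ'; rw [X.add_ap, add_apply, inner_add_right]
      map_smul' := by intro c Ψ; rw [X.smul_ap, smul_apply, inner_smul_right]; rfl }
    (‖T‖ * ‖ξ‖ * ‖η‖) (by
      intro Ψ
      refine (norm_inner_le_norm _ _).trans ?_
      have h1 : ‖Ψ.ap T ξ‖ ≤ ‖Ψ‖ * ‖T‖ * ‖ξ‖ :=
        (ContinuousLinearMap.le_opNorm _ _).trans (mul_le_mul_of_nonneg_right
          (X.norm_ap_le Ψ T) (norm_nonneg _))
      calc ‖η‖ * ‖Ψ.ap T ξ‖ ≤ ‖η‖ * (‖Ψ‖ * ‖T‖ * ‖ξ‖) :=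
            mul_le_mul_of_nonneg_left h1 (norm_nonneg _)
        _ = ‖T‖ * ‖ξ‖ * ‖η‖ * ‖Ψ‖ := by ring)

@[simp] theorem ev_apply (T : H →L[ℂ] H) (ξ η : H) (Ψ : X N) :
    ev N T ξ η Ψ = ⟪η, Ψ.ap T ξ⟫_ℂ := rfl

theorem norm_ev_le (T : H →L[ℂ] H) (ξ η : H) : ‖ev N T ξ η‖ ≤ ‖T‖ * ‖ξ‖ * ‖η‖ :=
  LinearMap.mkContinuous_norm_le _ (by positivity) _

/-- The predual of `X N`: the closed span of the functionals `ev`. -/
noncomputable def FSub : Submodule ℂ (StrongDual ℂ (X N)) :=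
  (Submodule.span ℂ {f | ∃ T ξ η, f = ev N T ξ η}).topologicalClosure

/-- The predual of `X N`. -/
def F : Type _ := ↥(FSub N)

noncomputable instance : NormedAddCommGroup (F N) := inferInstanceAs (NormedAddCommGroup (FSub N))
noncomputable instance : NormedSpace ℂ (F N) := inferInstanceAs (NormedSpace ℂ (FSub N))
instance : CompleteSpace (F N) :=
  (Submodule.isClosed_topologicalClosure _).completeSpace_coe

/-- The inclusion of the predual in the dual. -/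
noncomputable def inF : F N →ₗᵢ[ℂ] StrongDual ℂ (X N) := (FSub N).subtypeₗᵢ

theorem ev_mem (T : H →L[ℂ] H) (ξ η : H) : ev N T ξ η ∈ FSub N :=
  Submodule.le_topologicalClosure _ (Submodule.subset_span ⟨T, ξ, η, rfl⟩)

/-- `ev` as an element of the predual. -/
noncomputable def evF (T : H →L[ℂ] H) (ξ η : H) : F N := (⟨ev N T ξ η, ev_mem N T ξ η⟩ : FSub N)

@[simp] theorem inF_evF (T : H →L[ℂ] H) (ξ η : H) : inF N (evF N T ξ η) = ev N T ξ η := rfl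

theorem norm_evF_le (T : H →L[ℂ] H) (ξ η : H) : ‖evF N T ξ η‖ ≤ ‖T‖ * ‖ξ‖ * ‖η‖ :=
  norm_ev_le N T ξ η

theorem inF_mem (f : F N) : inF N f ∈ FSub N := f.2

theorem ev_comp_lX (x : Com N) (T : H →L[ℂ] H) (ξ η : H) :
    (ev N T ξ η).comp (lX N x) = ev N T ξ (star (x : H →L[ℂ] H) η) := by
  ext Ψ
  rw [ContinuousLinearMap.comp_apply, ev_apply, ev_apply, lX_ap,
    ContinuousLinearMap.star_eq_adjoint, ContinuousLinearMap.adjoint_inner_left]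
  rfl

theorem ev_comp_rX (x : Com N) (T : H →L[ℂ] H) (ξ η : H) :
    (ev N T ξ η).comp (rX N x) = ev N T ((x : H →L[ℂ] H) ξ) η := by
  ext Ψ
  rfl

theorem comp_mem (A : X N →L[ℂ] X N)
    (hA : ∀ T ξ η, (ev N T ξ η).comp A ∈ FSub N) (f : StrongDual ℂ (X N)) (hf : f ∈ FSub N) :
    f.comp A ∈ FSub N := by
  have hc : Continuous fun f : StrongDual ℂ (X N) => f.comp A :=
    ((ContinuousLinearMap.compL ℂ (X N) (X N) ℂ).flip A).continuous
  have hcl : IsClosed ((FSub N : Set (StrongDual ℂ (X N)))) :=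
    Submodule.isClosed_topologicalClosure _
  have h1 : ∀ f ∈ Submodule.span ℂ {f | ∃ T ξ η, f = ev N T ξ η}, f.comp A ∈ FSub N := by
    intro f hf
    induction hf using Submodule.span_induction with
    | mem f h => obtain ⟨T, ξ, η, rfl⟩ := h; exact hA T ξ η
    | zero => simp
    | add f g _ _ h h' => rw [ContinuousLinearMap.add_comp]; exact add_mem h h'
    | smul c f _ h => rw [ContinuousLinearMap.smul_comp]; exact Submodule.smul_mem _ _ h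
  exact closure_minimal (s := (Submodule.span ℂ {f | ∃ T ξ η, f = ev N T ξ η} :
    Set (StrongDual ℂ (X N)))) (t := {f | f.comp A ∈ FSub N}) (fun f hf => h1 f hf)
    (hcl.preimage hc) hf

end Pool.Agent.MP_86f3ed.Pin
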