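import Pool.Agent.H.MP_86f3ed_an.Pin.Sep
import Pool.Agent.H.MP_86f3ed_an.Pin.Slot

open scoped InnerProductSpace Topology
open Filter ContinuousLinearMap

namespace Pool.Agent.MP_86f3ed.Pin

variable {H : Type*} [NormedAddCommGroup H] [InnerProductSpace ℂ H] [CompleteSpace H]

theorem cs_decomp {κ : ℝ} {u ξ : H} (hu : ‖u‖ ≤ 1) (hξ : ‖ξ‖ = 1) (hκ : 0 ≤ κ)
    (h : κ ≤ ‖⟪ξ, u⟫_ℂ‖) : ‖ξ - ⟪u, ξ⟫_ℂ • u‖ ≤ Real.sqrt (1 - κ ^ 2) := by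
  refine Real.le_sqrt_of_sq_le ?_
  have h1 : ‖ξ - ⟪u, ξ⟫_ℂ • u‖ ^ 2 = ‖ξ‖ ^ 2 - 2 * RCLike.re ⟪ξ, ⟪u, ξ⟫_ℂ • u⟫_ℂ +
      ‖⟪u, ξ⟫_ℂ • u‖ ^ 2 := norm_sub_sq _ _
  have h2 : ⟪ξ, ⟪u, ξ⟫_ℂ • u⟫_ℂ = ((‖⟪ξ, u⟫_ℂ‖ ^ 2 : ℝ) : ℂ) := by
    rw [inner_smul_right, ← inner_conj_symm u ξ, Complex.conj_mul']
    push_cast
    rfl
  have h3 : ‖⟪u, ξ⟫_ℂ‖ = ‖⟪ξ, u⟫_ℂ‖ := norm_inner_symm _ _
  have h4 : RCLike.re (((‖⟪ξ, u⟫_ℂ‖ ^ 2 : ℝ) : ℂ)) = ‖⟪ξ, u⟫_ℂ‖ ^ 2 := RCLike.ofReal_re _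
  rw [h1, h2, h4, norm_smul, h3, hξ, mul_pow]
  have h5 : ‖u‖ ^ 2 ≤ 1 := pow_le_one₀ (norm_nonneg _) hu
  have h6 : κ ^ 2 ≤ ‖⟪ξ, u⟫_ℂ‖ ^ 2 := pow_le_pow_left₀ hκ h 2
  nlinarith [sq_nonneg ‖⟪ξ, u⟫_ℂ‖]

theorem step {𝔄 : StarSubalgebra ℂ (H →L[ℂ] H)} {ξ₀ : H} {κ : ℝ} (hξ₀ : ‖ξ₀‖ ≤ 1) (hκ0 : 0 ≤ κ)
    (hκ : ∀ ξ : H, ‖ξ‖ = 1 → ∃ b ∈ 𝔄, ∃ y ∈ Com 𝔄, ‖b‖ ≤ 1 ∧ ‖y‖ ≤ 1 ∧
      κ ≤ ‖⟪ξ, b (y ξ₀)⟫_ℂ‖)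
    {v w : H →L[ℂ] H} (hvN : v ∈ Com 𝔄) (hwN : w ∈ Com 𝔄) (hv : star v * v = 1)
    (hw : star w * w = 1) (hvw : star v * w = 0) {θ θ₁ C : ℝ} (hθ₁ : 0 < θ₁) (hθ : θ₁ < θ)
    (hC : 0 < C) {m : ℕ} (hFT : ¬ (bm (Com 𝔄)).FT (SubA 𝔄) (m + 1) C θ)
    (a : Fin m → Com (Com 𝔄)) (ha : ∀ k, a k ∈ SubA 𝔄 ∧ ‖a k‖ ≤ 1) :
    ∃ (S : H →L[ℂ] H) (Ψ : X (Com 𝔄)), ‖S‖ ≤ 1 ∧ ‖Ψ‖ ≤ 1 ∧
      (∀ k, ‖lX (Com 𝔄) (a k) Ψ - rX (Com 𝔄) (a k) Ψ‖ ≤ 1 / C) ∧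
      θ₁ - Real.sqrt (1 - κ ^ 2) - 1 / C ≤ ‖Ψ.ap S ξ₀‖ := by
  unfold BM.FT at hFT
  push Not at hFT
  obtain ⟨f, hf⟩ := hFT
  have hf0 : f ≠ 0 := by
    rintro rfl
    have := hf (fun _ => 0) (fun _ => 0) (fun k => ⟨(SubA 𝔄).zero_mem, by simp⟩) (by simp)
    simp at this
  have hfn : 0 < ‖f‖ := norm_pos_iff.mpr hf0
  set e : F (Com 𝔄) := ((‖f‖⁻¹ : ℝ) : ℂ) • f with he
  have hen : ‖e‖ ≤ 1 := by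
    rw [he, norm_smul, Complex.norm_real, Real.norm_of_nonneg (inv_nonneg.mpr hfn.le),
      inv_mul_cancel₀ hfn.ne']
  have hfe : f = ((‖f‖ : ℝ) : ℂ) • e := by
    rw [he, smul_smul, ← Complex.ofReal_mul, mul_inv_cancel₀ hfn.ne', Complex.ofReal_one,
      one_smul]
  have hef : ∀ (a : Fin (m + 1) → Com (Com 𝔄)) (φ : Fin (m + 1) → F (Com 𝔄)),
      (∀ k, a k ∈ SubA 𝔄 ∧ ‖a k‖ ≤ 1) → (∀ k, ‖φ k‖ ≤ C) →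
      θ < ‖e - ∑ k, (bm (Com 𝔄)).D (a k) (φ k)‖ := by
    intro a φ ha hφ
    have h1 := hf a (fun k => ((‖f‖ : ℝ) : ℂ) • φ k) ha (fun k => by
      rw [norm_smul, Complex.norm_real, norm_norm, mul_comm]
      exact mul_le_mul_of_nonneg_right (hφ k) (norm_nonneg _))
    have h2 : f - ∑ k, (bm (Com 𝔄)).D (a k) (((‖f‖ : ℝ) : ℂ) • φ k) =
        ((‖f‖ : ℝ) : ℂ) • (e - ∑ k, (bm (Com 𝔄)).D (a k) (φ k)) := by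
      rw [smul_sub, ← hfe, Finset.smul_sum]
      congr 1
      refine Finset.sum_congr rfl fun k _ => ?_
      rw [map_smul]
    rw [h2, norm_smul, Complex.norm_real, norm_norm, mul_comm θ] at h1
    exact lt_of_mul_lt_mul_left h1 (norm_nonneg _)
  obtain ⟨T, ξ, η, hT, hξ, hη, hTe⟩ := ball_approx hvN hwN hv hw hvw hen (sub_pos.mpr hθ)
  have hev : ∀ (a : Fin (m + 1) → Com (Com 𝔄)) (φ : Fin (m + 1) → F (Com 𝔄)),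
      (∀ k, a k ∈ SubA 𝔄 ∧ ‖a k‖ ≤ 1) → (∀ k, ‖φ k‖ ≤ C) →
      θ₁ < ‖evF (Com 𝔄) T ξ η - ∑ k, (bm (Com 𝔄)).D (a k) (φ k)‖ := by
    intro a φ ha hφ
    have h1 := hef a φ ha hφ
    have h2 : e - ∑ k, (bm (Com 𝔄)).D (a k) (φ k) = (e - evF (Com 𝔄) T ξ η) +
        (evF (Com 𝔄) T ξ η - ∑ k, (bm (Com 𝔄)).D (a k) (φ k)) := by abel
    rw [h2] at h1
    have h3 := norm_add_le (e - evF (Com 𝔄) T ξ η)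
      (evF (Com 𝔄) T ξ η - ∑ k, (bm (Com 𝔄)).D (a k) (φ k))
    linarith
  have hξ0 : ξ ≠ 0 := by
    rintro rfl
    have := hev (fun _ => 0) (fun _ => 0) (fun k => ⟨(SubA 𝔄).zero_mem, by simp⟩)
      (fun k => by simpa using hC.le)
    rw [evF_zero_mid] at this
    simp at this
    linarith
  have hξn : 0 < ‖ξ‖ := norm_pos_iff.mpr hξ0
  set ξ' : H := ((‖ξ‖⁻¹ : ℝ) : ℂ) • ξ with hξ'
  have hξ'n : ‖ξ'‖ = 1 := by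
    rw [hξ', norm_smul, Complex.norm_real, Real.norm_of_nonneg (inv_nonneg.mpr hξn.le),
      inv_mul_cancel₀ hξn.ne']
  have hξξ' : ξ = ((‖ξ‖ : ℝ) : ℂ) • ξ' := by
    rw [hξ', smul_smul, ← Complex.ofReal_mul, mul_inv_cancel₀ hξn.ne', Complex.ofReal_one,
      one_smul]
  obtain ⟨b, hb, y, hy, hb1, hy1, hby⟩ := hκ ξ' hξ'n
  have hbM : b ∈ Com (Com 𝔄) := mem_Com.mpr fun n hn => (mem_Com.mp hn b hb).symm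
  set a' : Fin (m + 1) → Com (Com 𝔄) := Fin.cons ⟨b, hbM⟩ a with ha'
  have ha'S : ∀ k, a' k ∈ SubA 𝔄 ∧ ‖a' k‖ ≤ 1 := by
    intro k
    refine Fin.cases ?_ (fun k => ?_) k
    · exact ⟨hb, hb1⟩
    · exact ha k
  obtain ⟨Ψ, hΨ1, hΨ2, hΨ3⟩ := separate a' hC hθ₁ (evF (Com 𝔄) T ξ η) (fun φ hφ => hev a' φ ha'S hφ)
  rw [inF_evF, ev_apply] at hΨ2 hΨ3
  have hle1 : ‖⟪η, Ψ.ap T ξ⟫_ℂ‖ ≤ 1 := by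
    refine (norm_inner_le_norm _ _).trans (mul_le_one₀ hη (norm_nonneg _) ?_)
    refine (le_opNorm _ _).trans (mul_le_one₀ ?_ (norm_nonneg _) hξ)
    exact (X.norm_ap_le Ψ T).trans (mul_le_one₀ hΨ1 (norm_nonneg _) hT)
  have hcomm : ∀ k, ‖lX (Com 𝔄) (a' k) Ψ - rX (Com 𝔄) (a' k) Ψ‖ ≤ 1 / C := by
    intro k
    rw [le_div_iff₀ hC, mul_comm]
    exact (hΨ3 k).trans hle1
  refine ⟨T * y, Ψ, (norm_mul_le _ _).trans (mul_le_one₀ hT (norm_nonneg _) hy1), hΨ1,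
    fun k => hcomm k.succ, ?_⟩
  set u : H := b (y ξ₀) with hu
  have hun : ‖u‖ ≤ 1 := (b.le_opNorm _).trans (mul_le_one₀ hb1 (norm_nonneg _)
    ((y.le_opNorm _).trans (mul_le_one₀ hy1 (norm_nonneg _) hξ₀)))
  have hTn : ‖Ψ.ap T‖ ≤ 1 := (X.norm_ap_le Ψ T).trans (mul_le_one₀ hΨ1 (norm_nonneg _) hT)
  -- the norm at u
  have h1 : θ₁ ≤ ‖Ψ.ap T u‖ + Real.sqrt (1 - κ ^ 2) := by
    have e1 : ξ' = ⟪u, ξ'⟫_ℂ • u + (ξ' - ⟪u, ξ'⟫_ℂ • u) := by abel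
    have e2 : ‖Ψ.ap T ξ‖ ≤ ‖Ψ.ap T ξ'‖ := by
      rw [hξξ', map_smul, norm_smul, Complex.norm_real, norm_norm]
      exact mul_le_of_le_one_left (norm_nonneg _) hξ
    have e3 : ‖Ψ.ap T ξ'‖ ≤ ‖Ψ.ap T u‖ + Real.sqrt (1 - κ ^ 2) := by
      have f1 : Ψ.ap T ξ' = ⟪u, ξ'⟫_ℂ • Ψ.ap T u + Ψ.ap T (ξ' - ⟪u, ξ'⟫_ℂ • u) := by
        rw [← map_smul, ← map_add, ← e1]
      rw [f1]
      refine (norm_add_le _ _).trans (add_le_add ?_ ?_)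
      · rw [norm_smul]
        refine mul_le_of_le_one_left (norm_nonneg _) ?_
        refine (norm_inner_le_norm _ _).trans ?_
        rw [hξ'n, mul_one]
        exact hun
      · refine (le_opNorm _ _).trans ?_
        refine (mul_le_of_le_one_left (norm_nonneg _) hTn).trans ?_
        exact cs_decomp hun hξ'n hκ0 hby
    have e4 : ‖⟪η, Ψ.ap T ξ⟫_ℂ‖ ≤ ‖Ψ.ap T ξ‖ :=
      (norm_inner_le_norm _ _).trans (mul_le_of_le_one_left (norm_nonneg _) hη)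
    linarith
  have h2 : ‖Ψ.ap T u‖ ≤ ‖Ψ.ap (T * y) ξ₀‖ + 1 / C := by
    have e1 : Ψ.ap T u = b (Ψ.ap T (y ξ₀)) -
        (lX (Com 𝔄) (a' 0) Ψ - rX (Com 𝔄) (a' 0) Ψ).ap T (y ξ₀) := by
      rw [commutator_ap]
      show Ψ.ap T (b (y ξ₀)) = b (Ψ.ap T (y ξ₀)) - (b (Ψ.ap T (y ξ₀)) - Ψ.ap T (b (y ξ₀)))
      abel
    have e2 : Ψ.ap (T * y) ξ₀ = Ψ.ap T (y ξ₀) := by
      rw [X.right Ψ hy]; rfl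
    rw [e1, e2]
    refine (norm_sub_le _ _).trans (add_le_add ?_ ?_)
    · exact (b.le_opNorm _).trans (mul_le_of_le_one_left (norm_nonneg _) hb1)
    · have e3 : ‖y ξ₀‖ ≤ 1 := (y.le_opNorm _).trans (mul_le_one₀ hy1 (norm_nonneg _) hξ₀)
      refine (le_opNorm _ _).trans ?_
      have e4 := X.norm_ap_le (lX (Com 𝔄) (a' 0) Ψ - rX (Com 𝔄) (a' 0) Ψ) T
      have e5 := hcomm 0
      have e6 : ‖(lX (Com 𝔄) (a' 0) Ψ - rX (Com 𝔄) (a' 0) Ψ).ap T‖ ≤ 1 / C :=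
        e4.trans ((mul_le_of_le_one_right (norm_nonneg _) hT).trans e5)
      calc ‖(lX (Com 𝔄) (a' 0) Ψ - rX (Com 𝔄) (a' 0) Ψ).ap T‖ * ‖y ξ₀‖ ≤ (1 / C) * 1 :=
            mul_le_mul e6 e3 (norm_nonneg _) (by positivity)
        _ = 1 / C := mul_one _
  linarith

end Pool.Agent.MP_86f3ed.Pin
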